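import Pool.Agent.V5helper92.HC.Forms

/-!
# Sums of smooth forms in disjoint sets of variables
-/

set_option autoImplicit false

open MvPolynomial

namespace Pool.Agent.V5helper92.HC

variable {σ τ : Type} [Fintype σ] [Fintype τ] {d : ℕ}

lemma SForm.eval_euler (S : SForm σ d) (x : σ → ℂ) (h : ∀ i, eval x (pderiv i S.F) = 0) :
    eval x S.F = 0 := by
  have h1 := congrArg (eval x) S.hom.sum_X_mul_pderiv
  rw [map_sum, Finset.sum_eq_zero, map_nsmul] at h1
  · have h2 : d ≠ 0 := by
      have := S.deg
      omega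
    rw [eq_comm, nsmul_eq_mul, mul_eq_zero] at h1
    exact h1.resolve_left (by exact_mod_cast h2)
  · intro i _
    rw [map_mul, h i, mul_zero]

lemma SForm.eq_zero (S : SForm σ d) (x : σ → ℂ) (h : ∀ i, eval x (pderiv i S.F) = 0) : x = 0 := by
  by_contra hx
  obtain ⟨i, hi⟩ := S.smooth x hx (S.eval_euler x h)
  exact hi (h i)

lemma pderiv_add_inl {σ τ : Type} (F : MvPolynomial σ ℂ) (G : MvPolynomial τ ℂ) (i : σ) :
    pderiv (Sum.inl i) (rename Sum.inl F + rename Sum.inr G : MvPolynomial (σ ⊕ τ) ℂ) =
      rename Sum.inl (pderiv i F) := by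
  classical
  have h0 : pderiv (Sum.inl i) (rename Sum.inr G : MvPolynomial (σ ⊕ τ) ℂ) = 0 := by
    apply pderiv_eq_zero_of_notMem_vars
    intro h
    have h2 := vars_rename (Sum.inr : τ → σ ⊕ τ) G h
    simp at h2
  rw [map_add, pderiv_rename Sum.inl_injective, h0, add_zero]

lemma pderiv_add_inr {σ τ : Type} (F : MvPolynomial σ ℂ) (G : MvPolynomial τ ℂ) (j : τ) :
    pderiv (Sum.inr j) (rename Sum.inl F + rename Sum.inr G : MvPolynomial (σ ⊕ τ) ℂ) =
      rename Sum.inr (pderiv j G) := by
  classical
  have h0 : pderiv (Sum.inr j) (rename Sum.inl F : MvPolynomial (σ ⊕ τ) ℂ) = 0 := by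
    apply pderiv_eq_zero_of_notMem_vars
    intro h
    have h2 := vars_rename (Sum.inl : σ → σ ⊕ τ) F h
    simp at h2
  rw [map_add, pderiv_rename Sum.inr_injective, h0, zero_add]

/-- the polynomial `F(x) + G(y)` -/
noncomputable def addPoly {σ τ : Type} (F : MvPolynomial σ ℂ) (G : MvPolynomial τ ℂ) :
    MvPolynomial (σ ⊕ τ) ℂ := rename Sum.inl F + rename Sum.inr G

/-- The form `F(x) + G(y)`. -/
noncomputable def SForm.add (S : SForm σ d) (T : SForm τ d) : SForm (σ ⊕ τ) d where
  F := addPoly S.F T.F
  deg := S.deg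
  card := by
    have := S.card
    rw [Fintype.card_sum]
    omega
  hom := (S.hom.rename_isHomogeneous).add T.hom.rename_isHomogeneous
  smooth := by
    intro x hx _
    by_contra hcon
    push Not at hcon
    apply hx
    have h1 : (fun i => x (Sum.inl i)) = 0 := by
      apply S.eq_zero
      intro i
      have h := hcon (Sum.inl i)
      rw [addPoly, pderiv_add_inl, eval_rename] at h
      exact h
    have h2 : (fun j => x (Sum.inr j)) = 0 := by
      apply T.eq_zero
      intro j
      have h := hcon (Sum.inr j)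
      rw [addPoly, pderiv_add_inr, eval_rename] at h
      exact h
    funext k
    rcases k with i | j
    · exact congrFun h1 i
    · exact congrFun h2 j

lemma SForm.dim_add (S : SForm σ d) (T : SForm τ d) : (S.add T).dim = S.dim + T.dim + 2 := by
  have h1 := S.card
  have h2 := T.card
  rw [SForm.dim, SForm.dim, SForm.dim, Fintype.card_sum]
  omega

end Pool.Agent.V5helper92.HC
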