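import Pool.Agent.V5helper92.HC.Converse
import Pool.Agent.V5helper92.HC.Sum

/-!
# Rigid families of cycles on hypersurfaces
-/

set_option autoImplicit false

open CategoryTheory MonoidalCategory CartesianMonoidalCategory

namespace Pool.Agent.V5helper92.HC

universe u w

variable {V : Type u} [Category.{w} V] [CartesianMonoidalCategory V] {C : Chow V} {dim : V → ℕ}
  {d : ℕ}

/-- The smooth hypersurfaces `X S` of degree `d`, `X S : S.F = 0`, with their hyperplane classes `h S`. -/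
structure Hypersurfaces (C : Chow V) (d : ℕ) where
  X : ∀ {σ : Type} [Fintype σ], SForm σ d → V
  h : ∀ {σ : Type} [Fintype σ] (S : SForm σ d), C.A (X S)

/-- Hartshorne's conjecture in codimension `i` for the hypersurface of `S`: every class of
codimension `i` is a rational multiple of `h ^ i`. -/
def Hypersurfaces.Triv (G : Hypersurfaces C d) {σ : Type} [Fintype σ] (S : SForm σ d) (i : ℕ) :
    Prop := ∀ a ∈ C.gr (G.X S) i, ∃ q : ℚ, a = q • G.h S ^ i

/-- The standard facts on smooth hypersurfaces of degree `d`: the hyperplane class, dimension and degree;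
plane curves of degree `d`, with the tangent class `3 - d` times the hyperplane class; joins. -/
structure JoinGeometry (dim : V → ℕ) (G : Hypersurfaces C d) : Prop where
  hasDim : C.HasDim dim
  codim_h : ∀ {σ : Type} [Fintype σ] (S : SForm σ d), C.Codim 1 (G.h S)
  dim_eq : ∀ {σ : Type} [Fintype σ] (S : SForm σ d), dim (G.X S) = S.dim
  degree : ∀ {σ : Type} [Fintype σ] (S : SForm σ d),
    C.pf (toUnit (G.X S)) (G.h S ^ S.dim) = (d : ℚ) • 1
  curve : ∀ {τ : Type} [Fintype τ] (T : SForm τ d), T.dim = 1 →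
    C.IsCurve dim (G.X T) ((3 - (d : ℚ)) • G.h T)
  join : ∀ {σ τ : Type} [Fintype σ] [Fintype τ] (S : SForm σ d) (T : SForm τ d),
    Nonempty (Join C dim d (G.h S) (G.h T) (G.h (S.add T)))

section

variable {G : Hypersurfaces C d} (hG : JoinGeometry dim G) {τ : Type} [Fintype τ]
  {T : SForm τ d} {σ : Type} [Fintype σ] {S : SForm σ d} {i : ℕ}

include hG

lemma JoinGeometry.h_mem (S : SForm σ d) : G.h S ∈ C.gr (G.X S) 1 := hG.codim_h S

lemma h_pow_mem (S : SForm σ d) (k : ℕ) : G.h S ^ k ∈ C.gr (G.X S) k :=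
  pow_mem_gr (hG.h_mem S) k

/-- every class is primitive up to a multiple of `h ^ i` -/
lemma exists_primitive (hi : i ≤ S.dim) (hd : d ≠ 0) (a : C.A (G.X S)) (ha : a ∈ C.gr (G.X S) i) :
    ∃ q : ℚ, C.push (toUnit (G.X S)) ((a - q • G.h S ^ i) * G.h S ^ (S.dim - i)) = 0 := by
  have hD := hG.hasDim
  have h1 : C.push (toUnit (G.X S)) (a * G.h S ^ (S.dim - i)) ∈ C.gr (𝟙_ V) 0 :=
    hD.push_mem (toUnit (G.X S)) (i + (S.dim - i)) 0 _
      (C.mul_mem _ _ _ _ _ ha (h_pow_mem hG S _)) (by rw [hD.unit, hG.dim_eq]; omega)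
  obtain ⟨q, hq⟩ := hD.zero _ h1
  have hd0 : (d : ℚ) ≠ 0 := by exact_mod_cast hd
  have h2 : C.push (toUnit (G.X S)) (G.h S ^ S.dim) = (d : ℚ) • 1 := hG.degree S
  refine ⟨q / d, ?_⟩
  rw [sub_mul, map_sub, hq, smul_mul_assoc, ← pow_add, Nat.add_sub_cancel' hi, map_smul, h2,
    smul_smul, div_mul_cancel₀ q hd0, sub_self]

/-- the first step: up to families over `Y` -/
theorem sub_mem_algZero (hd : 3 ≤ d) (hT : T.dim = 1) (hi : i ≤ S.dim)
    (hR : C.Rigid (G.X T) (G.X (S.add T)) (i + 2)) (a : C.A (G.X S))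
    (ha : a ∈ C.gr (G.X S) i) :
    ∃ q : ℚ, a - q • G.h S ^ i ∈ C.AlgZero (G.X T) (G.X S) i := by
  obtain ⟨q, hq⟩ := exists_primitive hG hi (by omega) a ha
  refine ⟨q, ?_⟩
  obtain ⟨j⟩ := hG.join S T
  have hdeg : C.push (toUnit (G.X T)) (G.h T) = (d : ℚ) • 1 := by
    have h := hG.degree T
    rw [hT, pow_one] at h
    exact h
  refine mem_algZero hG.hasDim (hG.curve T hT) j hd rfl hdeg (hG.h_mem S) (hG.h_mem T) hR ?_ ?_ ?_
  · exact Submodule.sub_mem _ ha (Submodule.smul_mem _ _ (h_pow_mem hG S i))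
  · rw [hG.dim_eq]
    exact hi
  · rw [hG.dim_eq]
    exact hq

theorem triv_of_rigid (hd : 3 ≤ d) (hT : T.dim = 1) (hi : i ≤ S.dim)
    (hR : C.Rigid (G.X T) (G.X (S.add T)) (i + 2)) (hX : C.Rigid (G.X T) (G.X S) i) :
    G.Triv S i := by
  intro a ha
  obtain ⟨q, hq⟩ := sub_mem_algZero hG hd hT hi hR a ha
  rw [Rigid.algZero hX, Submodule.mem_bot] at hq
  exact ⟨q, sub_eq_zero.mp hq⟩

theorem rigid_of_triv (hT : T.dim = 1) (hi : i ≤ S.dim) (h : G.Triv S i) :
    C.Rigid (G.X T) (G.X S) i := by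
  intro c hc
  have hD := hG.hasDim
  have hC := hG.curve T hT
  have hd0 : (d : ℚ) ≠ 0 := by
    have := T.deg
    have : d ≠ 0 := by omega
    exact_mod_cast this
  -- the degree is constant in the family
  have key : ∃ q : ℚ, ∀ t : 𝟙_ V ⟶ G.X T, C.pull (sec (G.X S) t) c = q • G.h S ^ i := by
    have h1 : C.push (toUnit (G.X S) ▷ G.X T) (c * C.pull (fst _ _) (G.h S ^ (S.dim - i))) ∈
        C.gr (𝟙_ V ⊗ G.X T) 0 := by
      refine hD.push_mem (toUnit (G.X S) ▷ G.X T) (i + (S.dim - i)) 0 _ ?_ ?_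
      · exact C.mul_mem _ _ _ _ _ hc (C.pull_mem _ _ _ (h_pow_mem hG S _))
      · have h7 := hG.dim_eq S
        rw [hD.prod, hD.prod, hD.unit]
        omega
    obtain ⟨q, hq⟩ := hD.zero _ h1
    refine ⟨q / d, fun t => ?_⟩
    obtain ⟨r, hr⟩ := h (C.pull (sec (G.X S) t) c) (C.pull_mem _ _ _ hc)
    have h2 : C.pull (sec (𝟙_ V) t)
        (C.push (toUnit (G.X S) ▷ G.X T) (c * C.pull (fst _ _) (G.h S ^ (S.dim - i)))) =
        C.push (toUnit (G.X S)) (C.pull (sec (G.X S) t)
          (c * C.pull (fst _ _) (G.h S ^ (S.dim - i)))) :=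
      hC.baseChange.base (toUnit (G.X S)) t _
    have h3 : C.push (toUnit (G.X S)) (G.h S ^ S.dim) = (d : ℚ) • 1 := hG.degree S
    rw [hq, map_smul, map_one, map_mul, pull_sec_fst, hr, smul_mul_assoc, ← pow_add,
      Nat.add_sub_cancel' hi, map_smul, h3, smul_smul] at h2
    by_cases h10 : (1 : C.A (𝟙_ V)) = 0
    · -- then all groups vanish
      have h4 : (1 : C.A (G.X S)) = 0 := by
        rw [← map_one (C.pull (toUnit (G.X S))), h10, map_zero]
      rw [hr]
      calc r • G.h S ^ i = r • (G.h S ^ i * 1) := by rw [mul_one]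
        _ = (q / d) • (G.h S ^ i * 1) := by rw [h4, mul_zero, smul_zero, smul_zero]
        _ = _ := by rw [mul_one]
    · have h5 : q = r * d := by
        have h6 : (q - r * d) • (1 : C.A (𝟙_ V)) = 0 := by rw [sub_smul, h2, sub_self]
        exact sub_eq_zero.mp ((smul_eq_zero.mp h6).resolve_right h10)
      rw [hr, h5, mul_div_cancel_right₀ r hd0]
  obtain ⟨q, hq⟩ := key
  intro t u
  exact (hq t).trans (hq u).symm

omit hG in
/-- a countable group has no nonconstant families -/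
theorem rigid_of_rank {Y X : V} {κ : C.A Y} (hC : C.IsCurve dim Y κ) {i : ℕ}
    (h : Module.rank ℚ (C.gr X i) ≤ Cardinal.aleph0) : C.Rigid Y X i := by
  intro c hc
  apply hC.countable X i c hc
  have h1 : Countable (C.gr X i) := by
    let b := Module.Free.chooseBasis ℚ (C.gr X i)
    have h2 : Countable (Module.Free.ChooseBasisIndex ℚ (C.gr X i)) := by
      rw [← Cardinal.mk_le_aleph0_iff, b.mk_eq_rank'']
      exact h
    exact b.repr.toEquiv.injective.countable
  refine (Set.countable_range (Subtype.val : C.gr X i → C.A X)).mono ?_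
  rintro _ ⟨t, rfl⟩
  exact ⟨⟨_, C.pull_mem (sec X t) i c hc⟩, rfl⟩

/-- rigidity in one codimension gap gives triviality in the next -/
theorem triv_of_rigid_gap (hd : 3 ≤ d) (hT : T.dim = 1) (c : ℕ)
    (h : ∀ (σ : Type) [Fintype σ] (S : SForm σ d) (i : ℕ), 2 * i + c ≤ S.dim →
      C.Rigid (G.X T) (G.X S) i) (σ : Type) [Fintype σ] (S : SForm σ d) (i : ℕ)
    (hi : 2 * i + c + 1 ≤ S.dim) : G.Triv S i := by
  refine triv_of_rigid hG hd hT (by omega) (h _ (S.add T) (i + 2) ?_) (h _ S i (by omega))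
  rw [SForm.dim_add, hT]
  omega

/-- triviality of the classes of codimension `i + 1` on `J` gives rigidity in codimension `i` -/
theorem rigid_of_triv_add (hT : T.dim = 1) (hi : i ≤ S.dim)
    (h2 : G.Triv (S.add T) (i + 1)) : C.Rigid (G.X T) (G.X S) i := by
  rcases i with _ | i
  · intro z hz t u
    obtain ⟨q, rfl⟩ := hG.hasDim.zero z hz
    change C.pull (sec (G.X S) t) (q • 1) = C.pull (sec (G.X S) u) (q • 1)
    rw [map_smul, map_smul, map_one, map_one]
  obtain ⟨j⟩ := hG.join S T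
  have hd := T.deg
  have hdegT : C.push (toUnit (G.X T)) (G.h T) = (d : ℚ) • 1 := by
    have h := hG.degree T
    rw [hT, pow_one] at h
    exact h
  have hdegS : C.push (toUnit (G.X S)) (G.h S ^ dim (G.X S)) = (d : ℚ) • 1 := by
    rw [hG.dim_eq]
    exact hG.degree S
  exact rigid_of_triv_join hG.hasDim (hG.curve T hT) j (by omega) hdegT hdegS (hG.h_mem S)
    (hG.h_mem T) (by rw [hG.dim_eq]; exact hi) h2

/-- triviality in one codimension gap gives rigidity in the previous one -/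
theorem rigid_of_triv_gap (hT : T.dim = 1) (c : ℕ)
    (h : ∀ (σ : Type) [Fintype σ] (S : SForm σ d) (i : ℕ), 2 * i + c + 1 ≤ S.dim → G.Triv S i)
    (σ : Type) [Fintype σ] (S : SForm σ d) (i : ℕ) (hi : 2 * i + c ≤ S.dim) :
    C.Rigid (G.X T) (G.X S) i := by
  refine rigid_of_triv_add hG hT (by omega) (h _ (S.add T) (i + 1) ?_)
  rw [SForm.dim_add, hT]
  omega

end

end Pool.Agent.V5helper92.HC
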