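import Pool.Agent.V5helper92.HC.Proj
import Pool.Agent.V5helper92.HC.Rigid

/-!
# Adequate equivalence relations on products of hypersurfaces
-/

set_option autoImplicit false

open CategoryTheory MonoidalCategory CartesianMonoidalCategory

namespace Pool.Agent.V5helper92.HC

universe u w

variable {V : Type u} [Category.{w} V]

/-- Subspaces `N X` of the Chow rings which are preserved by pull-backs, push-forwards, and products with
arbitrary classes: the classes which are equivalent to zero for an adequate equivalence relation. -/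
structure IsAdequate (C : Chow V) (N : ∀ X : V, Submodule ℚ (C.A X)) : Prop where
  pull : ∀ {X Y : V} (f : X ⟶ Y) (y : C.A Y), y ∈ N Y → C.pull f y ∈ N X
  push : ∀ {X Y : V} (f : X ⟶ Y) (x : C.A X), x ∈ N X → C.push f x ∈ N Y
  mul : ∀ {X : V} (x y : C.A X), x ∈ N X → x * y ∈ N X

section

variable {C : Chow V} {N E : ∀ X : V, Submodule ℚ (C.A X)}

lemma IsAdequate.comb_mem (hE : IsAdequate C E) (hN : IsAdequate C N) {W B : V} (d : ℕ)
    (f : W ⟶ B) (η : C.A W) (n : ℕ) {z : C.A W} (hz : z ∈ E W) (h : E B ≤ N B) :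
    comb d f η n z ∈ N W :=
  HC.comb_mem fun _ _ => hN.mul _ _ (hN.pull f _ (h (hE.push f _ (hE.mul _ _ hz))))

/-- if `f_* u = 1` for some `u` -/
lemma IsAdequate.dominated (hE : IsAdequate C E) (hN : IsAdequate C N) {W B : V} (f : W ⟶ B)
    (u : C.A W) (hu : C.push f u = 1) (h : E W ≤ N W) : E B ≤ N B := by
  intro y hy
  have h1 : y = C.push f (C.pull f y * u) := by
    rw [mul_comm, C.proj, hu, one_mul]
  rw [h1]
  exact hN.push f _ (hN.mul _ _ (h (hE.pull f y hy)))

end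

section

variable [CartesianMonoidalCategory V] {C : Chow V} {dim : V → ℕ} {d : ℕ} {X Y Z J : V}
  {hX : C.A X} {hY : C.A Y} {hJ : C.A J} {N E : ∀ X : V, Submodule ℚ (C.A X)}

/-- **The transfer.** -/
theorem transfer (hE : IsAdequate C E) (hN : IsAdequate C N) (j : Join C dim d hX hY hJ)
    (hj : j.Times) (hP : C.Products) (hD : C.HasDim dim) (hd : d ≠ 0) (iX : IsHyp dim d X hX)
    (iY : IsHyp dim d Y hY) (Z : V) (h1 : E (X ⊗ Z) ≤ N (X ⊗ Z)) (h2 : E (Y ⊗ Z) ≤ N (Y ⊗ Z))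
    (h3 : E (J ⊗ Z) ≤ N (J ⊗ Z)) : E (X ⊗ (Y ⊗ Z)) ≤ N (X ⊗ (Y ⊗ Z)) := by
  intro z hz
  obtain ⟨z₁, hz₁⟩ : ∃ z₁, z₁ = comb d (X ◁ snd Y Z)
    (C.pull (snd X (Y ⊗ Z)) (C.pull (fst Y Z) hY)) (dim Y) z := ⟨_, rfl⟩
  have a1 : z₁ ∈ E (X ⊗ (Y ⊗ Z)) := by
    rw [hz₁]
    exact hE.comb_mem hE d _ _ _ hz le_rfl
  have a2 : z₁ ∈ N (X ⊗ (Y ⊗ Z)) := by
    rw [hz₁]
    exact hE.comb_mem hN d _ _ _ hz h1
  have a3 : z - z₁ ∈ E (X ⊗ (Y ⊗ Z)) := Submodule.sub_mem _ hz a1
  obtain ⟨z₂, hz₂⟩ : ∃ z₂, z₂ = comb d (snd X (Y ⊗ Z)) (C.pull (fst X (Y ⊗ Z)) hX) (dim X)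
    (z - z₁) := ⟨_, rfl⟩
  have a4 : z₂ ∈ E (X ⊗ (Y ⊗ Z)) := by
    rw [hz₂]
    exact hE.comb_mem hE d _ _ _ a3 le_rfl
  have a5 : z₂ ∈ N (X ⊗ (Y ⊗ Z)) := by
    rw [hz₂]
    exact hE.comb_mem hN d _ _ _ a3 h2
  have a6 : prim d (dim X) (dim Y) hX hY z = z - z₁ - z₂ := by
    rw [hz₂, hz₁]
    rfl
  have a7 : z - z₁ - z₂ ∈ E (X ⊗ (Y ⊗ Z)) := Submodule.sub_mem _ a3 a4
  have a8 : j.up Z (z - z₁ - z₂) ∈ E (J ⊗ Z) := hE.push _ _ (hE.pull _ _ (hE.pull _ _ a7))
  have a9 : j.down Z (j.up Z (z - z₁ - z₂)) ∈ N (X ⊗ (Y ⊗ Z)) :=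
    hN.push _ _ (hN.push _ _ (hN.pull _ _ (h3 a8)))
  rw [j.down_up hj hP hD Z (z - z₁ - z₂)
    (fun l => by rw [← a6]; exact prim_fst iX hD hP hd _ z l)
    (fun l => by rw [← a6]; exact prim_snd iY hD hP hd _ z l)] at a9
  have b1 : (d : ℚ) ≠ 0 := by exact_mod_cast hd
  have b2 : z - z₁ - z₂ ∈ N (X ⊗ (Y ⊗ Z)) :=
    (Submodule.smul_mem_iff _ b1).1 (Submodule.neg_mem_iff _ |>.1 a9)
  have b3 := Submodule.add_mem _ (Submodule.add_mem _ b2 a5) a2
  rwa [sub_add_cancel, sub_add_cancel] at b3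

end

/-! ### Products of hypersurfaces -/

/-- A smooth form of degree `d`, in some finite set of variables. -/
structure BForm (d : ℕ) where
  vars : Type
  [fin : Fintype vars]
  form : SForm vars d

attribute [instance] BForm.fin

/-- The form `F(x) + G(y)`. -/
noncomputable def BForm.add {d : ℕ} (F G : BForm d) : BForm d := ⟨F.vars ⊕ G.vars, F.form.add G.form⟩

/-- The form `F(x) + F_1(x_1) + ... + F_r(x_r)`, for the list `F_1, ..., F_r`. -/
noncomputable def total {d : ℕ} : BForm d → List (BForm d) → BForm d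
  | F, [] => F
  | F, G :: L => total (F.add G) L

/-- The standard facts on smooth hypersurfaces of degree `d` and their products: the hyperplane class,
dimension and degree; joins, and their products with further varieties. -/
structure ProductGeometry {V : Type u} [Category.{w} V] [CartesianMonoidalCategory V] {C : Chow V}
    (dim : V → ℕ) {d : ℕ} (G : Hypersurfaces C d) : Prop where
  hasDim : C.HasDim dim
  products : C.Products
  codim_h : ∀ {σ : Type} [Fintype σ] (S : SForm σ d), C.Codim 1 (G.h S)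
  dim_eq : ∀ {σ : Type} [Fintype σ] (S : SForm σ d), dim (G.X S) = S.dim
  degree : ∀ {σ : Type} [Fintype σ] (S : SForm σ d),
    C.pf (toUnit (G.X S)) (G.h S ^ S.dim) = (d : ℚ) • 1
  join : ∀ {σ τ : Type} [Fintype σ] [Fintype τ] (S : SForm σ d) (T : SForm τ d),
    ∃ j : Join C dim d (G.h S) (G.h T) (G.h (S.add T)), j.Times

section

variable [CartesianMonoidalCategory V] {C : Chow V} {dim : V → ℕ} {d : ℕ}

/-- The product of the hypersurfaces `F_1 = 0, ..., F_r = 0`, for the list `F_1, ..., F_r`. -/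
def prod (G : Hypersurfaces C d) : List (BForm d) → V
  | [] => 𝟙_ V
  | F :: L => G.X F.form ⊗ prod G L

variable {G : Hypersurfaces C d} (hG : ProductGeometry dim G)
  {N E : ∀ X : V, Submodule ℚ (C.A X)}

include hG

lemma ProductGeometry.isHyp {σ : Type} [Fintype σ] (S : SForm σ d) :
    IsHyp dim d (G.X S) (G.h S) where
  mem := hG.codim_h S
  degree := by
    rw [hG.dim_eq]
    exact hG.degree S

/-- the transfer to products -/
theorem transfer_prod (hE : IsAdequate C E) (hN : IsAdequate C N) (L : List (BForm d)) :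
    ∀ F : BForm d, (∀ F' L', List.Sublist (F' :: L') (F :: L) →
      E (G.X (total F' L').form) ≤ N (G.X (total F' L').form)) →
        E (prod G (F :: L)) ≤ N (prod G (F :: L)) := by
  induction L with
  | nil =>
    intro F h
    have h1 := h F [] (List.Sublist.refl _)
    refine hE.dominated hN (ρ_ (G.X F.form)).inv 1 ?_ h1
    have h2 : C.push (ρ_ (G.X F.form)).symm.hom 1 = 1 := hG.products.iso _
    exact h2
  | cons F₂ L ih =>
    intro F h
    obtain ⟨j, hj⟩ := hG.join F.form F₂.form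
    have hd : d ≠ 0 := by
      have := F.form.deg
      omega
    refine transfer hE hN j hj hG.products hG.hasDim hd (hG.isHyp _) (hG.isHyp _) (prod G L)
      (ih F fun F' L' hs => h F' L' ?_) (ih F₂ fun F' L' hs => h F' L' ?_)
      (ih (F.add F₂) fun F' L' hs => ?_)
    · exact hs.trans ((List.sublist_cons_self F₂ L).cons_cons F)
    · exact hs.trans (List.sublist_cons_self F (F₂ :: L))
    · rcases List.sublist_cons_iff.1 hs with h1 | ⟨r, h1, h2⟩
      · exact h F' L' ((h1.cons F₂).cons F)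
      · obtain ⟨rfl, rfl⟩ := List.cons.inj h1
        exact h F (F₂ :: L') ((h2.cons_cons F₂).cons_cons F)

end

end Pool.Agent.V5helper92.HC
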