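import Mathlib

/-!
# Linear algebra: quotients and finite Fourier transforms
-/

set_option autoImplicit false

open TensorProduct

namespace Pool.Agent.V5helper92.HC

section quot

variable {M M' M'' : Type} [AddCommGroup M] [Module ℚ M] [AddCommGroup M'] [Module ℚ M']
  [AddCommGroup M''] [Module ℚ M'']

/-- `P` modulo `P ∩ H` -/
abbrev Qt (P H : Submodule ℚ M) : Type := P ⧸ H.submoduleOf P

/-- the dimension of `P / (P ∩ H)` -/
noncomputable def relDim (P H : Submodule ℚ M) : Cardinal := Module.rank ℚ (Qt P H)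

variable {P H : Submodule ℚ M} {P' H' : Submodule ℚ M'} {P'' H'' : Submodule ℚ M''}

/-- the induced map -/
def Qt.map (f : M →ₗ[ℚ] M') (hP : ∀ x ∈ P, f x ∈ P') (hH : ∀ x ∈ H, f x ∈ H') :
    Qt P H →ₗ[ℚ] Qt P' H' :=
  Submodule.mapQ _ _ (f.restrict hP) fun x hx => hH x.1 hx

lemma Qt.map_mk (f : M →ₗ[ℚ] M') (hP : ∀ x ∈ P, f x ∈ P') (hH : ∀ x ∈ H, f x ∈ H') (x : P) :
    Qt.map f hP hH (Submodule.Quotient.mk x) = Submodule.Quotient.mk ⟨f x, hP x x.2⟩ := rfl

lemma Qt.hom_ext {f g : Qt P H →ₗ[ℚ] Qt P' H'}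
    (h : ∀ x : P, f (Submodule.Quotient.mk x) = g (Submodule.Quotient.mk x)) : f = g := by
  apply LinearMap.ext
  intro x
  obtain ⟨x, rfl⟩ := Submodule.Quotient.mk_surjective _ x
  exact h x

lemma Qt.mk_eq {x y : P} (h : (x : M) - y ∈ H) :
    (Submodule.Quotient.mk x : Qt P H) = Submodule.Quotient.mk y :=
  (Submodule.Quotient.eq _).mpr h

/-- the quotient is zero if and only if `P ≤ H` -/
lemma Qt.rank_zero_iff : Module.rank ℚ (Qt P H) = 0 ↔ P ≤ H := by
  rw [_root_.rank_zero_iff, Submodule.Quotient.subsingleton_iff, Submodule.submoduleOf,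
    Submodule.comap_subtype_eq_top]

end quot

section fourier

variable {d : ℕ} [NeZero d] {W W' : Type} [AddCommGroup W] [Module ℂ W] [AddCommGroup W']
  [Module ℂ W']

/-- the additive character of `ZMod d` -/
noncomputable abbrev ψ (k : ZMod d) : ℂ := ZMod.stdAddChar k

lemma ψ_add (k l : ZMod d) : ψ (k + l) = ψ k * ψ l := AddChar.map_add_eq_mul _ _ _

lemma ψ_zero : ψ (0 : ZMod d) = 1 := AddChar.map_zero_eq_one _

lemma ψ_ne (k : ZMod d) : ψ k ≠ 0 := by
  intro h
  have h1 := ψ_add k (-k)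
  rw [add_neg_cancel, ψ_zero, h, zero_mul] at h1
  exact one_ne_zero h1

lemma ψ_pow (k : ZMod d) (n : ℕ) : ψ k ^ n = ψ (n • k) :=
  (AddChar.map_nsmul_eq_pow _ _ _).symm

lemma ψ_pow_d (k : ZMod d) : ψ k ^ d = 1 := by
  rw [ψ_pow, nsmul_eq_mul, ZMod.natCast_self, zero_mul, ψ_zero]

lemma ψ_inj {k l : ZMod d} (h : ψ k = ψ l) : k = l := ZMod.injective_stdAddChar h

lemma sum_ψ {a : ZMod d} (ha : a ≠ 0) : ∑ k : ZMod d, ψ (a * k) = 0 := by
  have h := AddChar.sum_mulShift (R := ZMod d) (R' := ℂ) a (ZMod.isPrimitive_stdAddChar d)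
  rw [if_neg ha, Nat.cast_zero] at h
  rw [← h]
  exact Finset.sum_congr rfl fun k _ => by rw [mul_comm]

/-- the isotypic combination -/
noncomputable def four (G : ZMod d → (W →ₗ[ℂ] W')) (a : ZMod d) : W →ₗ[ℂ] W' :=
  ∑ k, ψ (a * k) • G k

lemma four_apply (G : ZMod d → (W →ₗ[ℂ] W')) (a : ZMod d) (x : W) :
    four G a x = ∑ k, ψ (a * k) • G k x := by
  rw [four, LinearMap.sum_apply]
  rfl

/-- the isotypic combinations are injective -/
lemma four_inj (G : ZMod d → (W →ₗ[ℂ] W')) (Gs : ZMod d → (W' →ₗ[ℂ] W))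
    (h : ∀ k l x, Gs l (G k x) = (if k = l then (1 - (d : ℂ)) else 1) • x) {a : ZMod d}
    (ha : a ≠ 0) : Function.Injective (four G a) := by
  have key : ∀ x, ∑ l, ψ (-a * l) • Gs l (four G a x) = (-(d : ℂ) * d) • x := by
    intro x
    have h1 : ∀ l, Gs l (four G a x) = (-(d : ℂ) * ψ (a * l)) • x := by
      intro l
      rw [four_apply, map_sum]
      have h2 : ∀ k, Gs l (ψ (a * k) • G k x) =
          (ψ (a * k) - (if k = l then (d : ℂ) * ψ (a * l) else 0)) • x := by
        intro k
        rw [map_smul, h, smul_smul]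
        congr 1
        split_ifs with hk
        · subst hk; ring
        · ring
      rw [Finset.sum_congr rfl fun k _ => h2 k, ← Finset.sum_smul, Finset.sum_sub_distrib, sum_ψ ha,
        Finset.sum_ite_eq' Finset.univ l]
      simp
    rw [Finset.sum_congr rfl fun l _ => by rw [h1 l, smul_smul], ← Finset.sum_smul]
    congr 1
    have h3 : ∀ l : ZMod d, ψ (-a * l) * (-(d : ℂ) * ψ (a * l)) = -(d : ℂ) := by
      intro l
      have h4 : ψ (-a * l) * ψ (a * l) = 1 := by
        rw [← ψ_add, neg_mul, neg_add_cancel, ψ_zero]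
      rw [mul_left_comm, h4, mul_one]
    rw [Finset.sum_congr rfl fun l _ => h3 l, Finset.sum_const, Finset.card_univ, ZMod.card,
      nsmul_eq_mul]
    ring
  have hd : (-(d : ℂ) * d) ≠ 0 := by
    have : (d : ℂ) ≠ 0 := by exact_mod_cast NeZero.ne d
    exact mul_ne_zero (neg_ne_zero.mpr this) this
  intro x y hxy
  have h1 := key x
  rw [hxy, key y] at h1
  exact (smul_right_injective W hd h1).symm

/-- an operator shifting the index is scalar on the isotypic combination -/
lemma four_shift (G : ZMod d → (W →ₗ[ℂ] W')) (T : W' →ₗ[ℂ] W') (s : ZMod d)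
    (h : ∀ k x, T (G k x) = G (k - s) x) (a : ZMod d) (x : W) :
    T (four G a x) = ψ (a * s) • four G a x := by
  rw [four_apply, map_sum, Finset.smul_sum]
  rw [← Equiv.sum_comp (Equiv.addRight s) (fun k => T (ψ (a * k) • G k x))]
  apply Finset.sum_congr rfl
  intro k _
  rw [Equiv.coe_addRight, map_smul, h, add_sub_cancel_right, smul_smul, mul_add, ψ_add, mul_comm]

end fourier

/-! ### Independence of joint eigenspaces -/

section eig

variable {W : Type} [AddCommGroup W] [Module ℂ W] {τ : Type}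

/-- joint eigenspaces -/
def joint (T : τ → (W →ₗ[ℂ] W)) (c : τ → ℂ) : Submodule ℂ W where
  carrier := {v | ∀ j, T j v = c j • v}
  zero_mem' j := by rw [map_zero, smul_zero]
  add_mem' ha hb j := by rw [map_add, ha j, hb j, smul_add]
  smul_mem' a v hv j := by rw [map_smul, hv j, smul_comm]

lemma mem_joint {T : τ → (W →ₗ[ℂ] W)} {c : τ → ℂ} {v : W} :
    v ∈ joint T c ↔ ∀ j, T j v = c j • v := Iff.rfl

/-- joint eigenvectors for different joint eigenvalues with sum zero are zero -/
lemma joint_indep (T : τ → (W →ₗ[ℂ] W)) {ι : Type} [DecidableEq ι] (c : ι → τ → ℂ)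
    (hc : Function.Injective c) (s : Finset ι) : ∀ v : ι → W, (∀ i ∈ s, v i ∈ joint T (c i)) →
    ∑ i ∈ s, v i = 0 → ∀ i ∈ s, v i = 0 := by
  induction s using Finset.induction_on with
  | empty => intro v _ _ i hi; exact absurd hi (Finset.notMem_empty i)
  | insert a s ha ih =>
    intro v hv h0
    have h1 : ∀ i ∈ s, v i = 0 := by
      intro i hi
      have hne : c i ≠ c a := fun h => ha (hc h ▸ hi)
      obtain ⟨j, hj⟩ := Function.ne_iff.mp hne
      have h2 := ih (fun k => (c k j - c a j) • v k) (fun k hk =>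
        (joint T (c k)).smul_mem _ (hv k (Finset.mem_insert_of_mem hk))) (by
          have h3 : T j (∑ i ∈ insert a s, v i) - c a j • ∑ i ∈ insert a s, v i = 0 := by
            rw [h0, map_zero, smul_zero, sub_zero]
          rw [map_sum, Finset.smul_sum, ← Finset.sum_sub_distrib, Finset.sum_insert ha,
            hv a (Finset.mem_insert_self a s) j, sub_self, zero_add] at h3
          rw [← h3]
          apply Finset.sum_congr rfl
          intro k hk
          rw [hv k (Finset.mem_insert_of_mem hk) j, sub_smul]) i hi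
      exact (smul_eq_zero.mp h2).resolve_left (sub_ne_zero.mpr hj)
    have h4 : v a = 0 := by
      rw [Finset.sum_insert ha, Finset.sum_eq_zero h1, add_zero] at h0
      exact h0
    intro i hi
    rcases Finset.mem_insert.mp hi with rfl | hi
    · exact h4
    · exact h1 i hi

/-- the ranks of joint eigenspaces add up to at most the rank -/
lemma joint_rank (T : τ → (W →ₗ[ℂ] W)) {ι : Type} [Fintype ι] (c : ι → τ → ℂ)
    (hc : Function.Injective c) (δ : Cardinal) (h : ∀ i, δ ≤ Module.rank ℂ (joint T (c i))) :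
    (Fintype.card ι : Cardinal) * δ ≤ Module.rank ℂ W := by
  classical
  let f : (∀ i, joint T (c i)) →ₗ[ℂ] W := ∑ i, (joint T (c i)).subtype.comp (LinearMap.proj i)
  have hf : Function.Injective f := by
    rw [← LinearMap.ker_eq_bot, LinearMap.ker_eq_bot']
    intro v hv
    have h1 : ∑ i, (v i : W) = 0 := by
      rw [← hv]
      simp [f, LinearMap.sum_apply]
    have h2 := joint_indep T c hc Finset.univ (fun i => (v i : W)) (fun i _ => (v i).2) h1
    funext i
    exact Subtype.ext (h2 i (Finset.mem_univ i))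
  have h3 := LinearMap.rank_le_of_injective f hf
  rw [rank_pi] at h3
  refine le_trans ?_ h3
  calc (Fintype.card ι : Cardinal) * δ = Cardinal.sum fun _ : ι => δ := by
        rw [Cardinal.sum_const, Cardinal.mk_fintype, Cardinal.lift_natCast, Cardinal.lift_id]
    _ ≤ _ := Cardinal.sum_le_sum _ _ h

end eig

end Pool.Agent.V5helper92.HC
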