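import Pool.Agent.V5helper92.HC.Forms

/-!
# Chow groups of smooth hypersurfaces and cones

The standard properties of the Chow groups with rational coefficients which are used.
-/

set_option autoImplicit false

open CategoryTheory

namespace Pool.Agent.V5helper92.HC

universe u w

/-- Chow rings with rational coefficients of the varieties of a category `V` (of smooth projective
varieties over the complex numbers): the ring `A X`, its part `gr X i = A^i(X)` of codimension `i`,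
pull-backs and push-forwards, with functoriality and the projection formula. -/
structure Chow (V : Type u) [Category.{w} V] where
  A : V → Type
  [ring : ∀ X, CommRing (A X)]
  [alg : ∀ X, Algebra ℚ (A X)]
  gr : ∀ X, ℕ → Submodule ℚ (A X)
  pull : ∀ {X Y : V}, (X ⟶ Y) → A Y →ₐ[ℚ] A X
  push : ∀ {X Y : V}, (X ⟶ Y) → A X →ₗ[ℚ] A Y
  graded : ∀ X, SetLike.GradedMonoid (gr X)
  pull_gr : ∀ {X Y : V} (f : X ⟶ Y) i, gr Y i ≤ (gr X i).comap (pull f).toLinearMap
  pull_id' : ∀ X, pull (𝟙 X) = AlgHom.id ℚ (A X)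
  pull_comp' : ∀ {X Y Z : V} (f : X ⟶ Y) (g : Y ⟶ Z), pull (f ≫ g) = (pull f).comp (pull g)
  push_id' : ∀ X, push (𝟙 X) = LinearMap.id
  push_comp' : ∀ {X Y Z : V} (f : X ⟶ Y) (g : Y ⟶ Z), push (f ≫ g) = push g ∘ₗ push f
  proj : ∀ {X Y : V} (f : X ⟶ Y) (a : A X) (b : A Y), push f (a * pull f b) = push f a * b

attribute [instance] Chow.ring Chow.alg

variable {V : Type u} [Category.{w} V]

namespace Chow

variable (C : Chow V) {X Y Z : V}

/-- the pull-back `f^* a` -/
def pb (f : X ⟶ Y) (a : C.A Y) : C.A X := C.pull f a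

/-- the push-forward `f_* a` -/
def pf (f : X ⟶ Y) (a : C.A X) : C.A Y := C.push f a

/-- the class `[X] = f_* 1` of (the image of) an embedding `f : X → Y` -/
def cls (f : X ⟶ Y) : C.A Y := C.push f 1

/-- `a` has the codimension `i` -/
def Codim (i : ℕ) (a : C.A X) : Prop := a ∈ C.gr X i

lemma one_mem (X : V) : (1 : C.A X) ∈ C.gr X 0 := (C.graded X).one_mem

lemma mul_mem (X : V) (i j : ℕ) (a b : C.A X) (ha : a ∈ C.gr X i) (hb : b ∈ C.gr X j) :
    a * b ∈ C.gr X (i + j) := (C.graded X).mul_mem ha hb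

lemma pull_mem (f : X ⟶ Y) (i : ℕ) (a : C.A Y) (ha : a ∈ C.gr Y i) : C.pull f a ∈ C.gr X i :=
  C.pull_gr f i ha

lemma pull_id (X : V) (a : C.A X) : C.pull (𝟙 X) a = a := by rw [C.pull_id']; rfl

lemma pull_comp (f : X ⟶ Y) (g : Y ⟶ Z) (a : C.A Z) :
    C.pull (f ≫ g) a = C.pull f (C.pull g a) := by rw [C.pull_comp']; rfl

lemma push_id (X : V) (a : C.A X) : C.push (𝟙 X) a = a := by rw [C.push_id']; rfl

lemma push_comp (f : X ⟶ Y) (g : Y ⟶ Z) (a : C.A X) :
    C.push (f ≫ g) a = C.push g (C.push f a) := by rw [C.push_comp']; rfl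

/-- `D` is the projective bundle of `O ⊕ O(1)` over `X` with the hyperplane class `h`, with the
disjoint sections `s₀` and `s₁`: `[s₁] = [s₀] + π^* h`. -/
structure Bundle {X D : V} (h : C.A X) (π : D ⟶ X) (s₀ s₁ : X ⟶ D) : Prop where
  sec₀ : s₀ ≫ π = 𝟙 X
  sec₁ : s₁ ≫ π = 𝟙 X
  tauto : C.cls s₁ = C.cls s₀ + C.pb π h
  disj : C.pb s₀ (C.cls s₁) = 0
  memπ : ∀ (t : ℕ) (y : C.A D), C.Codim (t + 1) y → C.Codim t (C.pf π y)

/-- `β : J' → J` is the blow-up of a point of `J`, with the exceptional divisor `E`: the classes of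
positive codimension on `J'` are those of `J`, up to multiples of the powers of `[E]`. -/
structure BlowUp {J J' E : V} (β : J' ⟶ J) (e : E ⟶ J') : Prop where
  blow : ∀ (t : ℕ) (y : C.A J'), C.Codim (t + 1) y →
    ∃ q : ℚ, C.pb β (C.pf β y) = y + q • C.cls e ^ (t + 1)
  memβ : ∀ (t : ℕ) (y : C.A J'), C.Codim t y → C.Codim t (C.pf β y)

/-- `D` is the strict transform of a hyperplane section, of multiplicity `d` at the vertex, of `J` with
the hyperplane class `h`: `[D] = β^* h - d [E]`; the intersection `E ∩ D` is `s₀`, transversally; the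
self-intersection formula for the divisor `D`. -/
structure Strict (d : ℕ) {X D J J' E : V} (h : C.A J) (β : J' ⟶ J) (e : E ⟶ J') (i : D ⟶ J')
    (s₀ : X ⟶ D) : Prop where
  strict : C.cls i = C.pb β h - (d : ℚ) • C.cls e
  exc : C.pb i (C.cls e) = C.cls s₀
  self : ∀ x, C.pb i (C.pf i x) = x * C.pb i (C.cls i)
  memi : ∀ (t : ℕ) (y : C.A D), C.Codim t y → C.Codim (t + 1) (C.pf i y)

/-- The hyperplane class `hJ` of `J` restricted to `D` is `[s₁]`, and restricted to `X` it is the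
hyperplane class `hX`; the cones over linear sections of `X` are linear sections of `J`. -/
structure Linear (n : ℕ) {X D J : V} (hX : C.A X) (hJ : C.A J) (f : D ⟶ J) (π : D ⟶ X)
    (s₁ : X ⟶ D) : Prop where
  hyper : C.pb f hJ = C.cls s₁
  base : C.pb (s₁ ≫ f) hJ = hX
  lin : ∀ k ≤ n, C.pf f (C.pb π (hX ^ k)) = hJ ^ (k + 1)

end Chow

/-- Let `X` be a smooth variety of dimension `n` and let `J` be a smooth variety of dimension `n + 2`, in
projective spaces, with hyperplane classes `hX` and `hJ`, such that a hyperplane section of `J` is a cone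
over `X`, with the multiplicity `d` at its vertex. The data are: the blow-up `β : J' → J` of the vertex,
with the exceptional divisor `e : E → J'`; the strict transform `i : D → J'` of the cone; the
projection `π : D → X` (`D` is the projective bundle of the lines of the cone); its two disjoint
sections `s₀` (with values in `E`) and `s₁` (with values in `X ⊆ J`). -/
structure Cone (C : Chow V) (d n : ℕ) {X J : V} (hX : C.A X) (hJ : C.A J) where
  (D J' E : V)
  π : D ⟶ X
  (s₀ s₁ : X ⟶ D)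
  i : D ⟶ J'
  β : J' ⟶ J
  e : E ⟶ J'
  bundle : C.Bundle hX π s₀ s₁
  blowUp : C.BlowUp β e
  isStrict : C.Strict d hJ β e i s₀
  isLinear : C.Linear n hX hJ (i ≫ β) π s₁

variable {C : Chow V} {X J : V}

section

variable {d n : ℕ} {hX : C.A X} {hJ : C.A J} (c c' : Cone C d n hX hJ)

/-- the class of the cone over a cycle -/
def Cone.over (x : C.A X) : C.A J := C.pf (c.i ≫ c.β) (C.pb c.π x)

/-- the cones `c` and `c'` meet transversally, in `X ⊆ J` -/
def Cone.Meets : Prop :=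
  ∀ x, C.pb (c'.i ≫ c'.β) (C.pf (c.i ≫ c.β) x) = C.pf c'.s₁ (C.pb c.s₁ x)

/-- the class of the cone over a cycle, as a linear map -/
def Cone.cyl : C.A X →ₗ[ℚ] C.A J := (C.push (c.i ≫ c.β)).comp (C.pull c.π).toLinearMap

end

/-- Data of hypersurfaces `X S`: `S.F = 0`, with hyperplane classes `h S`, of isomorphisms `map L` of
hypersurfaces given by linear isomorphisms `L`, and of the sections `cone S ζ` of the hypersurface
`F(x) + y ^ d + z ^ d = 0` (`S.ext Bool`, `y` is the variable `false` and `z` the variable `true`) by the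
hyperplanes `y = ζ z`, `ζ ^ d = -1`, which are cones over the hypersurface `F = 0`, with the
multiplicity `d` at the vertex. -/
structure HypData (C : Chow V) (d : ℕ) where
  X : ∀ {σ : Type} [Fintype σ], SForm σ d → V
  h : ∀ {σ : Type} [Fintype σ] (S : SForm σ d), C.A (X S)
  map : ∀ {σ σ' : Type} [Fintype σ] [Fintype σ'] {S : SForm σ d} {S' : SForm σ' d},
    LinIso S S' → (X S ⟶ X S')
  cone : ∀ {σ : Type} [Fintype σ] (S : SForm σ d) (ζ : ℂ), ζ ^ d = -1 →
    Cone C d S.dim (h S) (h (S.ext Bool))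

variable {d : ℕ}

/-- Linear isomorphisms act functorially and preserve the hyperplane class. -/
structure HypData.Functorial (G : HypData C d) : Prop where
  h_mem' : ∀ {σ : Type} [Fintype σ] (S : SForm σ d), C.Codim 1 (G.h S)
  map_refl : ∀ {σ : Type} [Fintype σ] (S : SForm σ d), G.map (LinIso.refl S) = 𝟙 (G.X S)
  map_trans : ∀ {σ σ' σ'' : Type} [Fintype σ] [Fintype σ'] [Fintype σ''] {S : SForm σ d}
    {S' : SForm σ' d} {S'' : SForm σ'' d} (L : LinIso S S') (L' : LinIso S' S''),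
    G.map (L.trans L') = G.map L ≫ G.map L'
  pull_h' : ∀ {σ σ' : Type} [Fintype σ] [Fintype σ'] {S : SForm σ d} {S' : SForm σ' d}
    (L : LinIso S S'), C.pb (G.map L) (G.h S') = G.h S

/-- For `ζ ≠ ζ'` the two cones meet transversally, in the hypersurface `F = 0`. -/
def HypData.Meet (G : HypData C d) : Prop :=
  ∀ {σ : Type} [Fintype σ] (S : SForm σ d) (ζ ζ' : ℂ) (hζ : ζ ^ d = -1) (hζ' : ζ' ^ d = -1),
    ζ ≠ ζ' → (G.cone S ζ hζ).Meets (G.cone S ζ' hζ')

/-- The isomorphism `(x, y, z) ↦ (L x, u y, v z)`, `u ^ d = v ^ d = 1` (`u false` and `u true` in the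
statement), maps the cone of `ζ` to the cone of `ζ' = ζ u / v`, over the isomorphism `L`. -/
def HypData.Nat (G : HypData C d) : Prop :=
  ∀ {σ σ' : Type} [Fintype σ] [Fintype σ'] {S : SForm σ d} {S' : SForm σ' d}
    (L : LinIso S S') (u : Bool → ℂˣ) (hu : ∀ j, u j ^ d = 1) (ζ ζ' : ℂ) (hζ : ζ ^ d = -1)
    (hζ' : ζ' ^ d = -1), ζ' * u true = ζ * u false → ∀ x,
      C.pb (G.map (L.scale u hu)) ((G.cone S' ζ' hζ').over x) =
        (G.cone S ζ hζ).over (C.pb (G.map L) x)

/-- The standard facts on the Chow groups of the smooth hypersurfaces of degree `d` and on the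
cones in the hypersurfaces `F(x) + y ^ d + z ^ d = 0`. -/
structure HypGeometry (C : Chow V) (d : ℕ) extends HypData C d where
  functorial : toHypData.Functorial
  meet' : toHypData.Meet
  nat' : toHypData.Nat

section

variable (G : HypGeometry C d)

lemma HypGeometry.h_mem {σ : Type} [Fintype σ] (S : SForm σ d) : G.h S ∈ C.gr (G.X S) 1 :=
  G.functorial.h_mem' S

lemma HypGeometry.map_refl {σ : Type} [Fintype σ] (S : SForm σ d) :
    G.map (LinIso.refl S) = 𝟙 (G.X S) := G.functorial.map_refl S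

lemma HypGeometry.map_trans {σ σ' σ'' : Type} [Fintype σ] [Fintype σ'] [Fintype σ'']
    {S : SForm σ d} {S' : SForm σ' d} {S'' : SForm σ'' d} (L : LinIso S S')
    (L' : LinIso S' S'') : G.map (L.trans L') = G.map L ≫ G.map L' := G.functorial.map_trans L L'

lemma HypGeometry.pull_h {σ σ' : Type} [Fintype σ] [Fintype σ'] {S : SForm σ d}
    {S' : SForm σ' d} (L : LinIso S S') : C.pull (G.map L) (G.h S') = G.h S :=
  G.functorial.pull_h' L

lemma HypGeometry.meet {σ : Type} [Fintype σ] (S : SForm σ d) (ζ ζ' : ℂ) (hζ : ζ ^ d = -1)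
    (hζ' : ζ' ^ d = -1) (h : ζ ≠ ζ') (x) :
    C.pull ((G.cone S ζ' hζ').i ≫ (G.cone S ζ' hζ').β)
      (C.push ((G.cone S ζ hζ).i ≫ (G.cone S ζ hζ).β) x) =
        C.push (G.cone S ζ' hζ').s₁ (C.pull (G.cone S ζ hζ).s₁ x) := G.meet' S ζ ζ' hζ hζ' h x

lemma HypGeometry.nat {σ σ' : Type} [Fintype σ] [Fintype σ'] {S : SForm σ d} {S' : SForm σ' d}
    (L : LinIso S S') (u : Bool → ℂˣ) (hu : ∀ j, u j ^ d = 1) (ζ ζ' : ℂ) (hζ : ζ ^ d = -1)
    (hζ' : ζ' ^ d = -1) (h : ζ' * u true = ζ * u false) (x) :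
      C.pull (G.map (L.scale u hu)) ((G.cone S' ζ' hζ').cyl x) =
        (G.cone S ζ hζ).cyl (C.pull (G.map L) x) := G.nat' L u hu ζ ζ' hζ hζ' h x

end

/-! ### The cylinder maps -/

namespace Cone

variable {n : ℕ} {hX : C.A X} {hJ : C.A J} (c : Cone C d n hX hJ)

lemma sec₀ : c.s₀ ≫ c.π = 𝟙 X := c.bundle.sec₀
lemma sec₁ : c.s₁ ≫ c.π = 𝟙 X := c.bundle.sec₁
lemma tauto : C.push c.s₁ 1 = C.push c.s₀ 1 + C.pull c.π hX := c.bundle.tauto
lemma disj : C.pull c.s₀ (C.push c.s₁ 1) = 0 := c.bundle.disj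
lemma memπ (t : ℕ) : ∀ y ∈ C.gr c.D (t + 1), C.push c.π y ∈ C.gr X t := c.bundle.memπ t
lemma blow (t : ℕ) : ∀ y ∈ C.gr c.J' (t + 1), ∃ q : ℚ,
    C.pull c.β (C.push c.β y) = y + q • C.push c.e 1 ^ (t + 1) := c.blowUp.blow t
lemma memβ (t : ℕ) : ∀ y ∈ C.gr c.J' t, C.push c.β y ∈ C.gr J t := c.blowUp.memβ t
lemma strict : C.push c.i 1 = C.pull c.β hJ - (d : ℚ) • C.push c.e 1 := c.isStrict.strict
lemma exc : C.pull c.i (C.push c.e 1) = C.push c.s₀ 1 := c.isStrict.exc
lemma self (x : C.A c.D) : C.pull c.i (C.push c.i x) = x * C.pull c.i (C.push c.i 1) :=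
  c.isStrict.self x
lemma memi (t : ℕ) : ∀ y ∈ C.gr c.D t, C.push c.i y ∈ C.gr c.J' (t + 1) := c.isStrict.memi t
lemma hyper : C.pull (c.i ≫ c.β) hJ = C.push c.s₁ 1 := c.isLinear.hyper
lemma base : C.pull (c.s₁ ≫ c.i ≫ c.β) hJ = hX := c.isLinear.base
lemma lin (k : ℕ) (hk : k ≤ n) : C.push (c.i ≫ c.β) (C.pull c.π (hX ^ k)) = hJ ^ (k + 1) :=
  c.isLinear.lin k hk

/-- the transpose -/
def tcyl : C.A J →ₗ[ℚ] C.A X := (C.push c.π).comp (C.pull (c.i ≫ c.β)).toLinearMap

lemma cyl_apply (x : C.A X) : c.cyl x = C.push (c.i ≫ c.β) (C.pull c.π x) := rfl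

lemma tcyl_apply (x : C.A J) : c.tcyl x = C.push c.π (C.pull (c.i ≫ c.β) x) := rfl

lemma cyl_mem {r : ℕ} {x : C.A X} (hx : x ∈ C.gr X r) : c.cyl x ∈ C.gr J (r + 1) := by
  rw [cyl_apply, C.push_comp]
  exact c.memβ _ _ (c.memi _ _ (C.pull_mem _ _ _ hx))

lemma tcyl_mem {r : ℕ} {x : C.A J} (hx : x ∈ C.gr J (r + 1)) : c.tcyl x ∈ C.gr X r := by
  rw [tcyl_apply]
  exact c.memπ _ _ (C.pull_mem _ _ _ hx)

lemma push_sec₀ (x : C.A X) : C.push c.π (C.push c.s₀ x) = x := by
  rw [← C.push_comp, c.sec₀, C.push_id]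

lemma push_sec₁ (x : C.A X) : C.push c.π (C.push c.s₁ x) = x := by
  rw [← C.push_comp, c.sec₁, C.push_id]

lemma push_mul₀ (x : C.A X) : C.push c.π (C.pull c.π x * C.push c.s₀ 1) = x := by
  have h : C.pull c.π x * C.push c.s₀ 1 = C.push c.s₀ x := by
    have h1 := C.proj c.s₀ 1 (C.pull c.π x)
    rw [one_mul, ← C.pull_comp, c.sec₀, C.pull_id] at h1
    rw [h1, mul_comm]
  rw [h, push_sec₀]

lemma push_mul₁ (x : C.A X) : C.push c.π (C.pull c.π x * C.push c.s₁ 1) = x := by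
  have h : C.pull c.π x * C.push c.s₁ 1 = C.push c.s₁ x := by
    have h1 := C.proj c.s₁ 1 (C.pull c.π x)
    rw [one_mul, ← C.pull_comp, c.sec₁, C.pull_id] at h1
    rw [h1, mul_comm]
  rw [h, push_sec₁]

lemma push_pow₀ (t : ℕ) : C.push c.s₀ 1 ^ (t + 1) = C.push c.s₀ ((-hX) ^ t) := by
  induction t with
  | zero => rw [zero_add, pow_one, pow_zero]
  | succ t ih =>
    have h1 : C.pull c.s₀ (C.push c.s₀ 1) = -hX := by
      have h2 := c.disj
      rw [c.tauto, map_add, ← C.pull_comp, c.sec₀, C.pull_id] at h2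
      exact eq_neg_of_add_eq_zero_left h2
    rw [pow_succ, ih, ← C.proj, h1, pow_succ]

lemma pull_s₁_push : C.pull c.s₁ (C.push c.s₁ 1) = hX := by
  rw [← c.hyper, ← C.pull_comp, c.base]

lemma push_pow₁ (t : ℕ) : C.push c.s₁ 1 ^ (t + 1) = C.push c.s₁ (hX ^ t) := by
  induction t with
  | zero => rw [zero_add, pow_one, pow_zero]
  | succ t ih => rw [pow_succ, ih, ← C.proj, pull_s₁_push, pow_succ]

/-- `tcyl` maps the linear sections to linear sections -/
lemma tcyl_pow (t : ℕ) : c.tcyl (hJ ^ (t + 1)) = hX ^ t := by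
  rw [tcyl_apply, map_pow, c.hyper, push_pow₁, push_sec₁]

lemma cyl_pow {t : ℕ} (ht : t ≤ n) : c.cyl (hX ^ t) = hJ ^ (t + 1) := c.lin t ht

/-- **The self-intersection of a cone.** -/
theorem tcyl_cyl {r : ℕ} {x : C.A X} (hx : x ∈ C.gr X r) :
    ∃ q : ℚ, c.tcyl (c.cyl x) = (1 - (d : ℚ)) • x + q • hX ^ r := by
  obtain ⟨q, hq⟩ := c.blow r _ (c.memi r _ (C.pull_mem c.π r x hx))
  refine ⟨q * (-1) ^ r, ?_⟩
  rw [tcyl_apply, cyl_apply, C.push_comp, C.pull_comp, hq, map_add, map_smul, map_pow, c.exc,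
    c.self, c.strict, map_sub, map_smul, c.exc, ← C.pull_comp, c.hyper, map_add, map_smul,
    push_pow₀, push_sec₀, mul_sub, map_sub, push_mul₁, mul_smul_comm, map_smul, push_mul₀]
  rw [sub_smul, one_smul, mul_smul]
  congr 2
  rw [neg_pow, ← smul_one_mul ((-1 : ℚ) ^ r), ← Algebra.algebraMap_eq_smul_one, map_pow, map_neg,
    map_one]

end Cone

end Pool.Agent.V5helper92.HC
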