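import Pool.Agent.V5helper92.HC.Core

/-!
# Families of cycles which are constant
-/

set_option autoImplicit false

open CategoryTheory MonoidalCategory CartesianMonoidalCategory

namespace Pool.Agent.V5helper92.HC

universe u w

variable {V : Type u} [Category.{w} V] [CartesianMonoidalCategory V] {C : Chow V} {dim : V → ℕ}
  {d : ℕ} {X Y J : V} {hX : C.A X} {hY κ : C.A Y} {hJ : C.A J}

omit [CartesianMonoidalCategory V] in
lemma pow_mem_gr (hX1 : hX ∈ C.gr X 1) (k : ℕ) : hX ^ k ∈ C.gr X k := by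
  induction k with
  | zero => rw [pow_zero]; exact C.one_mem X
  | succ k ih => rw [pow_succ]; exact C.mul_mem X k 1 _ _ ih hX1

lemma Join.push_mul_secX (j : Join C dim d hX hY hJ) (x : C.A j.D) :
    C.push j.π (x * C.push j.σX 1) = C.pull j.σX x := by
  have h1 := C.proj j.σX 1 x
  rw [one_mul] at h1
  rw [mul_comm, ← h1, ← C.push_comp, j.bundle.secX, C.push_id]

/-- the restriction of the transposed join of a linear section -/
lemma Join.sec_pow (j : Join C dim d hX hY hJ) (hD : C.HasDim dim) (hY1 : hY ∈ C.gr Y 1)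
    (t : 𝟙_ V ⟶ Y) (k : ℕ) :
    C.pull (sec X t) (C.push j.π (C.pull (j.i ≫ j.β) (hJ ^ (k + 1)))) = hX ^ k := by
  have e8 : C.pull (j.i ≫ j.β) hJ = C.push j.σX 1 + C.pull (j.π ≫ snd X Y) hY := j.bundle.tautX
  have e9 : C.pull j.σX (C.pull (j.i ≫ j.β) hJ) = C.pull (fst X Y) hX := j.bundle.restX
  have h0 : C.pull t hY = 0 := hD.mem_unit 0 _ (C.pull_mem t 1 hY hY1)
  have h1 : C.pull (sec X t) (C.pull (snd X Y) hY) = 0 := by
    rw [← C.pull_comp, sec_snd, C.pull_comp, h0, map_zero]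
  rw [map_pow, pow_succ]
  nth_rewrite 2 [e8]
  rw [mul_add, map_add, j.push_mul_secX, map_pow, e9, map_add, map_pow, pull_sec_fst,
    C.pull_comp j.π, C.proj, map_mul, h1, mul_zero, add_zero]

/-- **Families over `Y` of cycles of codimension `i + 1` on `X` are constant**, if the classes of
codimension `i + 2` on `J` are trivial. -/
theorem rigid_of_triv_join (hD : C.HasDim dim) (hC : C.IsCurve dim Y κ)
    (j : Join C dim d hX hY hJ) (hd : d ≠ 0) (hdegY : C.push (toUnit Y) hY = (d : ℚ) • 1)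
    (hdegX : C.push (toUnit X) (hX ^ dim X) = (d : ℚ) • 1)
    (hX1 : hX ∈ C.gr X 1) (hY1 : hY ∈ C.gr Y 1) {i : ℕ} (hi : i + 1 ≤ dim X)
    (h2 : ∀ a ∈ C.gr J (i + 2), ∃ q : ℚ, a = q • hJ ^ (i + 2)) : C.Rigid Y X (i + 1) := by
  have hdim := hC.dim_eq
  have hd0 : (d : ℚ) ≠ 0 := by exact_mod_cast hd
  have sq : ∀ y : C.A Y, C.push (fst X Y) (C.pull (snd X Y) y) =
      C.pull (toUnit X) (C.push (toUnit Y) y) := hC.baseChange.square X
  have sq' : ∀ x : C.A X, C.push (snd X Y) (C.pull (fst X Y) x) =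
      C.pull (toUnit Y) (C.push (toUnit X) x) := hC.baseChange.square' X
  have dimP : dim (X ⊗ Y) = dim X + 1 := by rw [hD.prod, hdim]
  have hphY : C.push (fst X Y) (C.pull (snd X Y) hY) = (d : ℚ) • 1 := by
    rw [sq, hdegY, map_smul, map_one]
  have hqhX : C.push (snd X Y) (C.pull (fst X Y) (hX ^ dim X)) = (d : ℚ) • 1 := by
    rw [sq', hdegX, map_smul, map_one]
  have hYY : C.pull (snd X Y) hY * C.pull (snd X Y) hY = 0 := by
    rw [← map_mul, hD.top 2 (hY * hY) (C.mul_mem Y 1 1 _ _ hY1 hY1) (by omega), map_zero]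
  intro z hz
  have hz' : z ∈ C.gr (X ⊗ Y) (i + 1) := hz
  -- the corrections
  obtain ⟨b, hb⟩ : ∃ b : C.A X, b = C.push (fst X Y) (z * C.pull (snd X Y) hY) := ⟨_, rfl⟩
  obtain ⟨b', hb'⟩ : ∃ b' : C.A X, b' = C.push (fst X Y) z := ⟨_, rfl⟩
  have hbm : b ∈ C.gr X (i + 1) := by
    rw [hb]
    exact hD.push_mem (fst X Y) (i + 2) (i + 1) _
      (C.mul_mem _ (i + 1) 1 _ _ hz' (C.pull_mem _ _ _ hY1)) (by omega)
  have hbm' : b' ∈ C.gr X i := by
    rw [hb']
    exact hD.push_mem (fst X Y) (i + 1) i z hz' (by omega)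
  obtain ⟨y, hy⟩ : ∃ y : C.A (X ⊗ Y), y = z - (d : ℚ)⁻¹ • C.pull (fst X Y) b -
      (d : ℚ)⁻¹ • (C.pull (fst X Y) b' * C.pull (snd X Y) hY) := ⟨_, rfl⟩
  have hym : y ∈ C.gr (X ⊗ Y) (i + 1) := by
    rw [hy]
    exact Submodule.sub_mem _ (Submodule.sub_mem _ hz'
      (Submodule.smul_mem _ _ (C.pull_mem _ _ _ hbm)))
      (Submodule.smul_mem _ _ (C.mul_mem _ i 1 _ _ (C.pull_mem _ _ _ hbm')
        (C.pull_mem _ _ _ hY1)))
  have hy0 : C.push (fst X Y) y = 0 := by
    rw [hy, map_sub, map_sub, map_smul, map_smul, hD.push_fst (by omega), smul_zero, sub_zero,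
      mul_comm, C.proj, hphY, ← hb', smul_mul_assoc, one_mul, smul_smul, inv_mul_cancel₀ hd0,
      one_smul, sub_self]
  have hy1 : C.push (fst X Y) (y * C.pull (snd X Y) hY) = 0 := by
    rw [hy, sub_mul, sub_mul, smul_mul_assoc, smul_mul_assoc, mul_assoc, hYY, mul_zero,
      smul_zero, sub_zero, map_sub, ← hb, map_smul, mul_comm, C.proj, hphY, smul_mul_assoc,
      one_mul, smul_smul, inv_mul_cancel₀ hd0, one_smul, sub_self]
  obtain ⟨β, hβ⟩ : ∃ β : C.A Y,
      β = C.push (snd X Y) (y * C.pull (fst X Y) (hX ^ (dim X - i))) := ⟨_, rfl⟩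
  have hβm : β ∈ C.gr Y 1 := by
    rw [hβ]
    exact hD.push_mem (snd X Y) (i + 1 + (dim X - i)) 1 _
      (C.mul_mem _ (i + 1) (dim X - i) _ _ hym (C.pull_mem _ _ _ (pow_mem_gr hX1 _))) (by omega)
  have hpβ : C.push (fst X Y) (C.pull (snd X Y) β) = 0 := by
    have h : C.push (toUnit Y) β = 0 := by
      rw [hβ, ← C.push_comp, show snd X Y ≫ toUnit Y = fst X Y ≫ toUnit X from toUnit_unique _ _,
        C.push_comp, C.proj, hy0, zero_mul, map_zero]
    rw [sq, h, map_zero]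
  have hδ0 : C.push (snd X Y) (y * C.pull (fst X Y) (hX ^ (dim X - (i + 1)))) = 0 := by
    obtain ⟨δ, hδ⟩ := hD.zero (C.push (snd X Y) (y * C.pull (fst X Y) (hX ^ (dim X - (i + 1)))))
      (hD.push_mem (snd X Y) (i + 1 + (dim X - (i + 1))) 0 _
        (C.mul_mem _ (i + 1) (dim X - (i + 1)) _ _ hym (C.pull_mem _ _ _ (pow_mem_gr hX1 _)))
        (by omega))
    have h1 : (δ * d) • (1 : C.A (𝟙_ V)) = 0 := by
      have h : C.push (toUnit X) (C.push (fst X Y) (y * C.pull (snd X Y) hY) *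
          hX ^ (dim X - (i + 1))) = (δ * d) • 1 := by
        rw [← C.proj, ← C.push_comp,
          show fst X Y ≫ toUnit X = snd X Y ≫ toUnit Y from toUnit_unique _ _, C.push_comp,
          mul_right_comm, C.proj, hδ, smul_mul_assoc, one_mul, map_smul, hdegY, smul_smul]
      rw [← h, hy1, zero_mul, map_zero]
    have h3 : (δ * d) • (1 : C.A Y) = 0 := by
      have h := congrArg (C.pull (toUnit Y)) h1
      rwa [map_smul, map_one, map_zero] at h
    rw [hδ]
    exact (smul_eq_zero.mp (show (d : ℚ) • (δ • (1 : C.A Y)) = 0 by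
      rw [smul_smul, mul_comm]; exact h3)).resolve_left hd0
  -- the corrected class
  obtain ⟨w, hw⟩ : ∃ w : C.A (X ⊗ Y), w = y -
      (d : ℚ)⁻¹ • (C.pull (fst X Y) (hX ^ i) * C.pull (snd X Y) β) := ⟨_, rfl⟩
  have hwm : w ∈ C.gr (X ⊗ Y) (i + 1) := by
    rw [hw]
    exact Submodule.sub_mem _ hym
      (Submodule.smul_mem _ _ (C.mul_mem _ i 1 _ _ (C.pull_mem _ _ _ (pow_mem_gr hX1 _))
        (C.pull_mem _ _ _ hβm)))
  have hc1 : ∀ k : ℕ, C.push (fst X Y) (w * C.pull (snd X Y) hY ^ k) = 0 := by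
    intro k
    match k with
    | 0 =>
      rw [pow_zero, mul_one, hw, map_sub, map_smul, hy0, zero_sub, mul_comm, C.proj, hpβ,
        zero_mul, smul_zero, neg_zero]
    | 1 =>
      have e1 : C.pull (snd X Y) β * C.pull (snd X Y) hY = 0 := by
        rw [← map_mul, hD.top 2 (β * hY) (C.mul_mem Y 1 1 _ _ hβm hY1) (by omega), map_zero]
      rw [pow_one, hw, sub_mul, smul_mul_assoc, mul_assoc, e1, mul_zero, smul_zero, sub_zero, hy1]
    | k + 2 =>
      have e1 : hY ^ (k + 2) = 0 := hD.top (k + 2) _ (pow_mem_gr hY1 _) (by omega)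
      rw [← map_pow, e1, map_zero, mul_zero, map_zero]
  have hc2 : ∀ k : ℕ, C.push (snd X Y) (w * C.pull (fst X Y) hX ^ k) = 0 := by
    intro k
    have hm : w * C.pull (fst X Y) hX ^ k ∈ C.gr (X ⊗ Y) (i + 1 + k) :=
      C.mul_mem _ (i + 1) k _ _ hwm (by rw [← map_pow]; exact C.pull_mem _ _ _ (pow_mem_gr hX1 k))
    rcases lt_trichotomy (i + 1 + k) (dim X) with h | h | h
    · exact hD.push_zero (snd X Y) _ _ hm (by omega)
    · have hk : k = dim X - (i + 1) := by omega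
      have e1 : C.push (snd X Y) (C.pull (fst X Y) (hX ^ i) * C.pull (snd X Y) β *
          C.pull (fst X Y) (hX ^ k)) = 0 := by
        rw [mul_right_comm, ← map_mul, C.proj, ← pow_add,
          show C.push (snd X Y) (C.pull (fst X Y) (hX ^ (i + k))) = 0 from
            hD.push_zero (snd X Y) (i + k) _ (C.pull_mem _ _ _ (pow_mem_gr hX1 _)) (by omega),
          zero_mul]
      rw [← map_pow, hw, sub_mul, smul_mul_assoc, map_sub, map_smul, e1, smul_zero, sub_zero, hk,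
        hδ0]
    · rcases lt_or_eq_of_le (Nat.succ_le_of_lt h) with h' | h'
      · rw [hD.top _ _ hm (by omega), map_zero]
      · have hk : k = dim X - i := by omega
        have e2 : C.push (snd X Y) (C.pull (fst X Y) (hX ^ i) * C.pull (snd X Y) β *
            C.pull (fst X Y) (hX ^ k)) = (d : ℚ) • β := by
          rw [mul_right_comm, ← map_mul, C.proj, ← pow_add, show i + k = dim X by omega, hqhX,
            smul_mul_assoc, one_mul]
        rw [← map_pow, hw, sub_mul, smul_mul_assoc, map_sub, map_smul, e2, hk, ← hβ, smul_smul,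
          inv_mul_cancel₀ hd0, one_smul, sub_self]
  -- the join of the corrected class
  have hj := j.transpose hD w hc1 hc2
  obtain ⟨s, hs⟩ := h2 (C.push (j.i ≫ j.β) (C.pull j.π w))
    (hD.push_mem (j.i ≫ j.β) (i + 1) (i + 2) _ (C.pull_mem _ _ _ hwm)
      (by rw [j.dimD, j.dimJ]; omega))
  rw [hs, map_smul, map_smul] at hj
  have hwt : ∀ t : 𝟙_ V ⟶ Y, C.pull (sec X t) w = -((d : ℚ)⁻¹ • (s • hX ^ (i + 1))) := by
    intro t
    have h := congrArg (C.pull (sec X t)) hj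
    rw [map_smul, j.sec_pow hD hY1 t (i + 1), map_neg, map_smul] at h
    rw [h, smul_neg, smul_smul, inv_mul_cancel₀ hd0, one_smul, neg_neg]
  have hzt : ∀ t : 𝟙_ V ⟶ Y, C.pull (sec X t) z =
      -((d : ℚ)⁻¹ • (s • hX ^ (i + 1))) + (d : ℚ)⁻¹ • b := by
    intro t
    have e1 : ∀ x ∈ C.gr Y 1, C.pull (sec X t) (C.pull (snd X Y) x) = 0 := by
      intro x hx
      rw [← C.pull_comp, sec_snd, C.pull_comp, hD.mem_unit 0 _ (C.pull_mem t 1 x hx), map_zero]
    have h := hwt t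
    rw [hw, map_sub, map_smul, map_mul, e1 β hβm, mul_zero, smul_zero, sub_zero, hy, map_sub,
      map_sub, map_smul, map_smul, map_mul, e1 hY hY1, mul_zero, smul_zero, sub_zero,
      pull_sec_fst] at h
    rw [← h, sub_add_cancel]
  intro t u
  exact (hzt t).trans (hzt u).symm

end Pool.Agent.V5helper92.HC
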