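import Pool.Agent.V5helper92.HC.Join

/-!
# Rigid families and the join with a curve
-/

set_option autoImplicit false

open CategoryTheory MonoidalCategory CartesianMonoidalCategory

namespace Pool.Agent.V5helper92.HC

universe u w

variable {V : Type u} [Category.{w} V] [CartesianMonoidalCategory V] {C : Chow V} {dim : V → ℕ}

omit [CartesianMonoidalCategory V] in
/-- if the transversal restrictions vanish, the class vanishes on the exceptional divisor -/
lemma exc_zero {X Y P D J' EX : V} {hY : C.A Y} {p : P ⟶ X} {q : P ⟶ Y} {i : D ⟶ J'}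
    {σX : P ⟶ D} {eX : EX ⟶ J'} {gX : EX ⟶ X} {kX : P ⟶ EX} {ξ : C.A EX}
    (h : C.JoinExc hY p q i σX eX gX kX ξ) {π : D ⟶ P} (hπ : σX ≫ π = 𝟙 P) (α : C.A P)
    (hα : ∀ k : ℕ, C.push p (α * C.pull q hY ^ k) = 0) :
    C.pull eX (C.push i (C.pull π α)) = 0 := by
  have h1 : C.pull eX (C.push i (C.pull π α)) = C.push kX (C.pull σX (C.pull π α)) := h.base _
  rw [← C.pull_comp, hπ, C.pull_id] at h1
  rw [h1]
  apply h.nondeg
  intro k
  change C.push gX (C.push kX α * ξ ^ k) = 0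
  have h2 : C.pull kX ξ = C.pull q hY := h.hyp
  rw [← C.proj, ← C.push_comp, h.proj, map_pow, h2]
  exact hα k

section join

variable {d : ℕ} {X Y J : V} {hX : C.A X} {hY : C.A Y} {hJ : C.A J} (j : Join C dim d hX hY hJ)

lemma Join.push_pull (hD : C.HasDim dim) (x : C.A (X ⊗ Y)) :
    C.push j.π (C.pull j.π x) = 0 := by
  have h1 : C.push j.π 1 = 0 :=
    hD.push_zero j.π 0 1 (C.one_mem _) (by rw [hD.prod, j.dimD]; omega)
  have h2 := C.proj j.π 1 x
  rw [one_mul, h1, zero_mul] at h2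
  exact h2

lemma Join.push_secY (x : C.A (X ⊗ Y)) : C.push j.π (C.pull j.π x * C.push j.σY 1) = x := by
  have h : C.pull j.π x * C.push j.σY 1 = C.push j.σY x := by
    have h1 := C.proj j.σY 1 (C.pull j.π x)
    rw [one_mul, ← C.pull_comp, j.bundle.secY, C.pull_id] at h1
    rw [h1, mul_comm]
  rw [h, ← C.push_comp, j.bundle.secY, C.push_id]

/-- **The self-intersection of the join.** -/
theorem Join.transpose (hD : C.HasDim dim) (α : C.A (X ⊗ Y))
    (h1 : ∀ k : ℕ, C.push (fst X Y) (α * C.pull (snd X Y) hY ^ k) = 0)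
    (h2 : ∀ k : ℕ, C.push (snd X Y) (α * C.pull (fst X Y) hX ^ k) = 0) :
    C.push j.π (C.pull (j.i ≫ j.β) (C.push (j.i ≫ j.β) (C.pull j.π α))) = -((d : ℚ) • α) := by
  have e1 := exc_zero j.excX j.bundle.secX α h1
  have e2 := exc_zero j.excY j.bundle.secY α h2
  have e3 : C.pull j.β (C.push j.β (C.push j.i (C.pull j.π α))) = C.push j.i (C.pull j.π α) :=
    j.blowUp.blow _ e1 e2
  have e4 : C.pull j.i (C.push j.i (C.pull j.π α)) = C.pull j.π α * C.pull j.i (C.push j.i 1) :=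
    j.blowUp.self _
  have e5 : C.push j.i 1 =
      (d : ℚ) • (C.pull j.β hJ - C.push j.eX 1 - C.push j.eY 1) := j.blowUp.strict
  have e6 : C.pull j.i (C.push j.eX 1) = C.push j.σX 1 := j.excX.cls
  have e7 : C.pull j.i (C.push j.eY 1) = C.push j.σY 1 := j.excY.cls
  have e8 : C.pull (j.i ≫ j.β) hJ = C.push j.σX 1 + C.pull (j.π ≫ snd X Y) hY := j.bundle.tautX
  rw [C.push_comp, C.pull_comp, e3, e4, e5, map_smul, map_sub, map_sub, e6, e7, ← C.pull_comp, e8,
    add_sub_cancel_left, C.pull_comp, mul_smul_comm, map_smul, mul_sub, map_sub, j.push_secY,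
    ← map_mul, j.push_pull hD, zero_sub, smul_neg]

end join

section core

variable {d : ℕ} {X Y J : V} {hX : C.A X} {hY κ : C.A Y} {hJ : C.A J}

lemma push_sec_fst (t : 𝟙_ V ⟶ Y) (x : C.A X) :
    C.push (fst X Y) (C.push (sec X t) x) = x := by
  rw [← C.push_comp, sec_fst, C.push_id]

lemma pull_sec_fst (t : 𝟙_ V ⟶ Y) (x : C.A X) :
    C.pull (sec X t) (C.pull (fst X Y) x) = x := by
  rw [← C.pull_comp, sec_fst, C.pull_id]

lemma push_sec_mul_fst (t : 𝟙_ V ⟶ Y) (x z : C.A X) :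
    C.push (sec X t) x * C.pull (fst X Y) z = C.push (sec X t) (x * z) := by
  rw [← C.proj, pull_sec_fst]

lemma cond_fst (hD : C.HasDim dim) (hY1 : hY ∈ C.gr Y 1) (t u : 𝟙_ V ⟶ Y) (a : C.A X) (k : ℕ) :
    C.push (fst X Y) ((C.push (sec X t) a - C.push (sec X u) a) * C.pull (snd X Y) hY ^ k) = 0 := by
  have key : ∀ v : 𝟙_ V ⟶ Y, C.push (fst X Y) (C.push (sec X v) a * C.pull (snd X Y) hY ^ k) =
      a * 0 ^ k := by
    intro v
    have h0 : C.pull v hY = 0 := hD.mem_unit 0 _ (C.pull_mem v 1 hY hY1)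
    rw [← C.proj, push_sec_fst, map_pow, ← C.pull_comp, sec_snd, C.pull_comp, h0, map_zero]
  rw [sub_mul, map_sub, key, key, sub_self]

lemma cond_snd (hD : C.HasDim dim) (hX1 : hX ∈ C.gr X 1) (t u : 𝟙_ V ⟶ Y) {i : ℕ} {a : C.A X}
    (ha : a ∈ C.gr X i) (hi : i ≤ dim X)
    (h0 : C.push (toUnit X) (a * hX ^ (dim X - i)) = 0) (k : ℕ) :
    C.push (snd X Y) ((C.push (sec X t) a - C.push (sec X u) a) * C.pull (fst X Y) hX ^ k) = 0 := by
  have hk : C.push (toUnit X) (a * hX ^ k) = 0 := by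
    by_cases h : k = dim X - i
    · rw [h]
      exact h0
    · have h1 : hX ^ k ∈ C.gr X k := by
        clear h
        induction k with
        | zero => rw [pow_zero]; exact C.one_mem X
        | succ k ih => rw [pow_succ]; exact C.mul_mem X k 1 _ _ ih hX1
      exact hD.deg_zero (C.mul_mem X i k _ _ ha h1) (by omega)
  have key : ∀ v : 𝟙_ V ⟶ Y, C.push (snd X Y) (C.push (sec X v) a * C.pull (fst X Y) hX ^ k) =
      0 := by
    intro v
    rw [← map_pow, push_sec_mul_fst, ← C.push_comp, sec_snd, C.push_comp, hk, map_zero]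
  rw [sub_mul, map_sub, key, key, sub_self]

/-- **The main argument.** If the families of cycles of codimension `i + 2` on `J` over `Y` are constant,
every primitive class of codimension `i` on `X` is a sum of differences of members of families over
`Y`. -/
theorem mem_algZero (hD : C.HasDim dim) (hC : C.IsCurve dim Y κ) (j : Join C dim d hX hY hJ)
    (hd : 3 ≤ d) (hκ : κ = (3 - (d : ℚ)) • hY) (hdeg : C.push (toUnit Y) hY = (d : ℚ) • 1)
    (hX1 : hX ∈ C.gr X 1) (hY1 : hY ∈ C.gr Y 1) {i : ℕ} (hR : C.Rigid Y J (i + 2)) {a : C.A X}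
    (ha : a ∈ C.gr X i) (hi : i ≤ dim X) (h0 : C.push (toUnit X) (a * hX ^ (dim X - i)) = 0) :
    a ∈ C.AlgZero Y X i := by
  obtain ⟨t₀⟩ := hC.point
  have hdim := hC.dim_eq
  have hd0 : (d : ℚ) ≠ 0 := by
    have : d ≠ 0 := by omega
    exact_mod_cast this
  -- the classes `α t`
  obtain ⟨α, hα⟩ : ∃ α : (𝟙_ V ⟶ Y) → C.A (X ⊗ Y),
      ∀ t, α t = C.push (sec X t) a - C.push (sec X t₀) a := ⟨_, fun _ => rfl⟩
  -- the family `γ` of these classes
  obtain ⟨γ, hγ⟩ : ∃ γ : C.A ((X ⊗ Y) ⊗ Y), γ = C.push (dia X Y) (C.pull (fst X Y) a) -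
      C.pull (fst (X ⊗ Y) Y) (C.push (sec X t₀) a) := ⟨_, rfl⟩
  have hγt : ∀ t, C.pull (sec (X ⊗ Y) t) γ = α t := by
    intro t
    have h1 : C.pull (sec (X ⊗ Y) t) (C.push (dia X Y) (C.pull (fst X Y) a)) =
        C.push (sec X t) (C.pull (sec X t) (C.pull (fst X Y) a)) := hC.diagonal.dia_sec X t _
    rw [hγ, map_sub, h1, pull_sec_fst, pull_sec_fst, hα]
  have hγm : γ ∈ C.gr ((X ⊗ Y) ⊗ Y) (i + 1) := by
    rw [hγ]
    apply Submodule.sub_mem
    · exact hD.push_mem (dia X Y) i (i + 1) _ (C.pull_mem _ _ _ ha)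
        (by rw [hD.prod, hD.prod]; omega)
    · exact C.pull_mem _ _ _ (hD.push_mem (sec X t₀) i (i + 1) _ ha (by rw [hD.prod]; omega))
  -- the family of the joins
  obtain ⟨c, hc⟩ : ∃ c : C.A (J ⊗ Y),
      c = C.push ((j.i ≫ j.β) ▷ Y) (C.pull (j.π ▷ Y) γ) := ⟨_, rfl⟩
  have hct : ∀ t, C.pull (sec J t) c = C.push (j.i ≫ j.β) (C.pull j.π (α t)) := by
    intro t
    have h1 : C.pull (sec J t) (C.push ((j.i ≫ j.β) ▷ Y) (C.pull (j.π ▷ Y) γ)) =
        C.push (j.i ≫ j.β) (C.pull (sec j.D t) (C.pull (j.π ▷ Y) γ)) :=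
      hC.baseChange.base (j.i ≫ j.β) t _
    rw [hc, h1, ← C.pull_comp, sec_nat, C.pull_comp, hγt]
  have hcm : c ∈ C.gr (J ⊗ Y) (i + 2) := by
    rw [hc]
    exact hD.push_mem ((j.i ≫ j.β) ▷ Y) (i + 1) (i + 2) _ (C.pull_mem _ _ _ hγm)
      (by rw [hD.prod, hD.prod, j.dimD, j.dimJ]; omega)
  have hα0 : ∀ t, α t = 0 := by
    intro t
    have h1 : C.push (j.i ≫ j.β) (C.pull j.π (α t)) = 0 := by
      rw [← hct t, show C.pull (sec J t) c = C.pull (sec J t₀) c from hR c hcm t t₀, hct t₀,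
        hα t₀, sub_self, map_zero, map_zero]
    have h2 := j.transpose hD (α t)
      (by intro k; rw [hα]; exact cond_fst hD hY1 t t₀ a k)
      (by intro k; rw [hα]; exact cond_snd hD hX1 t t₀ ha hi h0 k)
    rw [h1, map_zero, map_zero] at h2
    exact (smul_eq_zero.mp (neg_eq_zero.mp h2.symm)).resolve_left hd0
  -- the decomposition of the family `γ`
  obtain ⟨m, t, e, he, hsum⟩ := hC.spreads (X ⊗ Y) i γ hγm (fun t => (hγt t).trans (hα0 t))
  change γ = ∑ k, C.push (sec (X ⊗ Y) (t k)) (e k) at hsum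
  -- first consequence
  have h1 : C.pull (fst X Y) a = ∑ k, e k := by
    have h := congrArg (C.push (fst (X ⊗ Y) Y)) hsum
    rw [hγ, map_sub, hD.push_fst (by omega), sub_zero, ← C.push_comp, dia_fst, C.push_id,
      map_sum] at h
    rw [h]
    exact Finset.sum_congr rfl fun k _ => push_sec_fst (t k) (e k)
  have h2 : a = ∑ k, C.pull (sec X t₀) (e k) := by
    have h := congrArg (C.pull (sec X t₀)) h1
    rwa [pull_sec_fst, map_sum] at h
  -- second consequence
  have h3 : C.pull (fst X Y) a * C.pull (snd X Y) κ - C.push (sec X t₀) a =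
      ∑ k, C.push (sec X (t k)) (C.pull (sec X (t k)) (e k)) := by
    have h := congrArg (C.pull (dia X Y)) hsum
    have h4 : C.pull (dia X Y) (C.push (dia X Y) (C.pull (fst X Y) a)) =
        C.pull (fst X Y) a * C.pull (snd X Y) κ := hC.diagonal.dia_dia X _
    rw [hγ, map_sub, h4, ← C.pull_comp, dia_fst, C.pull_id, map_sum] at h
    rw [h]
    exact Finset.sum_congr rfl fun k _ => hC.diagonal.sec_dia X (t k) (e k)
  have h5 : C.push (fst X Y) (C.pull (snd X Y) κ) = ((3 - (d : ℚ)) * d) • 1 := by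
    have h : C.push (fst X Y) (C.pull (snd X Y) κ) =
        C.pull (toUnit X) (C.push (toUnit Y) κ) := hC.baseChange.square X κ
    rw [h, hκ, map_smul, hdeg, map_smul, map_smul, map_one, smul_smul]
  have h6 : ((3 - (d : ℚ)) * d) • a - a = ∑ k, C.pull (sec X (t k)) (e k) := by
    have h := congrArg (C.push (fst X Y)) h3
    rw [map_sub, push_sec_fst, mul_comm, C.proj, h5, smul_mul_assoc, one_mul, map_sum] at h
    rw [h]
    exact Finset.sum_congr rfl fun k _ => push_sec_fst (t k) _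
  have h7 : ((3 - (d : ℚ)) * d - 2) • a =
      ∑ k, (C.pull (sec X (t k)) (e k) - C.pull (sec X t₀) (e k)) := by
    rw [Finset.sum_sub_distrib, ← h6, ← h2, sub_smul, two_smul]
    abel
  have h8 : (3 - (d : ℚ)) * d - 2 ≠ 0 := by
    have h9 : (3 : ℚ) ≤ d := by exact_mod_cast hd
    nlinarith
  have h9 : ((3 - (d : ℚ)) * d - 2) • a ∈ C.AlgZero Y X i := by
    rw [h7]
    apply Submodule.sum_mem
    intro k _
    exact Submodule.subset_span ⟨e k, he k, t k, t₀, rfl⟩
  exact (Submodule.smul_mem_iff _ h8).mp h9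

lemma Rigid.algZero {i : ℕ} (h : C.Rigid Y X i) : C.AlgZero Y X i = ⊥ := by
  rw [Chow.AlgZero, Submodule.span_eq_bot]
  rintro b ⟨c, hc, t, u, rfl⟩
  rw [h c hc t u, sub_self]

end core

end Pool.Agent.V5helper92.HC
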