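import Mathlib

/-!
# Pairs of words which are permutations of each other
-/

set_option autoImplicit false

namespace Pool.Agent.V5helper92.HC

/-- pairs of words of length `m` which are permutations of each other -/
abbrev Pairs (m : ℕ) (K : Type) : Type :=
  {p : (Fin m → K) × (Fin m → K) // ∃ q : Equiv.Perm (Fin m), p.2 = p.1 ∘ q}

variable {m : ℕ} {K : Type} [Fintype K] [DecidableEq K]

/-- the number of letters of each kind -/
def letters (a : Fin m → K) (c : K) : Fin (m + 1) :=
  ⟨(Finset.univ.filter fun j => a j = c).card, by
    have := Finset.card_filter_le (Finset.univ : Finset (Fin m)) fun j => a j = c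
    rw [Finset.card_univ, Fintype.card_fin] at this
    omega⟩

omit [Fintype K] in
lemma exists_perm {a b : Fin m → K} (h : letters a = letters b) :
    ∃ q : Equiv.Perm (Fin m), b = a ∘ q := by
  have h1 : ∀ c, Nonempty ({j // b j = c} ≃ {j // a j = c}) := by
    intro c
    have h2 := congrArg Fin.val (congrFun h c)
    apply Fintype.card_eq.mp
    rw [Fintype.card_subtype, Fintype.card_subtype]
    exact h2.symm
  have e' := fun c => (h1 c).some
  refine ⟨Equiv.ofFiberEquiv e', ?_⟩
  funext j
  exact (Equiv.ofFiberEquiv_map e' j).symm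

/-- **Counting.** -/
theorem count (m : ℕ) (K : Type) [Fintype K] [DecidableEq K] [Fintype (Pairs m K)] :
    Fintype.card K ^ (2 * m) ≤ (m + 1) ^ Fintype.card K * Fintype.card (Pairs m K) := by
  classical
  have h1 : Fintype.card K ^ m = ∑ v : K → Fin (m + 1),
      (Finset.univ.filter fun a : Fin m → K => letters a = v).card := by
    rw [← Finset.card_eq_sum_card_fiberwise (fun a _ => Finset.mem_univ (letters a)),
      Finset.card_univ, Fintype.card_fun, Fintype.card_fin]
  have h2 := sq_sum_le_card_mul_sum_sq (s := (Finset.univ : Finset (K → Fin (m + 1))))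
    (f := fun v => (Finset.univ.filter fun a : Fin m → K => letters a = v).card)
  rw [← h1, ← pow_mul, mul_comm m 2, Finset.card_univ, Fintype.card_fun, Fintype.card_fin] at h2
  refine h2.trans (Nat.mul_le_mul_left _ ?_)
  have h3 : ∑ v : K → Fin (m + 1), (Finset.univ.filter fun a : Fin m → K => letters a = v).card ^ 2 =
      (Finset.univ.filter fun p : (Fin m → K) × (Fin m → K) => letters p.1 = letters p.2).card := by
    rw [Finset.card_eq_sum_card_fiberwise (f := fun p : (Fin m → K) × (Fin m → K) => letters p.1)
      (t := Finset.univ) (fun a _ => Finset.mem_univ _)]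
    apply Finset.sum_congr rfl
    intro v _
    rw [sq, ← Finset.card_product]
    congr 1
    ext ⟨a, b⟩
    simp only [Finset.mem_product, Finset.mem_filter, Finset.mem_univ, true_and]
    constructor
    · rintro ⟨h, h'⟩
      exact ⟨h.trans h'.symm, h⟩
    · rintro ⟨h, h'⟩
      exact ⟨h', h ▸ h'⟩
  rw [h3, Fintype.card_subtype]
  apply Finset.card_le_card
  intro p hp
  rw [Finset.mem_filter] at hp ⊢
  exact ⟨Finset.mem_univ _, exists_perm hp.2⟩

end Pool.Agent.V5helper92.HC
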