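import Pool.Agent.V5helper92.HC.Ops
import Pool.Agent.V5helper92.HC.Count

/-!
# Isotypic parts of the defect spaces
-/

set_option autoImplicit false

open CategoryTheory TensorProduct

namespace Pool.Agent.V5helper92.HC

universe u w

variable {V : Type u} [Category.{w} V] {C : Chow V} {d : ℕ} (G : HypGeometry C d)

variable {σ : Type} [Fintype σ] [NeZero d]

/-- the action of the rotation of the `j`-th new variable -/
noncomputable def rt (S : SForm σ d) (τ : Type) [Fintype τ] (r : ℕ) (j : τ) :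
    G.W (S.ext τ) r →ₗ[ℂ] G.W (S.ext τ) r := plC G (rot S τ j (uz 1) (uz_pow 1)) r

/-- the isotypic part -/
noncomputable def iso (S : SForm σ d) (τ : Type) [Fintype τ] (r : ℕ) (χ : τ → ZMod d) :
    Submodule ℂ (G.W (S.ext τ) r) := joint (rt G S τ r) fun j => ψ (χ j)

lemma mem_iso {S : SForm σ d} {τ : Type} [Fintype τ] {r : ℕ} {χ : τ → ZMod d}
    {v : G.W (S.ext τ) r} : v ∈ iso G S τ r χ ↔ ∀ j, rt G S τ r j v = ψ (χ j) • v := Iff.rfl

lemma rank_le_of_maps {W W' : Type} [AddCommGroup W] [Module ℂ W] [AddCommGroup W'] [Module ℂ W']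
    (f : W →ₗ[ℂ] W') (hf : Function.Injective f) {P : Submodule ℂ W} {P' : Submodule ℂ W'}
    (h : ∀ x ∈ P, f x ∈ P') : Module.rank ℂ P ≤ Module.rank ℂ P' :=
  LinearMap.rank_le_of_injective (f.restrict h) fun _ _ hxy =>
    Subtype.ext (hf (congrArg Subtype.val hxy))

/-- renumbering -/
lemma iso_reindex (S : SForm σ d) {τ τ' : Type} [Fintype τ] [Fintype τ'] (e : τ ≃ τ') (r : ℕ)
    (χ : τ' → ZMod d) :
    Module.rank ℂ (iso G S τ' r χ) ≤ Module.rank ℂ (iso G S τ r (χ ∘ e)) := by
  classical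
  refine rank_le_of_maps (plC G (reindex S e) r) (plC_inj G _ r) ?_
  intro w hw j
  have h1 : (rot S τ j (uz (1 : ZMod d)) (uz_pow 1)).trans (reindex S e) =
      (reindex S e).trans (rot S τ' (e j) (uz (1 : ZMod d)) (uz_pow 1)) := by
    ext x k
    rcases k with k | k
    · rfl
    · change (rot S τ j (uz (1 : ZMod d)) (uz_pow 1)).L x (Sum.inr (e.symm k)) =
        (rot S τ' (e j) (uz (1 : ZMod d)) (uz_pow 1)).L ((reindex S e).L x) (Sum.inr k)
      rw [rot_inr, rot_inr, reindex_inr]
      congr 3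
      exact propext e.symm_apply_eq
  rw [rt, ← plC_trans, h1, plC_trans]
  have h2 := hw (e j)
  rw [rt] at h2
  rw [h2, map_smul]
  rfl

/-- the character of the isotypic part of a cone -/
def addPair {τ : Type} (χ : τ → ZMod d) (a : ZMod d) : τ ⊕ Bool → ZMod d :=
  Sum.elim χ fun b => cond b (-a) a

/-- adding two variables -/
lemma iso_step (S : SForm σ d) (τ : Type) [Fintype τ] {r : ℕ} (hr : r ≤ (S.ext τ).dim)
    (χ : τ → ZMod d) {a : ZMod d} (ha : a ≠ 0) :
    Module.rank ℂ (iso G S τ r χ) ≤ Module.rank ℂ (iso G S (τ ⊕ Bool) (r + 1) (addPair χ a)) := by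
  classical
  refine rank_le_of_maps ((plC G (assoc S τ Bool).symm (r + 1)).comp (four (cyC G (S.ext τ) hr) a))
    ((plC_inj G _ _).comp (four_cy_inj G (S.ext τ) hr ha)) ?_
  intro v hv j
  rw [LinearMap.comp_apply]
  rcases j with j | b
  · have h1 : (rot S (τ ⊕ Bool) (Sum.inl j) (uz (1 : ZMod d)) (uz_pow 1)).trans
        (assoc S τ Bool).symm = (assoc S τ Bool).symm.trans
          ((rot S τ j (uz (1 : ZMod d)) (uz_pow 1)).scale
            (fun b => cond b (uz (0 : ZMod d)) (uz 0)) (by intro j; cases j <;> exact uz_pow _)) := by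
      ext x k
      rcases k with (k | k) | k
      · rfl
      · change (rot S (τ ⊕ Bool) (Sum.inl j) (uz (1 : ZMod d)) (uz_pow 1)).L x
            (Sum.inr (Sum.inl k)) = (rot S τ j (uz (1 : ZMod d)) (uz_pow 1)).L
              (fun i => (assoc S τ Bool).symm.L x (Sum.inl i)) (Sum.inr k)
        rw [rot_inr, rot_inr]
        change _ = _ * x (Sum.inr (Sum.inl k))
        congr 3
        exact propext Sum.inl_injective.eq_iff
      · change (rot S (τ ⊕ Bool) (Sum.inl j) (uz (1 : ZMod d)) (uz_pow 1)).L x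
            (Sum.inr (Sum.inr k)) = ((cond k (uz (0 : ZMod d)) (uz 0) : ℂˣ) : ℂ) *
              x (Sum.inr (Sum.inr k))
        rw [rot_inr, if_neg (by simp)]
        congr 2
        cases k <;> exact Units.ext (ψ_zero).symm
    rw [rt, ← plC_trans, h1, plC_trans]
    have h2 : plC G ((rot S τ j (uz (1 : ZMod d)) (uz_pow 1)).scale
        (fun b => cond b (uz (0 : ZMod d)) (uz 0)) (by intro j; cases j <;> exact uz_pow _)) (r + 1)
          (four (cyC G (S.ext τ) hr) a v) = ψ (χ j) • four (cyC G (S.ext τ) hr) a v := by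
      rw [four_apply, map_sum, Finset.smul_sum]
      apply Finset.sum_congr rfl
      intro k _
      have h3 := hv j
      rw [rt] at h3
      rw [map_smul, plC_cyC G _ hr hr 0 0, h3, map_smul, sub_self, sub_zero, smul_comm]
    rw [h2, map_smul]
    rfl
  · have h1 : (rot S (τ ⊕ Bool) (Sum.inr b) (uz (1 : ZMod d)) (uz_pow 1)).trans
        (assoc S τ Bool).symm = (assoc S τ Bool).symm.trans
          ((LinIso.refl (S.ext τ)).scale
            (fun c => cond c (uz (cond b (1 : ZMod d) 0)) (uz (cond b 0 1)))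
            (by intro j; cases j <;> exact uz_pow _)) := by
      ext x k
      rcases k with (k | k) | k
      · rfl
      · change (rot S (τ ⊕ Bool) (Sum.inr b) (uz (1 : ZMod d)) (uz_pow 1)).L x
            (Sum.inr (Sum.inl k)) = x (Sum.inr (Sum.inl k))
        rw [rot_inr, if_neg (by simp), Units.val_one, one_mul]
      · change (rot S (τ ⊕ Bool) (Sum.inr b) (uz (1 : ZMod d)) (uz_pow 1)).L x
            (Sum.inr (Sum.inr k)) =
              ((cond k (uz (cond b (1 : ZMod d) 0)) (uz (cond b 0 1)) : ℂˣ) : ℂ) *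
              x (Sum.inr (Sum.inr k))
        rw [rot_inr]
        congr 2
        have h0 : (1 : ℂˣ) = uz (0 : ZMod d) := Units.ext (ψ_zero).symm
        cases k <;> cases b <;> simp [h0]
    rw [rt, ← plC_trans, h1, plC_trans]
    have h2 : plC G ((LinIso.refl (S.ext τ)).scale
        (fun c => cond c (uz (cond b (1 : ZMod d) 0)) (uz (cond b 0 1)))
        (by intro j; cases j <;> exact uz_pow _)) (r + 1) (four (cyC G (S.ext τ) hr) a v) =
          ψ (a * (cond b (0 : ZMod d) 1 - cond b 1 0)) • four (cyC G (S.ext τ) hr) a v := by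
      apply four_shift
      intro k x
      rw [plC_cyC G _ hr hr, plC_refl]
    rw [h2, map_smul]
    congr 1
    cases b
    · change ψ (a * (1 - 0)) = ψ a
      rw [sub_zero, mul_one]
    · change ψ (a * (0 - 1)) = ψ (-a)
      rw [zero_sub, mul_neg, mul_one]

/-- no new variables -/
def extEmpty (S : SForm σ d) (τ : Type) [Fintype τ] [IsEmpty τ] : LinIso S (S.ext τ) where
  L := LinearEquiv.funCongrLeft ℂ ℂ (Equiv.sumEmpty σ τ)
  pres x := by
    rw [SForm.eval_ext, Finset.univ_eq_empty, Finset.sum_empty, add_zero]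
    rfl

lemma iso_empty (S : SForm σ d) (τ : Type) [Fintype τ] [IsEmpty τ] (r : ℕ) (χ : τ → ZMod d) :
    G.defect S r ≤ Module.rank ℂ (iso G S τ r χ) := by
  rw [← rank_W]
  refine LinearMap.rank_le_of_injective
    ((plC G (extEmpty S τ).symm r).codRestrict (iso G S τ r χ) fun x j => isEmptyElim j) ?_
  intro x y hxy
  exact plC_inj G _ r (congrArg Subtype.val hxy)

/-- the character `(a, -a)` -/
def chi {m : ℕ} (a : Fin m → ZMod d) : Fin m × Bool → ZMod d := fun p => cond p.2 (-a p.1) (a p.1)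

/-- the last two variables -/
def lastPair (m : ℕ) : Fin (m + 1) × Bool ≃ (Fin m × Bool) ⊕ Bool where
  toFun p := Fin.lastCases (Sum.inr p.2) (fun j => Sum.inl (j, p.2)) p.1
  invFun := Sum.elim (fun p => (p.1.castSucc, p.2)) fun b => (Fin.last m, b)
  left_inv := by
    rintro ⟨j, b⟩
    induction j using Fin.lastCases with
    | last => simp
    | cast j => simp
  right_inv := by
    rintro (⟨j, b⟩ | b) <;> simp

omit [NeZero d] in
lemma chi_last {m : ℕ} (a : Fin (m + 1) → ZMod d) :
    addPair (chi fun j => a j.castSucc) (a (Fin.last m)) ∘ lastPair m = chi a := by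
  funext ⟨j, b⟩
  induction j using Fin.lastCases with
  | last => simp [lastPair, addPair, chi]
  | cast j => simp [lastPair, addPair, chi]

theorem iso_chi (S : SForm σ d) {i : ℕ} (hi : i ≤ S.dim) (m : ℕ) (a : Fin m → ZMod d)
    (ha : ∀ j, a j ≠ 0) :
    G.defect S i ≤ Module.rank ℂ (iso G S (Fin m × Bool) (i + m) (chi a)) := by
  induction m with
  | zero => exact iso_empty G S _ _ _
  | succ m ih =>
    refine (ih (fun j => a j.castSucc) fun j => ha _).trans ?_
    refine (iso_step G S (Fin m × Bool) ?_ _ (ha (Fin.last m))).trans ?_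
    · rw [SForm.dim] at hi ⊢
      have := S.card
      rw [Fintype.card_sum, Fintype.card_prod, Fintype.card_fin, Fintype.card_bool]
      omega
    · refine (iso_reindex G S (lastPair m) _ _).trans ?_
      rw [chi_last]
      exact le_rfl

/-- the character of a pair of words -/
def chi2 {m : ℕ} (p : (Fin m → {z : ZMod d // z ≠ 0}) × (Fin m → {z : ZMod d // z ≠ 0})) :
    Fin m × Bool → ZMod d := fun t => cond t.2 (-(p.2 t.1).1) (p.1 t.1).1

/-- a permutation of the second variables of the pairs -/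
def secondPerm {m : ℕ} (q : Equiv.Perm (Fin m)) : Fin m × Bool ≃ Fin m × Bool where
  toFun t := (cond t.2 (q t.1) t.1, t.2)
  invFun t := (cond t.2 (q.symm t.1) t.1, t.2)
  left_inv := by rintro ⟨j, b⟩; cases b <;> simp
  right_inv := by rintro ⟨j, b⟩; cases b <;> simp

theorem iso_chi2 (S : SForm σ d) {i : ℕ} (hi : i ≤ S.dim) (m : ℕ)
    (p : Pairs m {z : ZMod d // z ≠ 0}) :
    G.defect S i ≤ Module.rank ℂ (iso G S (Fin m × Bool) (i + m) (chi2 p.1)) := by
  obtain ⟨⟨a, b⟩, q, hq⟩ := p
  change b = a ∘ q at hq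
  subst hq
  refine (iso_chi G S hi m (fun j => (a j).1) fun j => (a j).2).trans ?_
  have h : (chi fun j => (a j).1) ∘ secondPerm q = chi2 (a, a ∘ q) := by
    funext ⟨j, b⟩
    cases b <;> rfl
  refine (iso_reindex G S (secondPerm q) _ _).trans ?_
  rw [h]

lemma chi2_inj {m : ℕ} : Function.Injective fun (p : Pairs m {z : ZMod d // z ≠ 0})
    (t : Fin m × Bool) => (ψ (chi2 p.1 t) : ℂ) := by
  rintro ⟨⟨a, b⟩, hp⟩ ⟨⟨a', b'⟩, hp'⟩ h
  have h1 : ∀ t, chi2 (a, b) t = chi2 (a', b') t := fun t => ψ_inj (congrFun h t)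
  have h2 : a = a' := by
    funext j
    exact Subtype.ext (h1 (j, false))
  have h3 : b = b' := by
    funext j
    exact Subtype.ext (neg_injective (h1 (j, true)))
  subst h2 h3
  rfl

/-- **Growth of the defect.** -/
theorem growth (S : SForm σ d) {i : ℕ} (hi : i ≤ S.dim) (m : ℕ) :
    (((d - 1) ^ (2 * m) : ℕ) : Cardinal) * G.defect S i ≤
      (((m + 1) ^ (d - 1) : ℕ) : Cardinal) * G.defect (S.ext (Fin m × Bool)) (i + m) := by
  classical
  have hK : Fintype.card {z : ZMod d // z ≠ 0} = d - 1 := by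
    rw [Fintype.card_subtype_compl, ZMod.card, Fintype.card_subtype_eq]
  have h1 := joint_rank (rt G S (Fin m × Bool) (i + m))
    (fun (p : Pairs m {z : ZMod d // z ≠ 0}) (t : Fin m × Bool) => (ψ (chi2 p.1 t) : ℂ)) chi2_inj
    (G.defect S i) (fun p => iso_chi2 G S hi m p)
  rw [rank_W] at h1
  have h2 := count m {z : ZMod d // z ≠ 0}
  rw [hK] at h2
  calc (((d - 1) ^ (2 * m) : ℕ) : Cardinal) * G.defect S i
      ≤ (((m + 1) ^ (d - 1) * Fintype.card (Pairs m {z : ZMod d // z ≠ 0}) : ℕ) : Cardinal) *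
          G.defect S i := mul_le_mul_left (by exact_mod_cast h2) _
    _ = (((m + 1) ^ (d - 1) : ℕ) : Cardinal) *
          ((Fintype.card (Pairs m {z : ZMod d // z ≠ 0}) : Cardinal) * G.defect S i) := by
        rw [Nat.cast_mul, mul_assoc]
    _ ≤ _ := mul_le_mul_right h1 _

end Pool.Agent.V5helper92.HC
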