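import Mathlib

/-!
# Smooth forms and sums with powers of new variables
-/

set_option autoImplicit false

open MvPolynomial

namespace Pool.Agent.V5helper92.HC

/-- A smooth form of degree `d ≥ 2` over the complex numbers, in a finite set `σ` of at least three
variables: it defines a smooth hypersurface of dimension `card σ - 2 ≥ 1` in the projective space of
dimension `card σ - 1`. -/
structure SForm (σ : Type) [Fintype σ] (d : ℕ) where
  F : MvPolynomial σ ℂ
  deg : 2 ≤ d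
  card : 3 ≤ Fintype.card σ
  hom : F.IsHomogeneous d
  smooth : ∀ x : σ → ℂ, x ≠ 0 → eval x F = 0 → ∃ i, eval x (pderiv i F) ≠ 0

variable {σ σ' σ'' : Type} [Fintype σ] [Fintype σ'] [Fintype σ''] {d : ℕ}

/-- the dimension of the hypersurface -/
def SForm.dim (_S : SForm σ d) : ℕ := Fintype.card σ - 2

omit [Fintype σ] in
lemma eval_ext (F : MvPolynomial σ ℂ) (τ : Type) [Fintype τ] (d : ℕ) (x : σ ⊕ τ → ℂ) :
    eval x (rename Sum.inl F + ∑ j : τ, X (Sum.inr j) ^ d : MvPolynomial (σ ⊕ τ) ℂ) =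
      eval (fun i => x (Sum.inl i)) F + ∑ j, x (Sum.inr j) ^ d := by
  rw [map_add, map_sum, eval_rename]
  simp only [map_pow, eval_X]
  rfl

omit [Fintype σ] in
lemma pderiv_inl (F : MvPolynomial σ ℂ) (τ : Type) [Fintype τ] (d : ℕ) (i : σ) :
    pderiv (Sum.inl i) (rename Sum.inl F + ∑ j : τ, X (Sum.inr j) ^ d : MvPolynomial (σ ⊕ τ) ℂ) =
      rename Sum.inl (pderiv i F) := by
  classical
  rw [map_add, map_sum, pderiv_rename Sum.inl_injective]
  rw [Finset.sum_eq_zero, add_zero]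
  intro j _
  rw [pderiv_pow, pderiv_X_of_ne (by simp), mul_zero]

omit [Fintype σ] in
lemma pderiv_inr (F : MvPolynomial σ ℂ) (τ : Type) [Fintype τ] (d : ℕ) (j : τ) (x : σ ⊕ τ → ℂ) :
    eval x (pderiv (Sum.inr j)
      (rename Sum.inl F + ∑ j : τ, X (Sum.inr j) ^ d : MvPolynomial (σ ⊕ τ) ℂ)) =
      d * x (Sum.inr j) ^ (d - 1) := by
  classical
  rw [map_add, map_sum, map_add]
  have h1 : eval x (pderiv (Sum.inr j) (rename Sum.inl F : MvPolynomial (σ ⊕ τ) ℂ)) = 0 := by
    rw [pderiv_eq_zero_of_notMem_vars, map_zero]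
    intro h
    classical
    have h2 := vars_rename (Sum.inl : σ → σ ⊕ τ) F h
    simp at h2
  rw [h1, zero_add, map_sum, Finset.sum_eq_single j]
  · rw [pderiv_pow, pderiv_X_self, mul_one]
    simp
  · intro k _ hk
    rw [pderiv_pow, pderiv_X_of_ne (by simpa using hk), mul_zero, map_zero]
  · intro h
    exact absurd (Finset.mem_univ j) h

/-- The form `F(x) + ∑_{j ∈ τ} y_j ^ d`. -/
noncomputable def SForm.ext (S : SForm σ d) (τ : Type) [Fintype τ] : SForm (σ ⊕ τ) d where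
  F := rename Sum.inl S.F + ∑ j : τ, X (Sum.inr j) ^ d
  deg := S.deg
  card := by
    have := S.card
    rw [Fintype.card_sum]
    omega
  hom := by
    refine (S.hom.rename_isHomogeneous).add (IsHomogeneous.sum _ _ _ fun j _ => ?_)
    have h := (isHomogeneous_X ℂ (Sum.inr j : σ ⊕ τ)).pow d
    rwa [one_mul] at h
  smooth := by
    intro x hx h0
    by_contra hcon
    push Not at hcon
    have hd := S.deg
    have hy : ∀ j, x (Sum.inr j) = 0 := by
      intro j
      have h1 := hcon (Sum.inr j)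
      rw [pderiv_inr] at h1
      have h2 : (d : ℂ) ≠ 0 := by
        have : d ≠ 0 := by omega
        exact_mod_cast this
      exact (pow_eq_zero_iff (by omega)).mp ((mul_eq_zero.mp h1).resolve_left h2)
    have hx' : (fun i => x (Sum.inl i)) ≠ 0 := by
      intro h
      apply hx
      funext k
      rcases k with i | j
      · exact congrFun h i
      · exact hy j
    rw [eval_ext] at h0
    have h3 : ∑ j, x (Sum.inr j) ^ d = 0 := by
      apply Finset.sum_eq_zero
      intro j _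
      rw [hy j, zero_pow (by omega)]
    rw [h3, add_zero] at h0
    obtain ⟨i, hi⟩ := S.smooth _ hx' h0
    apply hi
    have h4 := hcon (Sum.inl i)
    rw [pderiv_inl, eval_rename] at h4
    exact h4

lemma SForm.eval_ext (S : SForm σ d) (τ : Type) [Fintype τ] (x : σ ⊕ τ → ℂ) :
    eval x (S.ext τ).F = eval (fun i => x (Sum.inl i)) S.F + ∑ j, x (Sum.inr j) ^ d :=
  HC.eval_ext S.F τ d x

/-- A linear isomorphism from the hypersurface of `S` to the hypersurface of `S'`. -/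
structure LinIso (S : SForm σ d) (S' : SForm σ' d) where
  L : (σ → ℂ) ≃ₗ[ℂ] (σ' → ℂ)
  pres : ∀ x, eval (L x) S'.F = eval x S.F

@[ext] lemma LinIso.ext' {S : SForm σ d} {S' : SForm σ' d} {A B : LinIso S S'}
    (h : ∀ x i, A.L x i = B.L x i) : A = B := by
  cases A; cases B
  congr
  ext x i
  exact h _ _

/-- the identity -/
def LinIso.refl (S : SForm σ d) : LinIso S S := ⟨LinearEquiv.refl ℂ _, fun _ => rfl⟩

/-- the composition -/
def LinIso.trans {S : SForm σ d} {S' : SForm σ' d} {S'' : SForm σ'' d} (A : LinIso S S')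
    (B : LinIso S' S'') : LinIso S S'' :=
  ⟨A.L.trans B.L, fun x => (B.pres _).trans (A.pres x)⟩

/-- the inverse -/
def LinIso.symm {S : SForm σ d} {S' : SForm σ' d} (A : LinIso S S') : LinIso S' S :=
  ⟨A.L.symm, fun x => by rw [← A.pres, LinearEquiv.apply_symm_apply]⟩

lemma LinIso.symm_trans {S : SForm σ d} {S' : SForm σ' d} (A : LinIso S S') :
    A.symm.trans A = LinIso.refl S' := by
  ext x i
  change A.L (A.L.symm x) i = x i
  rw [LinearEquiv.apply_symm_apply]

lemma LinIso.trans_symm {S : SForm σ d} {S' : SForm σ' d} (A : LinIso S S') :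
    A.trans A.symm = LinIso.refl S := by
  ext x i
  change A.L.symm (A.L x) i = x i
  rw [LinearEquiv.symm_apply_apply]

/-- The linear isomorphism `(x, y) ↦ (L x, (u_j y_j)_j)` for `d`-th roots of unity `u_j`. -/
noncomputable def LinIso.scale {S : SForm σ d} {S' : SForm σ' d} (A : LinIso S S') {τ : Type}
    [Fintype τ] (u : τ → ℂˣ) (hu : ∀ j, u j ^ d = 1) : LinIso (S.ext τ) (S'.ext τ) where
  L := ((LinearEquiv.sumArrowLequivProdArrow σ τ ℂ ℂ).trans
    (A.L.prodCongr (LinearEquiv.piCongrRight fun j => LinearEquiv.smulOfUnit (u j)))).trans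
      (LinearEquiv.sumArrowLequivProdArrow σ' τ ℂ ℂ).symm
  pres x := by
    rw [SForm.eval_ext, SForm.eval_ext]
    congr 1
    · exact A.pres _
    · apply Finset.sum_congr rfl
      intro j _
      change ((u j : ℂ) * x (Sum.inr j)) ^ d = _
      have h : ((u j : ℂ)) ^ d = 1 := by
        have := congrArg Units.val (hu j)
        simpa using this
      rw [mul_pow, h, one_mul]

lemma LinIso.scale_inl {S : SForm σ d} {S' : SForm σ' d} (A : LinIso S S') {τ : Type}
    [Fintype τ] (u : τ → ℂˣ) (hu : ∀ j, u j ^ d = 1) (x : σ ⊕ τ → ℂ) (i : σ') :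
    (A.scale u hu).L x (Sum.inl i) = A.L (fun k => x (Sum.inl k)) i := rfl

lemma LinIso.scale_inr {S : SForm σ d} {S' : SForm σ' d} (A : LinIso S S') {τ : Type}
    [Fintype τ] (u : τ → ℂˣ) (hu : ∀ j, u j ^ d = 1) (x : σ ⊕ τ → ℂ) (j : τ) :
    (A.scale u hu).L x (Sum.inr j) = u j * x (Sum.inr j) := rfl

/-- renumbering of the new variables -/
noncomputable def reindex (S : SForm σ d) {τ τ' : Type} [Fintype τ] [Fintype τ'] (e : τ ≃ τ') :
    LinIso (S.ext τ) (S.ext τ') where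
  L := LinearEquiv.funCongrLeft ℂ ℂ (Equiv.sumCongr (Equiv.refl σ) e.symm)
  pres x := by
    rw [SForm.eval_ext, SForm.eval_ext]
    congr 1
    change ∑ j : τ', x (Sum.inr (e.symm j)) ^ d = _
    exact Equiv.sum_comp e.symm fun j => x (Sum.inr j) ^ d

lemma reindex_inl (S : SForm σ d) {τ τ' : Type} [Fintype τ] [Fintype τ'] (e : τ ≃ τ')
    (x : σ ⊕ τ → ℂ) (i : σ) : (reindex S e).L x (Sum.inl i) = x (Sum.inl i) := rfl

lemma reindex_inr (S : SForm σ d) {τ τ' : Type} [Fintype τ] [Fintype τ'] (e : τ ≃ τ')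
    (x : σ ⊕ τ → ℂ) (j : τ') : (reindex S e).L x (Sum.inr j) = x (Sum.inr (e.symm j)) := rfl

/-- `(F(x) + ∑_τ y_j ^ d) + ∑_ρ z_j ^ d` is the form `F(x) + ∑_{τ ⊕ ρ} y_j ^ d` -/
noncomputable def assoc (S : SForm σ d) (τ ρ : Type) [Fintype τ] [Fintype ρ] :
    LinIso ((S.ext τ).ext ρ) (S.ext (τ ⊕ ρ)) where
  L := LinearEquiv.funCongrLeft ℂ ℂ (Equiv.sumAssoc σ τ ρ).symm
  pres x := by
    rw [SForm.eval_ext, SForm.eval_ext, SForm.eval_ext, add_assoc, Fintype.sum_sum_type]
    rfl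

lemma assoc_inl (S : SForm σ d) (τ ρ : Type) [Fintype τ] [Fintype ρ] (x : (σ ⊕ τ) ⊕ ρ → ℂ)
    (i : σ) : (assoc S τ ρ).L x (Sum.inl i) = x (Sum.inl (Sum.inl i)) := rfl

lemma assoc_inr_inl (S : SForm σ d) (τ ρ : Type) [Fintype τ] [Fintype ρ] (x : (σ ⊕ τ) ⊕ ρ → ℂ)
    (i : τ) : (assoc S τ ρ).L x (Sum.inr (Sum.inl i)) = x (Sum.inl (Sum.inr i)) := rfl

lemma assoc_inr_inr (S : SForm σ d) (τ ρ : Type) [Fintype τ] [Fintype ρ] (x : (σ ⊕ τ) ⊕ ρ → ℂ)
    (i : ρ) : (assoc S τ ρ).L x (Sum.inr (Sum.inr i)) = x (Sum.inr i) := rfl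

open Classical in
/-- multiplication of the variable `y_j` by a `d`-th root of unity -/
noncomputable def rot (S : SForm σ d) (τ : Type) [Fintype τ] (j : τ) (u : ℂˣ)
    (hu : u ^ d = 1) : LinIso (S.ext τ) (S.ext τ) :=
  (LinIso.refl S).scale (fun k => if k = j then u else 1) fun k => by
    split_ifs
    · exact hu
    · exact one_pow d

lemma rot_inl (S : SForm σ d) (τ : Type) [Fintype τ] (j : τ) (u : ℂˣ) (hu : u ^ d = 1)
    (x : σ ⊕ τ → ℂ) (i : σ) : (rot S τ j u hu).L x (Sum.inl i) = x (Sum.inl i) := rfl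

lemma rot_inr (S : SForm σ d) (τ : Type) [Fintype τ] (j : τ) (u : ℂˣ) (hu : u ^ d = 1)
    (x : σ ⊕ τ → ℂ) (k : τ) [Decidable (k = j)] : (rot S τ j u hu).L x (Sum.inr k) =
      ((if k = j then u else 1 : ℂˣ) : ℂ) * x (Sum.inr k) := by
  rw [rot, LinIso.scale_inr]
  by_cases h : k = j <;> simp [h]

end Pool.Agent.V5helper92.HC
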