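import Pool.Agent.V5helper92.HC.Chow

/-!
# Families of cycles over a curve, and the join with a curve
-/

set_option autoImplicit false

open CategoryTheory MonoidalCategory CartesianMonoidalCategory

namespace Pool.Agent.V5helper92.HC

universe u w

variable {V : Type u} [Category.{w} V] [CartesianMonoidalCategory V]

/-- the section `x ↦ (x, t)` of the projection `X × Y → X`, for a point `t` of `Y` -/
def sec (X : V) {Y : V} (t : 𝟙_ V ⟶ Y) : X ⟶ X ⊗ Y := lift (𝟙 X) (toUnit X ≫ t)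

/-- the map `X × Y → X × Y × Y`, `(x, y) ↦ (x, y, y)` -/
def dia (X Y : V) : X ⊗ Y ⟶ (X ⊗ Y) ⊗ Y := lift (𝟙 (X ⊗ Y)) (snd X Y)

lemma sec_fst (X : V) {Y : V} (t : 𝟙_ V ⟶ Y) : sec X t ≫ fst X Y = 𝟙 X := lift_fst _ _

lemma sec_snd (X : V) {Y : V} (t : 𝟙_ V ⟶ Y) : sec X t ≫ snd X Y = toUnit X ≫ t := lift_snd _ _

lemma dia_fst (X Y : V) : dia X Y ≫ fst (X ⊗ Y) Y = 𝟙 (X ⊗ Y) := lift_fst _ _

lemma sec_nat {X X' : V} {Y : V} (f : X ⟶ X') (t : 𝟙_ V ⟶ Y) :
    sec X t ≫ f ▷ Y = f ≫ sec X' t := by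
  apply hom_ext
  · rw [Category.assoc, whiskerRight_fst, ← Category.assoc, sec_fst, Category.id_comp,
      Category.assoc, sec_fst, Category.comp_id]
  · rw [Category.assoc, whiskerRight_snd, sec_snd, Category.assoc, sec_snd, ← Category.assoc,
      comp_toUnit]

namespace Chow

variable (C : Chow V)

/-- The properties of the Chow groups of smooth projective irreducible varieties which involve the
dimension: push-forward preserves the dimension of cycles (so `f_*` maps `A^s(X)` to `A^t(Y)` if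
`s + dim Y = t + dim X`); `A^0(X) = ℚ`; `A^t(X) = 0` for `t > dim X`. -/
structure HasDim (dim : V → ℕ) : Prop where
  unit : dim (𝟙_ V) = 0
  prod : ∀ X Y, dim (X ⊗ Y) = dim X + dim Y
  push_mem : ∀ {X Y : V} (f : X ⟶ Y) (s t : ℕ) (x : C.A X), C.Codim s x →
    s + dim Y = t + dim X → C.Codim t (C.pf f x)
  push_zero : ∀ {X Y : V} (f : X ⟶ Y) (s : ℕ) (x : C.A X), C.Codim s x →
    s + dim Y < dim X → C.pf f x = 0
  zero : ∀ {X : V} (x : C.A X), C.Codim 0 x → ∃ q : ℚ, x = q • 1
  top : ∀ {X : V} (t : ℕ) (x : C.A X), C.Codim t x → dim X < t → x = 0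

/-- Base change for products, for a variety `Y`:
`square`, `square'`: `p_* q^* y = deg(y)` and `q_* p^* x = deg(x)` for the projections `p`, `q` of `X × Y`;
`base`: `(f × 1)_*` commutes with the restriction to the fibre over a point `t` of `Y`. -/
structure BaseChange (Y : V) : Prop where
  square : ∀ (X : V) (y : C.A Y),
    C.pf (fst X Y) (C.pb (snd X Y) y) = C.pb (toUnit X) (C.pf (toUnit Y) y)
  square' : ∀ (X : V) (x : C.A X),
    C.pf (snd X Y) (C.pb (fst X Y) x) = C.pb (toUnit Y) (C.pf (toUnit X) x)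
  base : ∀ {X X' : V} (f : X ⟶ X') (t : 𝟙_ V ⟶ Y) (x : C.A (X ⊗ Y)),
    C.pb (sec X' t) (C.pf (f ▷ Y) x) = C.pf f (C.pb (sec X t) x)

/-- The diagonal of a curve `Y` with `κ = c_1(T_Y)`: for the embedding `δ : X × Y → X × Y × Y`,
`δ(x, y) = (x, y, y)`, and the embeddings `u_t(x, y) = (x, y, t)`, `s_t(x) = (x, t)`:
`u_t^* δ_* = s_t_* s_t^*`, `δ^* u_t_* = s_t_* s_t^*` (the two divisors meet transversally), and the
self-intersection formula `δ^* δ_* x = x · κ`. -/
structure Diagonal (Y : V) (κ : C.A Y) : Prop where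
  dia_sec : ∀ (X : V) (t : 𝟙_ V ⟶ Y) (x : C.A (X ⊗ Y)),
    C.pb (sec (X ⊗ Y) t) (C.pf (dia X Y) x) = C.pf (sec X t) (C.pb (sec X t) x)
  sec_dia : ∀ (X : V) (t : 𝟙_ V ⟶ Y) (x : C.A (X ⊗ Y)),
    C.pb (dia X Y) (C.pf (sec (X ⊗ Y) t) x) = C.pf (sec X t) (C.pb (sec X t) x)
  dia_dia : ∀ (X : V) (x : C.A (X ⊗ Y)),
    C.pb (dia X Y) (C.pf (dia X Y) x) = x * C.pb (snd X Y) κ

/-- Bloch and Srinivas, for a curve `Y` over the complex numbers: a class on `X × Y` whose
restrictions to all fibres `X × t` are zero is supported on finitely many fibres. -/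
def Spreads (Y : V) : Prop :=
  ∀ (X : V) (j : ℕ) (γ : C.A (X ⊗ Y)), C.Codim (j + 1) γ → (∀ t, C.pb (sec X t) γ = 0) →
    ∃ (m : ℕ) (t : Fin m → (𝟙_ V ⟶ Y)) (c : Fin m → C.A X), (∀ k, C.Codim j (c k)) ∧
      γ = ∑ k, C.pf (sec X (t k)) (c k)

/-- A family of cycles over a curve `Y` over the complex numbers whose members belong to countably many
rational equivalence classes is constant (the points over which the members belong to a given class
form a countable union of closed subsets). -/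
def CountableIsConstant (Y : V) : Prop :=
  ∀ (X : V) (j : ℕ) (c : C.A (X ⊗ Y)), C.Codim j c →
    (Set.range fun t : 𝟙_ V ⟶ Y => C.pb (sec X t) c).Countable →
      ∀ t u, C.pb (sec X t) c = C.pb (sec X u) c

/-- The standard facts on the smooth projective curve `Y` and on the families of cycles over `Y`. -/
structure IsCurve (dim : V → ℕ) (Y : V) (κ : C.A Y) : Prop where
  point : Nonempty (𝟙_ V ⟶ Y)
  dim_eq : dim Y = 1
  baseChange : C.BaseChange Y
  diagonal : C.Diagonal Y κ
  spreads : C.Spreads Y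
  countable : C.CountableIsConstant Y

/-- **The families of cycles of codimension `i` on `X` over the curve `Y` are constant**: for a class `c`
of codimension `i` on `X × Y`, the restriction of `c` to `X × t` does not depend on the point `t`. -/
def Rigid (Y X : V) (i : ℕ) : Prop :=
  ∀ c : C.A (X ⊗ Y), C.Codim i c → ∀ t u : 𝟙_ V ⟶ Y, C.pb (sec X t) c = C.pb (sec X u) c

/-- The classes of codimension `i` on `X` which are algebraically equivalent to zero by families over the
curve `Y`: the linear combinations of differences of two members of a family. -/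
def AlgZero (Y X : V) (i : ℕ) : Submodule ℚ (C.A X) :=
  Submodule.span ℚ {b | ∃ c : C.A (X ⊗ Y), C.Codim i c ∧
    ∃ t u : 𝟙_ V ⟶ Y, b = C.pb (sec X t) c - C.pb (sec X u) c}

/-- `D` is the projective line bundle over `P = X × Y` whose fibre over `(x, y)` is the line joining
`x` and `y`, with the hyperplane class `H` and the sections `σX` and `σY` (with values in `X` and `Y`):
`H = [σX] + q^* hY = [σY] + p^* hX`, and the restriction of `H` to `σX` is `p^* hX`. -/
structure JoinBundle {X Y D : V} (hX : C.A X) (hY : C.A Y) (H : C.A D) (π : D ⟶ X ⊗ Y)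
    (σX σY : X ⊗ Y ⟶ D) : Prop where
  secX : σX ≫ π = 𝟙 (X ⊗ Y)
  secY : σY ≫ π = 𝟙 (X ⊗ Y)
  tautX : H = C.cls σX + C.pb (π ≫ snd X Y) hY
  tautY : H = C.cls σY + C.pb (π ≫ fst X Y) hX
  restX : C.pb σX H = C.pb (fst X Y) hX

/-- `EX = X × P^m` is the exceptional divisor `eX : EX → J'` over `X`, with the projection `gX` to `X`
and the hyperplane class `ξ` of `P^m`, and `kX` is the embedding of `P = X × Y` in `X × P^m`; the
divisors `EX` and `D` of `J'` meet transversally, in `P`. -/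
structure JoinExc {X Y P D J' EX : V} (hY : C.A Y) (p : P ⟶ X) (q : P ⟶ Y) (i : D ⟶ J')
    (σX : P ⟶ D) (eX : EX ⟶ J') (gX : EX ⟶ X) (kX : P ⟶ EX) (ξ : C.A EX) : Prop where
  proj : kX ≫ gX = p
  hyp : C.pb kX ξ = C.pb q hY
  base : ∀ x, C.pb eX (C.pf i x) = C.pf kX (C.pb σX x)
  cls : C.pb i (C.cls eX) = C.cls σX
  nondeg : ∀ z : C.A EX, (∀ k : ℕ, C.pf gX (z * ξ ^ k) = 0) → z = 0

/-- The blow-up `β : J' → J` of `X ⊔ Y` with the exceptional divisors `EX`, `EY`, and the strict
transform `i : D → J'` of the join of `X` and `Y`: a hypersurface section of degree `d` of `J`, of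
multiplicity `d` along `X` and `Y`. `blow`: a class on `J'` which restricts to zero on `EX` and `EY`
is the pull-back of a class on `J`; `self`: the self-intersection formula. -/
structure JoinBlowUp (d : ℕ) {D J J' EX EY : V} (hJ : C.A J) (β : J' ⟶ J) (i : D ⟶ J')
    (eX : EX ⟶ J') (eY : EY ⟶ J') : Prop where
  blow : ∀ y, C.pb eX y = 0 → C.pb eY y = 0 → C.pb β (C.pf β y) = y
  strict : C.cls i = (d : ℚ) • (C.pb β hJ - C.cls eX - C.cls eY)
  self : ∀ x, C.pb i (C.pf i x) = x * C.pb i (C.cls i)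

end Chow

/-- Let `X`, `Y` and `J` be the smooth hypersurfaces `F(x) = 0`, `G(y) = 0` and `F(x) + G(y) = 0` of
degree `d`. The join `F(x) = 0 = G(y)` of `X` and `Y` is a divisor in `J`. The data are the blow-up `J'`
of `J` in `X ⊔ Y`, with the exceptional divisors `EX` and `EY`, and the strict transform `D` of the
join, which is a projective line bundle over `X × Y`. -/
structure Join (C : Chow V) (dim : V → ℕ) (d : ℕ) {X Y J : V} (hX : C.A X) (hY : C.A Y)
    (hJ : C.A J) where
  (D J' EX EY : V)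
  π : D ⟶ X ⊗ Y
  (σX σY : X ⊗ Y ⟶ D)
  i : D ⟶ J'
  β : J' ⟶ J
  eX : EX ⟶ J'
  eY : EY ⟶ J'
  gX : EX ⟶ X
  gY : EY ⟶ Y
  (kX : X ⊗ Y ⟶ EX)
  (kY : X ⊗ Y ⟶ EY)
  ξX : C.A EX
  ξY : C.A EY
  dimD : dim D = dim X + dim Y + 1
  dimJ : dim J = dim X + dim Y + 2
  bundle : C.JoinBundle hX hY (C.pb (i ≫ β) hJ) π σX σY
  excX : C.JoinExc hY (fst X Y) (snd X Y) i σX eX gX kX ξX
  excY : C.JoinExc hX (snd X Y) (fst X Y) i σY eY gY kY ξY
  blowUp : C.JoinBlowUp d hJ β i eX eY

variable {C : Chow V} {dim : V → ℕ}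

/-! ### Formal consequences -/

namespace Chow

lemma HasDim.push_fst (hD : C.HasDim dim) {X Y : V} (hY : 0 < dim Y) (x : C.A X) :
    C.push (fst X Y) (C.pull (fst X Y) x) = 0 := by
  have h1 : C.push (fst X Y) 1 = 0 :=
    hD.push_zero (fst X Y) 0 1 (C.one_mem _) (by rw [hD.prod]; omega)
  have h2 := C.proj (fst X Y) 1 x
  rw [one_mul, h1, zero_mul] at h2
  exact h2

lemma HasDim.mem_unit (hD : C.HasDim dim) (t : ℕ) (x : C.A (𝟙_ V)) (hx : x ∈ C.gr (𝟙_ V) (t + 1)) :
    x = 0 := hD.top (t + 1) x hx (by rw [hD.unit]; omega)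

/-- the degree of a class of the wrong dimension is zero -/
lemma HasDim.deg_zero (hD : C.HasDim dim) {X : V} {s : ℕ} {x : C.A X} (hx : x ∈ C.gr X s)
    (hs : s ≠ dim X) : C.push (toUnit X) x = 0 := by
  rcases lt_or_gt_of_ne hs with h | h
  · exact hD.push_zero (toUnit X) s x hx (by rw [hD.unit]; omega)
  · rw [hD.top s x hx h, map_zero]

end Chow


end Pool.Agent.V5helper92.HC
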