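import Pool.Agent.V5helper92.HC.Adequate

/-!
# Künneth decompositions of low codimension for products of hypersurfaces
-/

set_option autoImplicit false

open CategoryTheory MonoidalCategory CartesianMonoidalCategory

namespace Pool.Agent.V5helper92.HC

universe u w

variable {V : Type u} [Category.{w} V] [CartesianMonoidalCategory V] {C : Chow V} {dim : V → ℕ}
  {d : ℕ}

/-- The projection of the product `X_1 × ... × X_r` which forgets the factor number `k` (the factors are
numbered from `0`). -/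
def forget (G : Hypersurfaces C d) : (L : List (BForm d)) → (k : ℕ) →
    (prod G L ⟶ prod G (L.eraseIdx k))
  | [], _ => 𝟙 (𝟙_ V)
  | F :: L, 0 => snd (G.X F.form) (prod G L)
  | F :: L, k + 1 => G.X F.form ◁ forget G L k

/-- The hyperplane class of the factor number `k` of the product `X_1 × ... × X_r`. -/
def hcl (G : Hypersurfaces C d) : (L : List (BForm d)) → (k : ℕ) → C.A (prod G L)
  | [], _ => 0
  | F :: L, 0 => C.pb (fst (G.X F.form) (prod G L)) (G.h F.form)
  | F :: L, k + 1 => C.pb (snd (G.X F.form) (prod G L)) (hcl G L k)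

/-- The space spanned by the classes of codimension `i` on the product of the form `π_k^* a · h_k ^ j`, where
`π_k` is the projection which forgets the factor number `k`, `h_k` is the hyperplane class of this
factor, and `a` is a class of codimension `i - j` on the product of the other factors. -/
def Decomposable (G : Hypersurfaces C d) (L : List (BForm d)) (i : ℕ) :
    Submodule ℚ (C.A (prod G L)) :=
  Submodule.span ℚ {x | ∃ k < L.length, ∃ j ≤ i, ∃ a : C.A (prod G (L.eraseIdx k)),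
    C.Codim (i - j) a ∧ x = C.pb (forget G L k) a * hcl G L k ^ j}

/-- Every class of codimension `i` on the product is decomposable. -/
def Kuenneth (G : Hypersurfaces C d) (L : List (BForm d)) (i : ℕ) : Prop :=
  ∀ z : C.A (prod G L), C.Codim i z → z ∈ Decomposable G L i

section join

variable {X Y J : V} {hX : C.A X} {hY : C.A Y} {hJ : C.A J} (j : Join C dim d hX hY hJ)

/-- the transposed join of the linear sections -/
lemma Join.push_pow (hD : C.HasDim dim) (k : ℕ) :
    C.push j.π (C.pull (j.i ≫ j.β) hJ ^ k) =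
      ∑ a ∈ Finset.range k, C.pull (fst X Y) hX ^ a * C.pull (snd X Y) hY ^ (k - 1 - a) := by
  have e8 : C.pull (j.i ≫ j.β) hJ = C.push j.σX 1 + C.pull (j.π ≫ snd X Y) hY := j.bundle.tautX
  have e9 : C.pull j.σX (C.pull (j.i ≫ j.β) hJ) = C.pull (fst X Y) hX := j.bundle.restX
  induction k with
  | zero =>
    rw [pow_zero, Finset.range_zero, Finset.sum_empty]
    exact hD.push_zero j.π 0 1 (C.one_mem _) (by rw [hD.prod, j.dimD]; omega)
  | succ k ih =>
    have h1 : C.push j.π (C.pull (j.i ≫ j.β) hJ ^ (k + 1)) = C.pull (fst X Y) hX ^ k +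
        C.push j.π (C.pull (j.i ≫ j.β) hJ ^ k) * C.pull (snd X Y) hY := by
      rw [pow_succ]
      nth_rewrite 2 [e8]
      rw [mul_add, map_add, j.push_mul_secX, map_pow, e9, C.pull_comp j.π, C.proj]
    rw [h1, ih, Finset.sum_range_succ, Finset.sum_mul]
    have h2 : k + 1 - 1 - k = 0 := by omega
    rw [h2, pow_zero, mul_one, add_comm]
    congr 1
    refine Finset.sum_congr rfl fun a ha => ?_
    rw [Finset.mem_range] at ha
    rw [mul_assoc, ← pow_succ]
    congr 2
    omega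

lemma assoc_inv_snd_snd (X Y Z : V) :
    (α_ X Y Z).inv ≫ snd (X ⊗ Y) Z = snd X (Y ⊗ Z) ≫ snd Y Z := by
  rw [associator_inv_snd]

lemma Products.push_assoc (hP : C.Products) {X Y Z : V} (x : C.A ((X ⊗ Y) ⊗ Z)) :
    C.push (α_ X Y Z).hom x = C.pull (α_ X Y Z).inv x :=
  (hP.pull_eq (α_ X Y Z).symm x).symm

/-- the transposed join of a class `a · h_J ^ k`, where `a` is a class on `Z` -/
lemma Join.down_snd (hP : C.Products) (hD : C.HasDim dim) (Z : V) (a : C.A Z) (k : ℕ) :
    j.down Z (C.pull (snd J Z) a * C.pull (fst J Z) hJ ^ k) =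
      ∑ l ∈ Finset.range k, C.pull (snd X (Y ⊗ Z))
        (C.pull (snd Y Z) a * C.pull (fst Y Z) hY ^ (k - 1 - l)) *
          C.pull (fst X (Y ⊗ Z)) hX ^ l := by
  have e1 : C.pull ((j.i ≫ j.β) ▷ Z) (C.pull (snd J Z) a) =
      C.pull (j.π ▷ Z) (C.pull (snd (X ⊗ Y) Z) a) := by
    rw [← C.pull_comp, ← C.pull_comp, whiskerRight_snd, whiskerRight_snd]
  have e2 : C.pull ((j.i ≫ j.β) ▷ Z) (C.pull (fst J Z) hJ) =
      C.pull (fst j.D Z) (C.pull (j.i ≫ j.β) hJ) := by
    rw [← C.pull_comp, ← C.pull_comp, whiskerRight_fst]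
  rw [Join.down, map_mul, map_pow, e1, e2, mul_comm, C.proj, ← map_pow, ← hP.flatFst,
    j.push_pow hD, Products.push_assoc hP, map_mul, map_sum, map_sum, Finset.sum_mul]
  refine Finset.sum_congr rfl fun l _ => ?_
  have f1 : C.pull (α_ X Y Z).inv (C.pull (fst (X ⊗ Y) Z) (C.pull (fst X Y) hX)) =
      C.pull (fst X (Y ⊗ Z)) hX := by
    rw [← C.pull_comp, ← C.pull_comp, Category.assoc, associator_inv_fst_fst]
  have f2 : C.pull (α_ X Y Z).inv (C.pull (fst (X ⊗ Y) Z) (C.pull (snd X Y) hY)) =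
      C.pull (snd X (Y ⊗ Z)) (C.pull (fst Y Z) hY) := by
    rw [← C.pull_comp, ← C.pull_comp, ← C.pull_comp, Category.assoc, associator_inv_fst_snd]
  have f3 : C.pull (α_ X Y Z).inv (C.pull (snd (X ⊗ Y) Z) a) =
      C.pull (snd X (Y ⊗ Z)) (C.pull (snd Y Z) a) := by
    rw [← C.pull_comp, ← C.pull_comp, associator_inv_snd]
  rw [map_mul, map_mul, map_pow, map_pow, map_pow, map_pow, f1, f2, f3, map_mul, map_pow]
  ring

/-- the transposed join commutes with pull-backs from `Z'` to `Z` -/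
lemma Join.down_pull (hP : C.Products) {Z Z' : V} (f : Z ⟶ Z') (a : C.A (J ⊗ Z')) (b : C.A Z) :
    j.down Z (C.pull (J ◁ f) a * C.pull (snd J Z) b) =
      C.pull (X ◁ (Y ◁ f)) (j.down Z' a) * C.pull (snd X (Y ⊗ Z)) (C.pull (snd Y Z) b) := by
  have e1 : C.pull ((j.i ≫ j.β) ▷ Z) (C.pull (snd J Z) b) =
      C.pull (j.π ▷ Z) (C.pull (snd (X ⊗ Y) Z) b) := by
    rw [← C.pull_comp, ← C.pull_comp, whiskerRight_snd, whiskerRight_snd]
  have e2 : C.pull ((j.i ≫ j.β) ▷ Z) (C.pull (J ◁ f) a) =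
      C.pull (j.D ◁ f) (C.pull ((j.i ≫ j.β) ▷ Z') a) := by
    rw [← C.pull_comp, ← C.pull_comp, whisker_exchange]
  have e3 : C.pull ((X ⊗ Y) ◁ f) (C.push (j.π ▷ Z') (C.pull ((j.i ≫ j.β) ▷ Z') a)) =
      C.push (j.π ▷ Z) (C.pull (j.D ◁ f) (C.pull ((j.i ≫ j.β) ▷ Z') a)) := hP.right _ _ _
  have f3 : C.pull (α_ X Y Z).inv (C.pull (snd (X ⊗ Y) Z) b) =
      C.pull (snd X (Y ⊗ Z)) (C.pull (snd Y Z) b) := by
    rw [← C.pull_comp, ← C.pull_comp, associator_inv_snd]
  have f4 : ∀ y : C.A ((X ⊗ Y) ⊗ Z'), C.pull (α_ X Y Z).inv (C.pull ((X ⊗ Y) ◁ f) y) =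
      C.pull (X ◁ (Y ◁ f)) (C.pull (α_ X Y Z').inv y) := by
    intro y
    rw [← C.pull_comp, ← C.pull_comp, associator_inv_naturality_right]
  rw [Join.down, Join.down, map_mul, e1, e2, C.proj, ← e3, Products.push_assoc hP,
    Products.push_assoc hP, map_mul, f3, f4]

end join

end Pool.Agent.V5helper92.HC
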