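import Pool.Agent.V5helper92.HC.Kuenneth

/-!
# Künneth decompositions: the induction
-/

set_option autoImplicit false

open CategoryTheory MonoidalCategory CartesianMonoidalCategory

namespace Pool.Agent.V5helper92.HC

universe u w

variable {V : Type u} [Category.{w} V] [CartesianMonoidalCategory V] {C : Chow V} {dim : V → ℕ}
  {d : ℕ}

section join

variable {X Y J : V} {hX : C.A X} {hY : C.A Y} {hJ : C.A J} (j : Join C dim d hX hY hJ)

lemma Join.up_mem (hD : C.HasDim dim) (Z : V) {i : ℕ} {z : C.A (X ⊗ (Y ⊗ Z))}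
    (hz : z ∈ C.gr _ i) : j.up Z z ∈ C.gr (J ⊗ Z) (i + 1) :=
  hD.push_mem _ i (i + 1) _ (C.pull_mem _ _ _ (C.pull_mem _ _ _ hz))
    (by rw [hD.prod, hD.prod, j.dimD, j.dimJ]; omega)

lemma Join.down_mem (hD : C.HasDim dim) (hP : C.Products) (Z : V) {i : ℕ} {z : C.A (J ⊗ Z)}
    (hz : z ∈ C.gr _ (i + 1)) : j.down Z z ∈ C.gr (X ⊗ (Y ⊗ Z)) i := by
  rw [Join.down, Products.push_assoc hP]
  exact C.pull_mem _ _ _ (hD.push_mem _ (i + 1) i _ (C.pull_mem _ _ _ hz)
    (by rw [hD.prod, hD.prod, hD.prod, j.dimD]; omega))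

lemma Join.down_zero (hD : C.HasDim dim) (Z : V) {z : C.A (J ⊗ Z)}
    (hz : z ∈ C.gr _ 0) : j.down Z z = 0 := by
  have h1 : C.push (j.π ▷ Z) (C.pull ((j.i ≫ j.β) ▷ Z) z) = 0 :=
    hD.push_zero _ 0 _ (C.pull_mem _ _ _ hz) (by rw [hD.prod, hD.prod, hD.prod, j.dimD]; omega)
  rw [Join.down, h1, map_zero]

end join

lemma unit_case {X : V} {h : C.A X} (z : C.A (X ⊗ 𝟙_ V)) (q : ℚ) (i : ℕ)
    (hq : C.pull (ρ_ X).inv z = q • h ^ i) :
    z = q • (C.pull (snd X (𝟙_ V)) 1 * C.pull (fst X (𝟙_ V)) h ^ i) := by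
  have h2 := congrArg (C.pull (ρ_ X).hom) hq
  rw [← C.pull_comp, Iso.hom_inv_id, C.pull_id, map_smul, map_pow, rightUnitor_hom] at h2
  rw [map_one, one_mul]
  exact h2

variable {G : Hypersurfaces C d}

lemma decomposable_of {L : List (BForm d)} {i k l : ℕ} (hk : k < L.length) (hl : l ≤ i)
    {a : C.A (prod G (L.eraseIdx k))} (ha : a ∈ C.gr _ (i - l)) :
    C.pull (forget G L k) a * hcl G L k ^ l ∈ Decomposable G L i :=
  Submodule.subset_span ⟨k, hk, l, hl, a, ha, rfl⟩

variable (hG : ProductGeometry dim G)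

include hG

/-- the transposed join of a decomposable class is decomposable -/
lemma down_decomposable (F F₂ : BForm d) (L : List (BForm d))
    (j : Join C dim d (G.h F.form) (G.h F₂.form) (G.h (F.add F₂).form)) {i : ℕ}
    {z : C.A (G.X (F.add F₂).form ⊗ prod G L)}
    (hz : z ∈ Decomposable G (F.add F₂ :: L) (i + 1)) :
    j.down (prod G L) z ∈ Decomposable G (F :: F₂ :: L) i := by
  have hD := hG.hasDim
  have hP := hG.products
  let φ : C.A (G.X (F.add F₂).form ⊗ prod G L) →ₗ[ℚ]
      C.A (G.X F.form ⊗ (G.X F₂.form ⊗ prod G L)) :=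
    (C.push (α_ _ _ _).hom ∘ₗ C.push (j.π ▷ prod G L)) ∘ₗ
      (C.pull ((j.i ≫ j.β) ▷ prod G L)).toLinearMap
  have hφ : ∀ z, φ z = j.down (prod G L) z := fun _ => rfl
  rw [← hφ]
  have h1 : Decomposable G (F.add F₂ :: L) (i + 1) ≤
      (Decomposable G (F :: F₂ :: L) i).comap φ := by
    rw [Decomposable, Submodule.span_le]
    rintro _ ⟨k, hk, l, hl, a, ha, rfl⟩
    change φ _ ∈ Decomposable G (F :: F₂ :: L) i
    rw [hφ]
    have ha' : a ∈ C.gr _ (i + 1 - l) := ha
    rcases k with _ | k
    · have e1 := j.down_snd hP hD (prod G L) a l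
      refine Eq.subst (motive := fun y => y ∈ Decomposable G (F :: F₂ :: L) i) e1.symm ?_
      refine Submodule.sum_mem _ fun b hb => ?_
      rw [Finset.mem_range] at hb
      refine decomposable_of (k := 0) (by simp) (by omega) ?_
      have e2 : i - b = (i + 1 - l) + (l - 1 - b) := by omega
      rw [e2]
      refine C.mul_mem _ _ _ _ _ (C.pull_mem _ _ _ ha') ?_
      rw [← map_pow]
      exact C.pull_mem _ _ _ (pow_mem_gr (hG.codim_h _) _)
    · have e1 := j.down_pull hP (forget G L k) a (hcl G L k ^ l)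
      have e2 : C.pb (forget G (F.add F₂ :: L) (k + 1)) a * hcl G (F.add F₂ :: L) (k + 1) ^ l =
          C.pull (G.X (F.add F₂).form ◁ forget G L k) a *
            C.pull (snd (G.X (F.add F₂).form) (prod G L)) (hcl G L k ^ l) := by
        rw [map_pow]
        rfl
      rw [e2]
      refine Eq.subst (motive := fun y => y ∈ Decomposable G (F :: F₂ :: L) i) e1.symm ?_
      rw [map_pow, map_pow]
      rcases Nat.lt_or_ge i l with hil | hil
      · have e3 : i + 1 - l = 0 := by omega
        rw [e3] at ha'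
        rw [j.down_zero hD _ ha', map_zero, zero_mul]
        exact Submodule.zero_mem _
      · have e3 : i + 1 - l = (i - l) + 1 := by omega
        rw [e3] at ha'
        exact decomposable_of (L := F :: F₂ :: L) (k := k + 2) (by simpa using hk) hil
          (a := j.down _ a) (j.down_mem hD hP _ ha')
  exact h1 hz

/-- the parts which are not primitive are decomposable -/
lemma comb_decomposable {L : List (BForm d)} {i k n : ℕ} (hk : k < L.length)
    (hn : dim (prod G L) = dim (prod G (L.eraseIdx k)) + n)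
    (hh : hcl G L k ∈ C.gr _ 1) {z : C.A (prod G L)} (hz : z ∈ C.gr _ i) :
    comb d (forget G L k) (hcl G L k) n z ∈ Decomposable G L i ∧
      comb d (forget G L k) (hcl G L k) n z ∈ C.gr _ i := by
  have hD := hG.hasDim
  have hpow : ∀ l, z * hcl G L k ^ l ∈ C.gr _ (i + l) := fun l =>
    C.mul_mem _ _ _ _ _ hz (pow_mem_gr hh l)
  constructor
  · refine comb_mem fun l hl => ?_
    rcases Nat.lt_or_ge (i + l) n with h | h
    · have h1 : C.push (forget G L k) (z * hcl G L k ^ l) = 0 :=
        hD.push_zero _ _ _ (hpow l) (by omega)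
      rw [h1, map_zero, zero_mul]
      exact Submodule.zero_mem _
    · exact decomposable_of hk (by omega)
        (hD.push_mem _ (i + l) (i - (n - l)) _ (hpow l) (by omega))
  · refine comb_mem fun l hl => ?_
    rcases Nat.lt_or_ge (i + l) n with h | h
    · have h1 : C.push (forget G L k) (z * hcl G L k ^ l) = 0 :=
        hD.push_zero _ _ _ (hpow l) (by omega)
      rw [h1, map_zero, zero_mul]
      exact Submodule.zero_mem _
    · have e1 : i = (i - (n - l)) + (n - l) := by omega
      have h2 := C.mul_mem _ (i - (n - l)) (n - l) _ _ (C.pull_mem (forget G L k) _ _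
        (hD.push_mem (forget G L k) (i + l) (i - (n - l)) _ (hpow l) (by omega)))
        (pow_mem_gr hh (n - l))
      rwa [← e1] at h2

/-- **The Künneth decomposition from the total join.** -/
theorem kuenneth_of_triv (L : List (BForm d)) : ∀ (F : BForm d) (i : ℕ),
    G.Triv (total F L).form (i + L.length) → Kuenneth G (F :: L) i := by
  have hD := hG.hasDim
  have hP := hG.products
  induction L with
  | nil =>
    intro F i h z hz
    obtain ⟨q, hq⟩ := h (C.pull (ρ_ (G.X F.form)).inv z) (C.pull_mem _ _ _ hz)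
    have h1 : z = q • (C.pull (forget G [F] 0) 1 * hcl G [F] 0 ^ i) :=
      unit_case (X := G.X F.form) z q i hq
    rw [h1]
    refine Submodule.smul_mem _ _ (decomposable_of (by simp) le_rfl ?_)
    rw [Nat.sub_self]
    exact C.one_mem _
  | cons F₂ L ih =>
    intro F i h z hz
    have hz : z ∈ C.gr (prod G (F :: F₂ :: L)) i := hz
    obtain ⟨j, hj⟩ := hG.join F.form F₂.form
    have hd : d ≠ 0 := by
      have := F.form.deg
      omega
    have hX := hG.isHyp F.form
    have hY := hG.isHyp F₂.form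
    have a1 := comb_decomposable hG (L := F :: F₂ :: L) (k := 1) (n := dim (G.X F₂.form))
      (by simp)
      (by
        change dim (G.X F.form ⊗ (G.X F₂.form ⊗ prod G L)) = dim (G.X F.form ⊗ prod G L) + _
        rw [hD.prod, hD.prod, hD.prod]
        omega)
      (C.pull_mem _ _ _ (C.pull_mem _ _ _ hY.mem)) hz
    obtain ⟨z₁, hz₁⟩ : ∃ z₁, z₁ = comb d (forget G (F :: F₂ :: L) 1) (hcl G (F :: F₂ :: L) 1)
      (dim (G.X F₂.form)) z := ⟨_, rfl⟩
    rw [← hz₁] at a1
    have a2 := comb_decomposable hG (L := F :: F₂ :: L) (k := 0) (n := dim (G.X F.form))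
      (by simp)
      (by
        change dim (G.X F.form ⊗ (G.X F₂.form ⊗ prod G L)) = dim (G.X F₂.form ⊗ prod G L) + _
        rw [hD.prod]
        omega)
      (C.pull_mem _ _ _ hX.mem) (Submodule.sub_mem _ hz a1.2)
    obtain ⟨z₂, hz₂⟩ : ∃ z₂, z₂ = comb d (forget G (F :: F₂ :: L) 0) (hcl G (F :: F₂ :: L) 0)
      (dim (G.X F.form)) (z - z₁) := ⟨_, rfl⟩
    rw [← hz₂] at a2
    have a6 : prim d (dim (G.X F.form)) (dim (G.X F₂.form)) (G.h F.form) (G.h F₂.form) z =
        z - z₁ - z₂ := by
      rw [hz₂, hz₁]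
      rfl
    have a7 : z - z₁ - z₂ ∈ C.gr (G.X F.form ⊗ (G.X F₂.form ⊗ prod G L)) i :=
      Submodule.sub_mem _ (Submodule.sub_mem _ hz a1.2) a2.2
    have a8 := ih (F.add F₂) (i + 1) (by
      have e : i + 1 + L.length = i + (F₂ :: L).length := by
        rw [List.length_cons]
        omega
      rw [e]
      exact h) (j.up (prod G L) (z - z₁ - z₂)) (j.up_mem hD _ a7)
    have a9 := down_decomposable hG F F₂ L j a8
    have a10 := j.down_up hj hP hD (prod G L) (z - z₁ - z₂)
      (fun l => by rw [← a6]; exact prim_fst hX hD hP hd _ z l)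
      (fun l => by rw [← a6]; exact prim_snd hY hD hP hd _ z l)
    have a9 := Eq.subst (motive := fun y => y ∈ Decomposable G (F :: F₂ :: L) i) a10 a9
    have b1 : (d : ℚ) ≠ 0 := by exact_mod_cast hd
    have b2 : z - z₁ - z₂ ∈ Decomposable G (F :: F₂ :: L) i :=
      (Submodule.smul_mem_iff _ b1).1 (Submodule.neg_mem_iff _ |>.1 a9)
    have b3 := Submodule.add_mem _ (Submodule.add_mem _ b2 a2.1) a1.1
    rwa [sub_add_cancel, sub_add_cancel] at b3

omit hG in
lemma total_dim (L : List (BForm d)) : ∀ F : BForm d,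
    (total F L).form.dim = F.form.dim + (L.map fun F => F.form.dim + 2).sum := by
  induction L with
  | nil => intro F; rfl
  | cons F₂ L ih =>
    intro F
    have h1 : (F.add F₂).form.dim = F.form.dim + F₂.form.dim + 2 := SForm.dim_add _ _
    rw [total, ih, h1, List.map_cons, List.sum_cons]
    omega

lemma prod_dim (L : List (BForm d)) :
    dim (prod G L) = (L.map fun F => F.form.dim).sum := by
  have hD := hG.hasDim
  induction L with
  | nil => exact hD.unit
  | cons F L ih =>
    rw [prod, hD.prod, ih, hG.dim_eq, List.map_cons, List.sum_cons]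

lemma total_dim_eq (F : BForm d) (L : List (BForm d)) :
    (total F L).form.dim = dim (prod G (F :: L)) + 2 * L.length := by
  rw [total_dim, prod_dim hG, List.map_cons, List.sum_cons, add_assoc]
  congr 1
  induction L with
  | nil => rfl
  | cons F L ih =>
    rw [List.map_cons, List.sum_cons, List.map_cons, List.sum_cons, List.length_cons, ih]
    omega

end Pool.Agent.V5helper92.HC
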