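import Pool.Agent.V5helper92.HC.Kuenneth2

/-!
# Künneth decompositions and constant families
-/

set_option autoImplicit false

open CategoryTheory MonoidalCategory CartesianMonoidalCategory

namespace Pool.Agent.V5helper92.HC

universe u w

variable {V : Type u} [Category.{w} V] [CartesianMonoidalCategory V] {C : Chow V} {dim : V → ℕ}
  {d : ℕ}

section

variable {X Y : V} {hX : C.A X} {hY : C.A Y}

/-- the section over a point of `Y` -/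
def sec' (X : V) {Y : V} (t : 𝟙_ V ⟶ Y) : X ⟶ X ⊗ (Y ⊗ 𝟙_ V) := sec X t ≫ (X ◁ (ρ_ Y).inv)

lemma sec'_fst (t : 𝟙_ V ⟶ Y) : sec' X t ≫ fst X (Y ⊗ 𝟙_ V) = 𝟙 X := by
  rw [sec', Category.assoc, whiskerLeft_fst, sec_fst]

lemma sec'_snd (t : 𝟙_ V ⟶ Y) :
    sec' X t ≫ snd X (Y ⊗ 𝟙_ V) = toUnit X ≫ t ≫ (ρ_ Y).inv := by
  rw [sec', Category.assoc, whiskerLeft_snd, ← Category.assoc, sec_snd, Category.assoc]

lemma const_zero (hD : C.HasDim dim) (t u : 𝟙_ V ⟶ Y) {n : ℕ} (a : C.A (Y ⊗ 𝟙_ V))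
    (ha : a ∈ C.gr (Y ⊗ 𝟙_ V) n) (l : ℕ) :
    C.pull (sec' X t) (C.pull (snd X (Y ⊗ 𝟙_ V)) a * C.pull (fst X (Y ⊗ 𝟙_ V)) hX ^ l) =
      C.pull (sec' X u) (C.pull (snd X (Y ⊗ 𝟙_ V)) a * C.pull (fst X (Y ⊗ 𝟙_ V)) hX ^ l) := by
  have e1 : ∀ t : 𝟙_ V ⟶ Y, C.pull (sec' X t) (C.pull (fst X (Y ⊗ 𝟙_ V)) hX) = hX := by
    intro t
    rw [← C.pull_comp, sec'_fst, C.pull_id]
  have e2 : ∀ t : 𝟙_ V ⟶ Y, C.pull (sec' X t) (C.pull (snd X (Y ⊗ 𝟙_ V)) a) =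
      C.pull (toUnit X) (C.pull (t ≫ (ρ_ Y).inv) a) := by
    intro t
    rw [← C.pull_comp, sec'_snd, C.pull_comp]
  have e3 : C.pull (t ≫ (ρ_ Y).inv) a = C.pull (u ≫ (ρ_ Y).inv) a := by
    rcases n with _ | n
    · obtain ⟨q, rfl⟩ := hD.zero a ha
      rw [map_smul, map_smul, map_one, map_one]
    · have e4 : ∀ f : 𝟙_ V ⟶ Y ⊗ 𝟙_ V, C.pull f a = 0 := fun f =>
        hD.top (n + 1) _ (C.pull_mem f _ _ ha) (by rw [hD.unit]; omega)
      rw [e4, e4]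
  rw [map_mul, map_mul, map_pow, map_pow, e1, e1, e2, e2, e3]

lemma const_one (hD : C.HasDim dim) (hY1 : hY ∈ C.gr Y 1) (t u : 𝟙_ V ⟶ Y)
    (a : C.A (X ⊗ 𝟙_ V)) (l : ℕ) :
    C.pull (sec' X t) (C.pull (X ◁ snd Y (𝟙_ V)) a *
        C.pull (snd X (Y ⊗ 𝟙_ V)) (C.pull (fst Y (𝟙_ V)) hY) ^ l) =
      C.pull (sec' X u) (C.pull (X ◁ snd Y (𝟙_ V)) a *
        C.pull (snd X (Y ⊗ 𝟙_ V)) (C.pull (fst Y (𝟙_ V)) hY) ^ l) := by
  have e1 : ∀ t : 𝟙_ V ⟶ Y,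
      C.pull (sec' X t) (C.pull (snd X (Y ⊗ 𝟙_ V)) (C.pull (fst Y (𝟙_ V)) hY)) = 0 := by
    intro t
    rw [← C.pull_comp, sec'_snd, C.pull_comp,
      hD.mem_unit 0 (C.pull (t ≫ (ρ_ Y).inv) (C.pull (fst Y (𝟙_ V)) hY))
        (C.pull_mem _ _ _ (C.pull_mem _ _ _ hY1)), map_zero]
  have e2 : sec' X t ≫ (X ◁ snd Y (𝟙_ V)) = sec' X u ≫ (X ◁ snd Y (𝟙_ V)) := by
    apply hom_ext
    · rw [Category.assoc, Category.assoc, whiskerLeft_fst, sec'_fst, sec'_fst]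
    · exact toUnit_unique _ _
  rw [map_mul, map_mul, map_pow, map_pow, e1, e1, ← C.pull_comp, e2, C.pull_comp]

end

variable {G : Hypersurfaces C d}

/-- a decomposable family is constant -/
theorem rigid_of_kuenneth (hG : ProductGeometry dim G) (F F₂ : BForm d) (i : ℕ)
    (h : Kuenneth G [F, F₂] i) : C.Rigid (G.X F₂.form) (G.X F.form) i := by
  have hD := hG.hasDim
  intro c hc t u
  -- the classes with the same restrictions
  let K : Submodule ℚ (C.A (prod G [F, F₂])) :=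
    LinearMap.eqLocus (C.pull (sec' (G.X F.form) t)).toLinearMap
      (C.pull (sec' (G.X F.form) u)).toLinearMap
  have hle : Decomposable G [F, F₂] i ≤ K := by
    rw [Decomposable, Submodule.span_le]
    rintro _ ⟨k, hk, l, hl, a, ha, rfl⟩
    rcases k with _ | _ | k
    · exact const_zero hD t u a ha l
    · exact const_one hD (hG.codim_h _) t u a l
    · simp at hk
  have h2 := hle (h (C.pull (G.X F.form ◁ (ρ_ (G.X F₂.form)).hom) c) (C.pull_mem _ _ _ hc))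
  have h3 : C.pull (sec' (G.X F.form) t) (C.pull (G.X F.form ◁ (ρ_ (G.X F₂.form)).hom) c) =
      C.pull (sec' (G.X F.form) u) (C.pull (G.X F.form ◁ (ρ_ (G.X F₂.form)).hom) c) := h2
  have h5 : ∀ t, sec' (G.X F.form) t ≫ (G.X F.form ◁ (ρ_ (G.X F₂.form)).hom) =
      sec (G.X F.form) t := by
    intro t
    rw [sec', Category.assoc, ← whiskerLeft_comp, Iso.inv_hom_id, whiskerLeft_id,
      Category.comp_id]
  rw [← C.pull_comp, ← C.pull_comp, h5, h5] at h3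
  exact h3

end Pool.Agent.V5helper92.HC
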