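import Pool.Agent.V5helper92.HC.Eig

/-!
# Small defects vanish
-/

set_option autoImplicit false

open CategoryTheory

namespace Pool.Agent.V5helper92.HC

universe u w

variable {V : Type u} [Category.{w} V] {C : Chow V} {d : ℕ} (G : HypGeometry C d)

/-- Hartshorne's conjecture in codimension `i` for the hypersurface of `S`: every class of
codimension `i` is a rational multiple of `h ^ i`. -/
def HypGeometry.Triv {σ : Type} [Fintype σ] (S : SForm σ d) (i : ℕ) : Prop :=
  ∀ a ∈ C.gr (G.X S) i, ∃ q : ℚ, a = q • G.h S ^ i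

/-- Hartshorne's conjecture for all smooth hypersurfaces of degree `d` (and dimension at least one). -/
def HypGeometry.Hartshorne : Prop :=
  ∀ {σ : Type} [Fintype σ] (S : SForm σ d) (i : ℕ), 2 * i < S.dim → G.Triv S i

variable {G} {σ : Type} [Fintype σ]

lemma triv_iff {S : SForm σ d} {i : ℕ} : G.Triv S i ↔ G.defect S i = 0 := by
  rw [HypGeometry.defect_eq, Qt.rank_zero_iff]
  constructor
  · intro h a ha
    obtain ⟨q, rfl⟩ := h a ha
    exact Submodule.smul_mem _ _ (Submodule.mem_span_singleton_self _)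
  · intro h a ha
    obtain ⟨q, hq⟩ := Submodule.mem_span_singleton.mp (h ha)
    exact ⟨q, hq.symm⟩

lemma dim_ext (S : SForm σ d) (m : ℕ) : (S.ext (Fin m × Bool)).dim = S.dim + 2 * m := by
  have := S.card
  rw [SForm.dim, SForm.dim, Fintype.card_sum, Fintype.card_prod, Fintype.card_fin,
    Fintype.card_bool]
  omega

theorem growth' (S : SForm σ d) {i : ℕ} (hi : i ≤ S.dim) (m : ℕ) :
    (((d - 1) ^ (2 * m) : ℕ) : Cardinal) * G.defect S i ≤
      (((m + 1) ^ (d - 1) : ℕ) : Cardinal) * G.defect (S.ext (Fin m × Bool)) (i + m) := by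
  have : NeZero d := ⟨by have := S.deg; omega⟩
  exact growth G S hi m

/-- a defect which is small at one level vanishes -/
theorem triv_iff_small (S : SForm σ d) {i : ℕ} (hi : i ≤ S.dim) :
    G.Triv S i ↔ ∃ m : ℕ, (((m + 1) ^ (d - 1) : ℕ) : Cardinal) *
      G.defect (S.ext (Fin m × Bool)) (i + m) < (((d - 1) ^ (2 * m) : ℕ) : Cardinal) := by
  have : NeZero d := ⟨by have := S.deg; omega⟩
  rw [triv_iff]
  constructor
  · intro h
    refine ⟨0, ?_⟩
    have h1 : G.defect (S.ext (Fin 0 × Bool)) i ≤ G.defect S i := by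
      rw [← rank_W, ← rank_W]
      exact LinearMap.rank_le_of_injective _ (plC_inj G (extEmpty S (Fin 0 × Bool)) i)
    rw [h] at h1
    have h2 : G.defect (S.ext (Fin 0 × Bool)) (i + 0) = 0 := le_antisymm h1 zero_le
    rw [h2, mul_zero, mul_zero, pow_zero]
    simp
  · rintro ⟨m, hm⟩
    by_contra h0
    have h1 : 1 ≤ G.defect S i := Cardinal.one_le_iff_ne_zero.mpr h0
    have h2 := growth G S hi m
    refine absurd (lt_of_le_of_lt h2 hm) (not_lt.mpr ?_)
    calc (((d - 1) ^ (2 * m) : ℕ) : Cardinal) = (((d - 1) ^ (2 * m) : ℕ) : Cardinal) * 1 :=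
          (mul_one _).symm
      _ ≤ _ := mul_le_mul_right h1 _

/-- **A weak upper bound implies the conjecture.** -/
theorem hartshorne_iff (hd : 2 ≤ d) : G.Hartshorne ↔
    ∀ n N : ℕ, ∃ k, N ≤ k ∧ ∀ (σ : Type) [Fintype σ] (S : SForm σ d), S.dim = n + 2 * k →
      ∀ i, 2 * i < S.dim →
        (((S.dim + 1) ^ d : ℕ) : Cardinal) * G.defect S i ≤ (((d - 1) ^ S.dim : ℕ) : Cardinal) := by
  constructor
  · intro h n N
    refine ⟨N, le_rfl, fun σ _ S _ i hi => ?_⟩
    rw [triv_iff.mp (h S i hi), mul_zero]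
    exact zero_le
  · intro h σ _ S i hi
    rw [triv_iff]
    by_contra h0
    have h1 : 1 ≤ G.defect S i := Cardinal.one_le_iff_ne_zero.mpr h0
    obtain ⟨k, hk, hb⟩ := h S.dim ((d - 1) ^ S.dim)
    have hdim := dim_ext S k
    have h2 := growth' (G := G) S (by omega : i ≤ S.dim) k
    have h3 := hb _ (S.ext (Fin k × Bool)) hdim (i + k) (by omega)
    rw [hdim] at h3
    have h4 : (((d - 1) ^ (2 * k) * (S.dim + 2 * k + 1) ^ d : ℕ) : Cardinal) ≤
        (((k + 1) ^ (d - 1) * (d - 1) ^ (S.dim + 2 * k) : ℕ) : Cardinal) := by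
      calc (((d - 1) ^ (2 * k) * (S.dim + 2 * k + 1) ^ d : ℕ) : Cardinal)
          = (((S.dim + 2 * k + 1) ^ d : ℕ) : Cardinal) *
              ((((d - 1) ^ (2 * k) : ℕ) : Cardinal) * 1) := by
            rw [mul_one, Nat.cast_mul, mul_comm]
        _ ≤ (((S.dim + 2 * k + 1) ^ d : ℕ) : Cardinal) *
              ((((d - 1) ^ (2 * k) : ℕ) : Cardinal) * G.defect S i) := by gcongr
        _ ≤ (((S.dim + 2 * k + 1) ^ d : ℕ) : Cardinal) * ((((k + 1) ^ (d - 1) : ℕ) : Cardinal) *
              G.defect (S.ext (Fin k × Bool)) (i + k)) := by gcongr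
        _ = (((k + 1) ^ (d - 1) : ℕ) : Cardinal) * ((((S.dim + 2 * k + 1) ^ d : ℕ) : Cardinal) *
              G.defect (S.ext (Fin k × Bool)) (i + k)) := by ring
        _ ≤ (((k + 1) ^ (d - 1) : ℕ) : Cardinal) *
              (((d - 1) ^ (S.dim + 2 * k) : ℕ) : Cardinal) := by gcongr
        _ = _ := by rw [Nat.cast_mul]
    have h5 : (d - 1) ^ (2 * k) * (S.dim + 2 * k + 1) ^ d ≤
        (k + 1) ^ (d - 1) * (d - 1) ^ (S.dim + 2 * k) := by exact_mod_cast h4
    have hpos : 0 < (d - 1) ^ (2 * k) := Nat.pow_pos (by omega)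
    have h6 : (S.dim + 2 * k + 1) ^ d ≤ (k + 1) ^ (d - 1) * (d - 1) ^ S.dim := by
      apply Nat.le_of_mul_le_mul_left _ hpos
      calc (d - 1) ^ (2 * k) * (S.dim + 2 * k + 1) ^ d ≤
          (k + 1) ^ (d - 1) * (d - 1) ^ (S.dim + 2 * k) := h5
        _ = _ := by rw [pow_add]; ring
    have h7 : (k + 1) ^ (d - 1) * (k + 1) ≤ (S.dim + 2 * k + 1) ^ d := by
      rw [← pow_succ, Nat.sub_add_cancel (by omega)]
      exact Nat.pow_le_pow_left (by omega) d
    have h8 := Nat.le_of_mul_le_mul_left (h7.trans h6) (Nat.pow_pos (by omega))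
    omega

end Pool.Agent.V5helper92.HC
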