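import Pool.Agent.V5helper92.HC.Adequate

/-!
# Numerically trivial and smash-nilpotent classes
-/

set_option autoImplicit false

open CategoryTheory MonoidalCategory CartesianMonoidalCategory

namespace Pool.Agent.V5helper92.HC

universe u w

variable {V : Type u} [Category.{w} V] [CartesianMonoidalCategory V]

/-- The power `X ^ m`. -/
def pw (X : V) : ℕ → V
  | 0 => 𝟙_ V
  | m + 1 => pw X m ⊗ X

/-- The `m`-fold exterior product `a × ... × a`, a class on `X ^ m`. -/
def ext (C : Chow V) {X : V} (a : C.A X) : (m : ℕ) → C.A (pw X m)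
  | 0 => 1
  | m + 1 => C.pb (fst (pw X m) X) (ext C a m) * C.pb (snd (pw X m) X) a

/-- The class `a` is smash-nilpotent: `a × ... × a = 0` on some power `X ^ m`. -/
def SmashNilpotent (C : Chow V) {X : V} (a : C.A X) : Prop := ∃ m : ℕ, 0 < m ∧ ext C a m = 0

/-- The class `a` is numerically trivial: `deg (a · b) = 0` for all classes `b`. -/
def NumTrivial (C : Chow V) {X : V} (a : C.A X) : Prop := ∀ b : C.A X, C.pf (toUnit X) (a * b) = 0

/-- Voevodsky's conjecture for `X`: every numerically trivial class is smash-nilpotent. -/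
def Voevodsky (C : Chow V) (X : V) : Prop := ∀ a : C.A X, NumTrivial C a → SmashNilpotent C a

variable {C : Chow V} {X Y Z : V}

/-- the projections of the power -/
def proj (X : V) : (m : ℕ) → Fin m → (pw X m ⟶ X)
  | 0 => fun k => k.elim0
  | m + 1 => Fin.lastCases (snd (pw X m) X) fun k => fst (pw X m) X ≫ proj X m k

lemma proj_castSucc (X : V) (m : ℕ) (k : Fin m) :
    proj X (m + 1) k.castSucc = fst (pw X m) X ≫ proj X m k := by
  simp only [proj, Fin.lastCases_castSucc]
  rfl

lemma proj_last (X : V) (m : ℕ) : proj X (m + 1) (Fin.last m) = snd (pw X m) X := by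
  simp only [proj, Fin.lastCases_last]

lemma ext_eq (a : C.A X) : ∀ m : ℕ, ext C a m = ∏ k, C.pull (proj X m k) a
  | 0 => by
    rw [ext]
    exact (Finset.prod_of_isEmpty _).symm
  | m + 1 => by
    rw [ext, ext_eq a m, Fin.prod_univ_castSucc]
    change C.pull (fst (pw X m) X) _ * C.pull (snd (pw X m) X) a = _
    rw [map_prod]
    congr 1
    · refine Finset.prod_congr rfl fun k _ => ?_
      rw [← C.pull_comp, ← proj_castSucc]
      rfl
    · rw [← proj_last]
      rfl

/-- the map to the power -/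
def tup {Z X : V} : (m : ℕ) → (Fin m → (Z ⟶ X)) → (Z ⟶ pw X m)
  | 0, _ => toUnit Z
  | m + 1, f => lift (tup m fun k => f k.castSucc) (f (Fin.last m))

lemma pull_tup (a : C.A X) : ∀ (m : ℕ) (f : Fin m → (Z ⟶ X)),
    C.pull (tup m f) (ext C a m) = ∏ k, C.pull (f k) a
  | 0, f => by
    rw [ext, map_one]
    exact (Finset.prod_of_isEmpty _).symm
  | m + 1, f => by
    rw [ext, Fin.prod_univ_castSucc, tup]
    change C.pull _ (C.pull (fst (pw X m) X) _ * C.pull (snd (pw X m) X) a) = _
    rw [map_mul, ← C.pull_comp, ← C.pull_comp, lift_fst, lift_snd, pull_tup a m]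

lemma smash_iff (a : C.A X) : SmashNilpotent C a ↔
    ∃ m : ℕ, 0 < m ∧ ∀ (Z : V) (f : Fin m → (Z ⟶ X)), ∏ k, C.pull (f k) a = 0 := by
  constructor
  · rintro ⟨m, hm, h⟩
    refine ⟨m, hm, fun Z f => ?_⟩
    rw [← pull_tup, h, map_zero]
  · rintro ⟨m, hm, h⟩
    refine ⟨m, hm, ?_⟩
    rw [ext_eq]
    exact h _ _

omit [CartesianMonoidalCategory V] in
lemma prod_zero {a : C.A X} {m : ℕ}
    (h : ∀ (Z : V) (f : Fin m → (Z ⟶ X)), ∏ k, C.pull (f k) a = 0) {ι : Type} (s : Finset ι)
    (hs : m ≤ s.card) (f : ι → (Z ⟶ X)) : ∏ k ∈ s, C.pull (f k) a = 0 := by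
  classical
  obtain ⟨t, ht, hm⟩ := Finset.exists_subset_card_eq hs
  rw [← Finset.prod_sdiff ht]
  have h1 : ∏ k ∈ t, C.pull (f k) a = 0 := by
    have h2 := h Z fun k => f ((t.equivFinOfCardEq hm).symm k).1
    rw [← Finset.prod_coe_sort, ← h2]
    exact Fintype.prod_equiv (t.equivFinOfCardEq hm) _ _ fun x => by
      rw [Equiv.symm_apply_apply]
  rw [h1, mul_zero]

lemma SmashNilpotent.add {a b : C.A X} (ha : SmashNilpotent C a) (hb : SmashNilpotent C b) :
    SmashNilpotent C (a + b) := by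
  classical
  rw [smash_iff] at ha hb ⊢
  obtain ⟨m, hm, ha⟩ := ha
  obtain ⟨n, hn, hb⟩ := hb
  refine ⟨m + n, by omega, fun Z f => ?_⟩
  simp only [map_add]
  rw [Finset.prod_add]
  refine Finset.sum_eq_zero fun s _ => ?_
  by_cases hs : m ≤ s.card
  · rw [prod_zero ha s hs, zero_mul]
  · rw [prod_zero hb (Finset.univ \ s) _, mul_zero]
    rw [Finset.card_sdiff_of_subset (Finset.subset_univ s), Finset.card_univ, Fintype.card_fin]
    omega

lemma SmashNilpotent.zero : SmashNilpotent C (0 : C.A X) := by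
  rw [smash_iff]
  refine ⟨1, one_pos, fun Z f => ?_⟩
  rw [Fin.prod_univ_one, map_zero]

lemma SmashNilpotent.mul {a : C.A X} (ha : SmashNilpotent C a) (b : C.A X) :
    SmashNilpotent C (a * b) := by
  rw [smash_iff] at ha ⊢
  obtain ⟨m, hm, ha⟩ := ha
  refine ⟨m, hm, fun Z f => ?_⟩
  simp only [map_mul]
  rw [Finset.prod_mul_distrib, ha, zero_mul]

lemma SmashNilpotent.pull {a : C.A Y} (ha : SmashNilpotent C a) (g : X ⟶ Y) :
    SmashNilpotent C (C.pull g a) := by
  rw [smash_iff] at ha ⊢
  obtain ⟨m, hm, ha⟩ := ha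
  refine ⟨m, hm, fun Z f => ?_⟩
  simp only [← C.pull_comp]
  exact ha Z fun k => f k ≫ g

/-- the map of the powers -/
def pwMap (g : X ⟶ Y) : (m : ℕ) → (pw X m ⟶ pw Y m)
  | 0 => 𝟙 _
  | m + 1 => (pw X m ◁ g) ≫ (pwMap g m ▷ Y)

lemma ext_push (hP : C.Products) (g : X ⟶ Y) (a : C.A X) :
    ∀ m : ℕ, ext C (C.push g a) m = C.push (pwMap g m) (ext C a m)
  | 0 => by
    rw [ext, ext, pwMap]
    exact (C.push_id _ _).symm
  | m + 1 => by
    rw [ext, ext_push hP g a m, ext, pwMap]
    change C.pull (fst (pw Y m) Y) (C.push (pwMap g m) (ext C a m)) *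
      C.pull (snd (pw Y m) Y) (C.push g a) = C.push _ (C.pull (fst (pw X m) X) (ext C a m) *
        C.pull (snd (pw X m) X) a)
    have e1 : C.pull (pwMap g m ▷ Y) (C.pull (snd (pw Y m) Y) (C.push g a)) =
        C.push (pw X m ◁ g) (C.pull (snd (pw X m) X) a) := by
      rw [← C.pull_comp, whiskerRight_snd, hP.flatSnd]
    have e2 : C.pull (pw X m ◁ g) (C.pull (fst (pw X m) Y) (ext C a m)) =
        C.pull (fst (pw X m) X) (ext C a m) := by
      rw [← C.pull_comp, whiskerLeft_fst]
    have e3 := C.push_comp (pw X m ◁ g) (pwMap g m ▷ Y)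
      (C.pull (fst (pw X m) X) (ext C a m) * C.pull (snd (pw X m) X) a)
    rw [hP.flatFst, ← C.proj, e1]
    refine Eq.trans ?_ e3.symm
    rw [← e2, mul_comm, ← C.proj, mul_comm]

lemma SmashNilpotent.push (hP : C.Products) {a : C.A X} (ha : SmashNilpotent C a) (g : X ⟶ Y) :
    SmashNilpotent C (C.push g a) := by
  obtain ⟨m, hm, h⟩ := ha
  exact ⟨m, hm, by rw [ext_push hP, h, map_zero]⟩

/-- the smash-nilpotent classes -/
def smash (C : Chow V) (X : V) : Submodule ℚ (C.A X) where
  carrier := {a | SmashNilpotent C a}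
  add_mem' ha hb := SmashNilpotent.add ha hb
  zero_mem' := SmashNilpotent.zero
  smul_mem' q a ha := by
    change SmashNilpotent C (q • a)
    rw [← mul_one a, ← mul_smul_comm]
    exact ha.mul _

/-- the numerically trivial classes -/
def num (C : Chow V) (X : V) : Submodule ℚ (C.A X) where
  carrier := {a | NumTrivial C a}
  add_mem' {a b} ha hb := fun y => by
    have h1 : C.push (toUnit X) (a * y) = 0 := ha y
    have h2 : C.push (toUnit X) (b * y) = 0 := hb y
    change C.push (toUnit X) ((a + b) * y) = 0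
    rw [add_mul, map_add, h1, h2, add_zero]
  zero_mem' := fun y => by
    change C.push (toUnit X) (0 * y) = 0
    rw [zero_mul, map_zero]
  smul_mem' q a ha := fun y => by
    have h1 : C.push (toUnit X) (a * y) = 0 := ha y
    change C.push (toUnit X) ((q • a) * y) = 0
    rw [smul_mul_assoc, map_smul, h1, smul_zero]

theorem smash_adequate (hP : C.Products) : IsAdequate C (smash C) where
  pull f _ hy := SmashNilpotent.pull hy f
  push f _ hx := SmashNilpotent.push hP hx f
  mul _ y hx := SmashNilpotent.mul hx y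

theorem num_adequate : IsAdequate C (num C) where
  pull {X Y} f y hy := fun b => by
    change C.push (toUnit X) (C.pull f y * b) = 0
    have h1 : C.push (toUnit Y) (y * C.push f b) = 0 := hy _
    rw [mul_comm, show toUnit X = f ≫ toUnit Y from toUnit_unique _ _, C.push_comp, C.proj,
      mul_comm, h1]
  push {X Y} f x hx := fun b => by
    change C.push (toUnit Y) (C.push f x * b) = 0
    have h1 : C.push (toUnit X) (x * C.pull f b) = 0 := hx _
    rw [← C.proj, ← C.push_comp, toUnit_unique (f ≫ toUnit Y) (toUnit X), h1]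
  mul {X} x y hx := fun b => by
    change C.push (toUnit X) (x * y * b) = 0
    rw [mul_assoc]
    exact hx _

lemma voevodsky_iff (X : V) : Voevodsky C X ↔ num C X ≤ smash C X := Iff.rfl

end Pool.Agent.V5helper92.HC
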