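import Pool.Agent.V5helper92.HC.Kuenneth2
import Pool.Agent.V5helper92.HC.Smash

/-!
# Tensor products of the primitive motives of hypersurfaces
-/

set_option autoImplicit false

open CategoryTheory MonoidalCategory CartesianMonoidalCategory

namespace Pool.Agent.V5helper92.HC

universe u w

variable {V : Type u} [Category.{w} V] [CartesianMonoidalCategory V] {C : Chow V} {dim : V → ℕ}
  {d : ℕ}

/-- The class `z` on the product `X_1 × ... × X_r` is totally primitive: for all `k` and `l` the push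
forward of `z · h_k ^ l` to the product of the other factors is zero. -/
def TotPrim (G : Hypersurfaces C d) (L : List (BForm d)) (z : C.A (prod G L)) : Prop :=
  ∀ k < L.length, ∀ l : ℕ, C.pf (forget G L k) (z * hcl G L k ^ l) = 0

section join

variable {X Y J : V} {hX : C.A X} {hY : C.A Y} {hJ : C.A J} (j : Join C dim d hX hY hJ)

/-- the join of a primitive class is primitive -/
lemma Join.push_up_snd (hP : C.Products) (hD : C.HasDim dim) (Z : V)
    (z : C.A (X ⊗ (Y ⊗ Z)))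
    (h : ∀ l : ℕ, C.push (snd X (Y ⊗ Z)) (z * C.pull (fst X (Y ⊗ Z)) hX ^ l) = 0) (l : ℕ) :
    C.push (snd J Z) (j.up Z z * C.pull (fst J Z) hJ ^ l) = 0 := by
  have e2 : C.pull ((j.i ≫ j.β) ▷ Z) (C.pull (fst J Z) hJ) =
      C.pull (fst j.D Z) (C.pull (j.i ≫ j.β) hJ) := by
    rw [← C.pull_comp, ← C.pull_comp, whiskerRight_fst]
  have e3 : ((j.i ≫ j.β) ▷ Z) ≫ snd J Z = (j.π ▷ Z) ≫ snd (X ⊗ Y) Z := by
    rw [whiskerRight_snd, whiskerRight_snd]
  have e4 : ∀ y : C.A (X ⊗ (Y ⊗ Z)), C.push (snd (X ⊗ Y) Z) (C.pull (α_ X Y Z).hom y) =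
      C.push (snd Y Z) (C.push (snd X (Y ⊗ Z)) y) := by
    intro y
    rw [← C.push_comp, ← associator_hom_snd_snd, C.push_comp, hP.push_pull, C.push_comp]
  have f1 : C.pull (fst (X ⊗ Y) Z) (C.pull (fst X Y) hX) =
      C.pull (α_ X Y Z).hom (C.pull (fst X (Y ⊗ Z)) hX) := by
    rw [← C.pull_comp, ← C.pull_comp, associator_hom_fst]
  have f2 : C.pull (fst (X ⊗ Y) Z) (C.pull (snd X Y) hY) =
      C.pull (α_ X Y Z).hom (C.pull (snd X (Y ⊗ Z)) (C.pull (fst Y Z) hY)) := by
    rw [← C.pull_comp, ← C.pull_comp, ← C.pull_comp, Category.assoc, associator_hom_snd_fst]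
  have e5 : C.push (snd J Z) (j.up Z z * C.pull (fst J Z) hJ ^ l) =
      C.push (snd (X ⊗ Y) Z) (C.pull (fst (X ⊗ Y) Z)
        (C.push j.π (C.pull (j.i ≫ j.β) hJ ^ l)) * C.pull (α_ X Y Z).hom z) := by
    rw [Join.up, ← C.proj, ← C.push_comp, map_pow, e2, e3, C.push_comp, ← map_pow,
      mul_comm (C.pull (j.π ▷ Z) _), C.proj, ← hP.flatFst]
  rw [e5, j.push_pow hD, map_sum, Finset.sum_mul, map_sum]
  refine Finset.sum_eq_zero fun a _ => ?_
  have e6 : C.pull (fst (X ⊗ Y) Z)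
      (C.pull (fst X Y) hX ^ a * C.pull (snd X Y) hY ^ (l - 1 - a)) * C.pull (α_ X Y Z).hom z =
      C.pull (α_ X Y Z).hom (z * C.pull (fst X (Y ⊗ Z)) hX ^ a *
        C.pull (snd X (Y ⊗ Z)) (C.pull (fst Y Z) hY ^ (l - 1 - a))) := by
    rw [map_mul, map_pow, map_pow, f1, f2]
    simp only [map_mul, map_pow]
    ring
  rw [e6, e4, C.proj, h, zero_mul, map_zero]

/-- the join commutes with push-forwards from `Z` to `Z'` -/
lemma Join.push_up (hP : C.Products) {Z Z' : V} (f : Z ⟶ Z') (z : C.A (X ⊗ (Y ⊗ Z)))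
    (b : C.A Z) :
    C.push (J ◁ f) (j.up Z z * C.pull (snd J Z) b) =
      j.up Z' (C.push (X ◁ (Y ◁ f)) (z * C.pull (snd X (Y ⊗ Z)) (C.pull (snd Y Z) b))) := by
  have e1 : C.pull ((j.i ≫ j.β) ▷ Z) (C.pull (snd J Z) b) =
      C.pull (j.π ▷ Z) (C.pull (snd (X ⊗ Y) Z) b) := by
    rw [← C.pull_comp, ← C.pull_comp, whiskerRight_snd, whiskerRight_snd]
  have e2 : ((j.i ≫ j.β) ▷ Z) ≫ (J ◁ f) = (j.D ◁ f) ≫ ((j.i ≫ j.β) ▷ Z') :=
    (whisker_exchange _ _).symm
  have e3 : ∀ y : C.A ((X ⊗ Y) ⊗ Z), C.pull (j.π ▷ Z') (C.push ((X ⊗ Y) ◁ f) y) =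
      C.push (j.D ◁ f) (C.pull (j.π ▷ Z) y) := fun y => hP.left _ _ _
  have f3 : C.pull (snd (X ⊗ Y) Z) b =
      C.pull (α_ X Y Z).hom (C.pull (snd X (Y ⊗ Z)) (C.pull (snd Y Z) b)) := by
    rw [← C.pull_comp, ← C.pull_comp, Category.assoc, associator_hom_snd_snd]
  have f4 : ∀ y : C.A (X ⊗ (Y ⊗ Z)), C.push ((X ⊗ Y) ◁ f) (C.pull (α_ X Y Z).hom y) =
      C.pull (α_ X Y Z').hom (C.push (X ◁ (Y ◁ f)) y) := by
    intro y
    rw [hP.pull_eq, hP.pull_eq, ← C.push_comp, ← C.push_comp, associator_inv_naturality_right]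
  rw [Join.up, Join.up, ← C.proj, e1, ← C.push_comp, e2, C.push_comp, ← map_mul, ← e3, f3,
    ← map_mul, f4]

end join

lemma unit_zero (hP : C.Products) {X : V} {hX : C.A X} (z : C.A (X ⊗ 𝟙_ V))
    (h1 : ∀ l : ℕ, C.push (snd X (𝟙_ V)) (z * C.pull (fst X (𝟙_ V)) hX ^ l) = 0)
    (h : (∀ l : ℕ, C.push (toUnit X) (C.pull (ρ_ X).inv z * hX ^ l) = 0) →
      C.pull (ρ_ X).inv z = 0) : z = 0 := by
  have h2 := h (by
    intro l
    have e1 : hX = C.pull (ρ_ X).inv (C.pull (fst X (𝟙_ V)) hX) := by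
      rw [← C.pull_comp, ← rightUnitor_hom, Iso.inv_hom_id, C.pull_id]
    have e2 : ∀ y, C.pull (ρ_ X).inv y = C.push (ρ_ X).hom y := fun y =>
      hP.pull_eq (ρ_ X).symm y
    rw [e1, ← map_pow, ← map_mul, e2, ← C.push_comp,
      toUnit_unique ((ρ_ X).hom ≫ toUnit X) (snd X (𝟙_ V)), h1])
  have h3 := congrArg (C.pull (ρ_ X).hom) h2
  rwa [← C.pull_comp, Iso.hom_inv_id, C.pull_id, map_zero] at h3

variable {G : Hypersurfaces C d} (hG : ProductGeometry dim G)

include hG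

lemma totPrim_up (F F₂ : BForm d) (L : List (BForm d))
    (j : Join C dim d (G.h F.form) (G.h F₂.form) (G.h (F.add F₂).form))
    (z : C.A (prod G (F :: F₂ :: L))) (h : TotPrim G (F :: F₂ :: L) z) :
    TotPrim G (F.add F₂ :: L) (j.up (prod G L) z) := by
  intro k hk l
  rcases k with _ | k
  · exact j.push_up_snd hG.products hG.hasDim (prod G L) z (fun l => h 0 (by simp) l) l
  · have e1 := j.push_up hG.products (forget G L k) z (hcl G L k ^ l)
    have e2 := h (k + 2) (by simpa using hk) l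
    have e3 : C.push (G.X F.form ◁ (G.X F₂.form ◁ forget G L k)) (z *
        C.pull (snd _ _) (C.pull (snd _ _) (hcl G L k ^ l))) = 0 := by
      rw [map_pow, map_pow]
      exact e2
    have e4 : j.up (prod G (L.eraseIdx k)) 0 = 0 := by
      rw [Join.up, map_zero, map_zero, map_zero]
    have e5 : C.push (G.X (F.add F₂).form ◁ forget G L k) (j.up (prod G L) z *
        C.pull (snd _ _) (hcl G L k ^ l)) = 0 := e1.trans ((congrArg _ e3).trans e4)
    rw [map_pow] at e5
    exact e5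

/-- the classes on the tensor product of primitive motives are determined by their joins -/
theorem vanish_prod {E : ∀ X : V, Submodule ℚ (C.A X)} (hE : IsAdequate C E)
    (L : List (BForm d)) : ∀ (F : BForm d) (i : ℕ),
    (∀ a ∈ C.gr (G.X (total F L).form) (i + L.length), a ∈ E (G.X (total F L).form) →
      (∀ l : ℕ, C.push (toUnit _) (a * G.h (total F L).form ^ l) = 0) → a = 0) →
    ∀ z ∈ C.gr (prod G (F :: L)) i, z ∈ E (prod G (F :: L)) → TotPrim G (F :: L) z → z = 0 := by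
  have hD := hG.hasDim
  have hP := hG.products
  induction L with
  | nil =>
    intro F i h z hz hzE hzP
    exact unit_zero hP z (fun l => hzP 0 (by simp) l) fun hl =>
      h (C.pull (ρ_ (G.X F.form)).inv z) (C.pull_mem _ _ _ hz) (hE.pull _ _ hzE) hl
  | cons F₂ L ih =>
    intro F i h z hz hzE hzP
    obtain ⟨j, hj⟩ := hG.join F.form F₂.form
    have hd : d ≠ 0 := by
      have := F.form.deg
      omega
    have h1 : j.up (prod G L) z = 0 := by
      refine ih (F.add F₂) (i + 1) ?_ _ (j.up_mem hD _ hz)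
        (hE.push _ _ (hE.pull _ _ (hE.pull _ _ hzE))) (totPrim_up hG F F₂ L j z hzP)
      have e : i + 1 + L.length = i + (F₂ :: L).length := by
        rw [List.length_cons]
        omega
      rw [e]
      exact h
    have h2 : j.down (prod G L) (j.up (prod G L) z) = -((d : ℚ) • z) :=
      j.down_up hj hP hD (prod G L) z (fun l => hzP 0 (by simp) l)
        (fun l => hzP 1 (by simp) l)
    have h3 : j.down (prod G L) 0 = 0 := by
      rw [Join.down, map_zero, map_zero, map_zero]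
    rw [h1, h3] at h2
    have b1 : (d : ℚ) ≠ 0 := by exact_mod_cast hd
    exact (smul_eq_zero.mp (neg_eq_zero.mp h2.symm)).resolve_left b1

end Pool.Agent.V5helper92.HC
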