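import Pool.Agent.V5helper92.HC.Murre

/-!
# The conjectures (B) and (D) of Murre for tensor products of primitive motives
-/

set_option autoImplicit false

open CategoryTheory MonoidalCategory CartesianMonoidalCategory

namespace Pool.Agent.V5helper92.HC

universe u w

variable {V : Type u} [Category.{w} V] [CartesianMonoidalCategory V] {C : Chow V} {dim : V → ℕ}
  {d : ℕ}

omit [CartesianMonoidalCategory V] in
theorem top_adequate : IsAdequate C fun _ => ⊤ where
  pull _ _ _ := Submodule.mem_top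
  push _ _ _ := Submodule.mem_top
  mul _ _ _ := Submodule.mem_top

variable {G : Hypersurfaces C d} (hG : ProductGeometry dim G)

include hG

lemma ProductGeometry.h_pow_mem {σ : Type} [Fintype σ] (S : SForm σ d) (k : ℕ) :
    G.h S ^ k ∈ C.gr (G.X S) k := pow_mem_gr (hG.codim_h S) k

/-- every class is primitive up to a multiple of `h ^ i` -/
lemma ProductGeometry.exists_primitive {σ : Type} [Fintype σ] {S : SForm σ d} {i : ℕ}
    (hi : i ≤ S.dim) (a : C.A (G.X S)) (ha : a ∈ C.gr (G.X S) i) :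
    ∃ q : ℚ, C.push (toUnit (G.X S)) ((a - q • G.h S ^ i) * G.h S ^ (S.dim - i)) = 0 := by
  have hD := hG.hasDim
  have h1 : C.push (toUnit (G.X S)) (a * G.h S ^ (S.dim - i)) ∈ C.gr (𝟙_ V) 0 :=
    hD.push_mem (toUnit (G.X S)) (i + (S.dim - i)) 0 _
      (C.mul_mem _ _ _ _ _ ha (hG.h_pow_mem S _)) (by rw [hD.unit, hG.dim_eq]; omega)
  obtain ⟨q, hq⟩ := hD.zero _ h1
  have hd0 : (d : ℚ) ≠ 0 := by
    have h := S.deg
    have : d ≠ 0 := by omega
    exact_mod_cast this
  have h2 : C.push (toUnit (G.X S)) (G.h S ^ S.dim) = (d : ℚ) • 1 := hG.degree S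
  refine ⟨q / d, ?_⟩
  rw [sub_mul, map_sub, hq, smul_mul_assoc, ← pow_add, Nat.add_sub_cancel' hi, map_smul, h2,
    smul_smul, div_mul_cancel₀ q hd0, sub_self]

/-- a class of codimension `i` is primitive if one number vanishes -/
lemma ProductGeometry.push_pow_zero {σ : Type} [Fintype σ] {S : SForm σ d} {i : ℕ}
    (hi : i ≤ S.dim) {a : C.A (G.X S)} (ha : a ∈ C.gr (G.X S) i)
    (h : C.push (toUnit (G.X S)) (a * G.h S ^ (S.dim - i)) = 0) (l : ℕ) :
    C.push (toUnit (G.X S)) (a * G.h S ^ l) = 0 := by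
  by_cases hl : l = S.dim - i
  · rw [hl]
    exact h
  · exact hG.hasDim.deg_zero (C.mul_mem _ _ _ _ _ ha (hG.h_pow_mem S l))
      (by rw [hG.dim_eq]; omega)

/-- a primitive class on `X` gives a totally primitive class on the product with one factor -/
lemma totPrim_one (F : BForm d) (a : C.A (G.X F.form))
    (h : ∀ l : ℕ, C.push (toUnit (G.X F.form)) (a * G.h F.form ^ l) = 0) :
    TotPrim G [F] (C.pull (fst (G.X F.form) (𝟙_ V)) a) := by
  intro k hk l
  have hk : k = 0 := by simpa using hk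
  subst hk
  have h1 : C.push (snd (G.X F.form) (𝟙_ V)) (C.pull (fst (G.X F.form) (𝟙_ V)) a *
      C.pull (fst (G.X F.form) (𝟙_ V)) (G.h F.form) ^ l) = 0 := by
    rw [← map_pow, ← map_mul, hG.products.square, h, map_zero]
  exact h1

omit hG in
lemma pull_fst_zero {X : V} {a : C.A X} (h : C.pull (fst X (𝟙_ V)) a = 0) : a = 0 := by
  have h1 := congrArg (C.pull (ρ_ X).inv) h
  rwa [← rightUnitor_hom, ← C.pull_comp, Iso.inv_hom_id, C.pull_id, map_zero] at h1

/-- a primitive multiple of `h ^ i` is zero -/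
lemma ProductGeometry.smul_zero {σ : Type} [Fintype σ] {S : SForm σ d} {i : ℕ}
    (hi : i ≤ S.dim) {q : ℚ}
    (h : C.push (toUnit (G.X S)) (q • G.h S ^ i * G.h S ^ (S.dim - i)) = 0) :
    q • G.h S ^ i = 0 := by
  have hd0 : (d : ℚ) ≠ 0 := by
    have h := S.deg
    have : d ≠ 0 := by omega
    exact_mod_cast this
  have h2 : C.push (toUnit (G.X S)) (G.h S ^ S.dim) = (d : ℚ) • 1 := hG.degree S
  rw [smul_mul_assoc, ← pow_add, Nat.add_sub_cancel' hi, map_smul, h2, smul_smul] at h
  have h3 : (q * d) • (1 : C.A (G.X S)) = 0 := by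
    have h4 := congrArg (C.pull (toUnit (G.X S))) h
    rwa [map_smul, map_one, map_zero] at h4
  have h5 : q • (1 : C.A (G.X S)) = 0 := by
    have h6 : (d : ℚ) • (q • (1 : C.A (G.X S))) = 0 := by
      rw [smul_smul, mul_comm]
      exact h3
    exact (smul_eq_zero.mp h6).resolve_left hd0
  rw [← one_mul (G.h S ^ i), ← smul_mul_assoc, h5, zero_mul]

end Pool.Agent.V5helper92.HC
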