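import Pool.Agent.V5helper92.HC.Chow
import Pool.Agent.V5helper92.HC.Alg

/-!
# The operators on the defect spaces
-/

set_option autoImplicit false

open CategoryTheory TensorProduct

namespace Pool.Agent.V5helper92.HC

universe u w

variable {V : Type u} [Category.{w} V] {C : Chow V} {d : ℕ} (G : HypGeometry C d)

variable {σ σ' σ'' : Type} [Fintype σ] [Fintype σ'] [Fintype σ'']

/-- `A^r(X) / ℚ h^r` -/
abbrev HypGeometry.B (S : SForm σ d) (r : ℕ) : Type :=
  Qt (C.gr (G.X S) r) (Submodule.span ℚ {G.h S ^ r})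

/-- `ℚ h^r` -/
def Chow.linear {X : V} (C : Chow V) (h : C.A X) (r : ℕ) : Submodule ℚ (C.A X) :=
  Submodule.span ℚ {h ^ r}

/-- The defect of the hypersurface of `S` in codimension `r`: the dimension of `A^r(X) / ℚ h^r`. -/
noncomputable def HypGeometry.defect (S : SForm σ d) (r : ℕ) : Cardinal :=
  relDim (C.gr (G.X S) r) (C.linear (G.h S) r)

lemma HypGeometry.defect_eq (S : SForm σ d) (r : ℕ) :
    G.defect S r = Module.rank ℚ (G.B S r) := rfl

lemma map_span {M M' : Type} [AddCommGroup M] [Module ℚ M] [AddCommGroup M'] [Module ℚ M']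
    (f : M →ₗ[ℚ] M') {a : M} {b : M'} (h : f a ∈ Submodule.span ℚ {b}) :
    ∀ x ∈ Submodule.span ℚ {a}, f x ∈ Submodule.span ℚ {b} := by
  intro x hx
  obtain ⟨q, rfl⟩ := Submodule.mem_span_singleton.mp hx
  rw [map_smul]
  exact Submodule.smul_mem _ _ h

/-- pull-back under an isomorphism -/
noncomputable def pl {S : SForm σ d} {S' : SForm σ' d} (L : LinIso S S') (r : ℕ) :
    G.B S' r →ₗ[ℚ] G.B S r :=
  Qt.map (C.pull (G.map L)).toLinearMap (fun x hx => C.pull_mem _ _ x hx)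
    (map_span _ (by
      change C.pull (G.map L) (G.h S' ^ r) ∈ _
      rw [map_pow, G.pull_h]
      exact Submodule.mem_span_singleton_self _))

lemma pl_refl (S : SForm σ d) (r : ℕ) : pl G (LinIso.refl S) r = LinearMap.id := by
  apply Qt.hom_ext
  intro x
  rw [pl, Qt.map_mk]
  congr 1
  apply Subtype.ext
  change C.pull (G.map (LinIso.refl S)) x = x
  rw [G.map_refl, C.pull_id]

lemma pl_trans {S : SForm σ d} {S' : SForm σ' d} {S'' : SForm σ'' d} (L : LinIso S S')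
    (L' : LinIso S' S'') (r : ℕ) : pl G (L.trans L') r = (pl G L r).comp (pl G L' r) := by
  apply Qt.hom_ext
  intro x
  rw [LinearMap.comp_apply, pl, pl, pl, Qt.map_mk, Qt.map_mk, Qt.map_mk]
  congr 1
  apply Subtype.ext
  change C.pull (G.map (L.trans L')) x = C.pull (G.map L) (C.pull (G.map L') x)
  rw [G.map_trans, C.pull_comp]

/-- the cylinder map -/
noncomputable def cy (S : SForm σ d) {r : ℕ} (hr : r ≤ S.dim) (ζ : ℂ) (hζ : ζ ^ d = -1) :
    G.B S r →ₗ[ℚ] G.B (S.ext Bool) (r + 1) :=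
  Qt.map (G.cone S ζ hζ).cyl (fun _ hx => (G.cone S ζ hζ).cyl_mem hx)
    (map_span _ (by
      rw [(G.cone S ζ hζ).cyl_pow hr]
      exact Submodule.mem_span_singleton_self _))

/-- its transpose -/
noncomputable def tcy (S : SForm σ d) (r : ℕ) (ζ : ℂ) (hζ : ζ ^ d = -1) :
    G.B (S.ext Bool) (r + 1) →ₗ[ℚ] G.B S r :=
  Qt.map (G.cone S ζ hζ).tcyl (fun _ hx => (G.cone S ζ hζ).tcyl_mem hx)
    (map_span _ (by
      rw [(G.cone S ζ hζ).tcyl_pow]
      exact Submodule.mem_span_singleton_self _))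

lemma tcy_cy_self (S : SForm σ d) {r : ℕ} (hr : r ≤ S.dim) (ζ : ℂ) (hζ : ζ ^ d = -1)
    (x : G.B S r) : tcy G S r ζ hζ (cy G S hr ζ hζ x) = (1 - (d : ℚ)) • x := by
  obtain ⟨x, rfl⟩ := Submodule.Quotient.mk_surjective _ x
  rw [tcy, cy, Qt.map_mk, Qt.map_mk, ← Submodule.Quotient.mk_smul]
  apply Qt.mk_eq
  change (G.cone S ζ hζ).tcyl ((G.cone S ζ hζ).cyl x) - (1 - (d : ℚ)) • (x : C.A (G.X S)) ∈ _
  obtain ⟨q, hq⟩ := (G.cone S ζ hζ).tcyl_cyl x.2
  rw [hq, add_sub_cancel_left]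
  exact Submodule.smul_mem _ _ (Submodule.mem_span_singleton_self _)

lemma tcy_cy_ne (S : SForm σ d) {r : ℕ} (hr : r ≤ S.dim) (ζ ζ' : ℂ) (hζ : ζ ^ d = -1)
    (hζ' : ζ' ^ d = -1) (hne : ζ ≠ ζ') (x : G.B S r) :
    tcy G S r ζ' hζ' (cy G S hr ζ hζ x) = x := by
  obtain ⟨x, rfl⟩ := Submodule.Quotient.mk_surjective _ x
  rw [tcy, cy, Qt.map_mk, Qt.map_mk]
  congr 1
  apply Subtype.ext
  change (G.cone S ζ' hζ').tcyl ((G.cone S ζ hζ).cyl x) = x
  rw [Cone.tcyl_apply, Cone.cyl_apply, G.meet S ζ ζ' hζ hζ' hne, Cone.push_sec₁, ← C.pull_comp,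
    (G.cone S ζ hζ).sec₁, C.pull_id]

lemma pl_cy {S : SForm σ d} {S' : SForm σ' d} (L : LinIso S S') {r : ℕ} (hr : r ≤ S.dim)
    (hr' : r ≤ S'.dim) (u : Bool → ℂˣ) (hu : ∀ j, u j ^ d = 1) (ζ ζ' : ℂ) (hζ : ζ ^ d = -1)
    (hζ' : ζ' ^ d = -1) (h : ζ' * u true = ζ * u false) (x : G.B S' r) :
    pl G (L.scale u hu) (r + 1) (cy G S' hr' ζ' hζ' x) = cy G S hr ζ hζ (pl G L r x) := by
  obtain ⟨x, rfl⟩ := Submodule.Quotient.mk_surjective _ x
  rw [pl, cy, pl, cy, Qt.map_mk, Qt.map_mk, Qt.map_mk, Qt.map_mk]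
  congr 1
  apply Subtype.ext
  exact G.nat L u hu ζ ζ' hζ hζ' h x

/-! ### Complex coefficients -/

/-- the defect space with complex coefficients -/
abbrev HypGeometry.W (S : SForm σ d) (r : ℕ) : Type := ℂ ⊗[ℚ] G.B S r

lemma rank_W (S : SForm σ d) (r : ℕ) : Module.rank ℂ (G.W S r) = G.defect S r := by
  rw [HypGeometry.defect_eq, Module.rank_baseChange, Cardinal.lift_id]

/-- pull-back -/
noncomputable def plC {S : SForm σ d} {S' : SForm σ' d} (L : LinIso S S') (r : ℕ) :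
    G.W S' r →ₗ[ℂ] G.W S r := (pl G L r).baseChange ℂ

lemma plC_refl (S : SForm σ d) (r : ℕ) (x : G.W S r) : plC G (LinIso.refl S) r x = x := by
  rw [plC, pl_refl, LinearMap.baseChange_id, LinearMap.id_apply]

lemma plC_trans {S : SForm σ d} {S' : SForm σ' d} {S'' : SForm σ'' d} (L : LinIso S S')
    (L' : LinIso S' S'') (r : ℕ) (x : G.W S'' r) :
    plC G (L.trans L') r x = plC G L r (plC G L' r x) := by
  rw [plC, pl_trans, LinearMap.baseChange_comp, LinearMap.comp_apply]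
  rfl

lemma plC_inj {S : SForm σ d} {S' : SForm σ' d} (L : LinIso S S') (r : ℕ) :
    Function.Injective (plC G L r) := by
  apply Function.LeftInverse.injective (g := plC G L.symm r)
  intro x
  rw [← plC_trans, LinIso.symm_trans, plC_refl]

section roots

/-- a root of `-1` -/
noncomputable def ζ₀ (d : ℕ) : ℂ := Complex.exp (Real.pi * Complex.I / d)

lemma ζ₀_pow [NeZero d] : ζ₀ d ^ d = -1 := by
  have : (d : ℂ) ≠ 0 := by exact_mod_cast NeZero.ne d
  rw [ζ₀, ← Complex.exp_nat_mul, mul_div_cancel₀ _ this, Complex.exp_pi_mul_I]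

lemma ζ₀_ne [NeZero d] : ζ₀ d ≠ 0 := Complex.exp_ne_zero _

/-- the roots of `-1` -/
noncomputable def ζr [NeZero d] (k : ZMod d) : ℂ := ζ₀ d * ψ k

lemma ζr_pow [NeZero d] (k : ZMod d) : ζr k ^ d = -1 := by
  rw [ζr, mul_pow, ζ₀_pow, ψ_pow_d, mul_one]

lemma ζr_inj [NeZero d] {k l : ZMod d} (h : ζr k = ζr l) : k = l :=
  ψ_inj (mul_left_cancel₀ ζ₀_ne h)

/-- roots of unity -/
noncomputable def uz [NeZero d] (k : ZMod d) : ℂˣ := Units.mk0 (ψ k) (ψ_ne k)

lemma uz_pow [NeZero d] (k : ZMod d) : uz k ^ d = 1 := by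
  apply Units.ext
  rw [Units.val_pow_eq_pow_val]
  exact ψ_pow_d k

end roots

variable [NeZero d]

/-- the cylinder maps with complex coefficients -/
noncomputable def cyC (S : SForm σ d) {r : ℕ} (hr : r ≤ S.dim) (k : ZMod d) :
    G.W S r →ₗ[ℂ] G.W (S.ext Bool) (r + 1) := (cy G S hr (ζr k) (ζr_pow k)).baseChange ℂ

/-- the transposes with complex coefficients -/
noncomputable def tcyC (S : SForm σ d) (r : ℕ) (k : ZMod d) :
    G.W (S.ext Bool) (r + 1) →ₗ[ℂ] G.W S r := (tcy G S r (ζr k) (ζr_pow k)).baseChange ℂ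

lemma tcyC_cyC (S : SForm σ d) {r : ℕ} (hr : r ≤ S.dim) (k l : ZMod d) (x : G.W S r) :
    tcyC G S r l (cyC G S hr k x) = (if k = l then (1 - (d : ℂ)) else 1) • x := by
  rw [tcyC, cyC, ← LinearMap.comp_apply, ← LinearMap.baseChange_comp]
  split_ifs with h
  · subst h
    have h1 : (tcy G S r (ζr k) (ζr_pow k)).comp (cy G S hr (ζr k) (ζr_pow k)) =
        (1 - (d : ℚ)) • LinearMap.id := by
      apply LinearMap.ext
      intro y
      exact tcy_cy_self G S hr _ _ y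
    rw [h1, LinearMap.baseChange_smul, LinearMap.baseChange_id, LinearMap.smul_apply,
      LinearMap.id_apply]
    rw [← algebraMap_smul ℂ (1 - (d : ℚ)) x]
    congr 1
    simp
  · have h1 : (tcy G S r (ζr l) (ζr_pow l)).comp (cy G S hr (ζr k) (ζr_pow k)) =
        LinearMap.id := by
      apply LinearMap.ext
      intro y
      exact tcy_cy_ne G S hr _ _ _ _ (fun h' => h (ζr_inj h')) y
    rw [h1, LinearMap.baseChange_id, LinearMap.id_apply, one_smul]

/-- the isotypic cylinder maps are injective -/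
lemma four_cy_inj (S : SForm σ d) {r : ℕ} (hr : r ≤ S.dim) {a : ZMod d} (ha : a ≠ 0) :
    Function.Injective (four (cyC G S hr) a) :=
  four_inj _ (tcyC G S r) (fun k l x => tcyC_cyC G S hr k l x) ha

lemma plC_cyC {S : SForm σ d} {S' : SForm σ' d} (L : LinIso S S') {r : ℕ} (hr : r ≤ S.dim)
    (hr' : r ≤ S'.dim) (s t : ZMod d) (k : ZMod d) (x : G.W S' r) :
    plC G (L.scale (fun b => cond b (uz t) (uz s)) (by intro j; cases j <;> exact uz_pow _)) (r + 1)
      (cyC G S' hr' k x) = cyC G S hr (k - (s - t)) (plC G L r x) := by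
  rw [plC, cyC, cyC, plC, ← LinearMap.comp_apply, ← LinearMap.comp_apply,
    ← LinearMap.baseChange_comp, ← LinearMap.baseChange_comp]
  congr 2
  apply LinearMap.ext
  intro y
  refine pl_cy G L hr hr' _ _ (ζr (k - (s - t))) (ζr k) _ _ ?_ y
  change ζr k * ψ t = ζr (k - (s - t)) * ψ s
  rw [ζr, ζr, mul_assoc, mul_assoc, ← ψ_add, ← ψ_add]
  congr 2
  ring

end Pool.Agent.V5helper92.HC
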