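import Pool.Agent.V5helper92.HC.Rel
import Pool.Agent.V5helper92.HC.Converse

/-!
# Primitive classes on products
-/

set_option autoImplicit false

open CategoryTheory MonoidalCategory CartesianMonoidalCategory

namespace Pool.Agent.V5helper92.HC

universe u w

variable {V : Type u} [Category.{w} V]

/-- the powers of the class `η` on `W` up to `η ^ n` have the push-forwards `0, …, 0, d` along `f` -/
structure Fib {C : Chow V} {W B : V} (d : ℕ) (f : W ⟶ B) (η : C.A W) (n : ℕ) : Prop where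
  pow_zero : ∀ k, n < k → η ^ k = 0
  push_low : ∀ k, k < n → C.push f (η ^ k) = 0
  push_top : C.push f (η ^ n) = (d : ℚ) • 1

section

variable {C : Chow V} {W B : V} {d : ℕ} {f : W ⟶ B} {η : C.A W} {n : ℕ}

/-- the part of `z` which is a combination of powers of `η` -/
def comb (d : ℕ) (f : W ⟶ B) (η : C.A W) (n : ℕ) (z : C.A W) : C.A W :=
  ∑ k ∈ Finset.range (n + 1), (d : ℚ)⁻¹ • (C.pull f (C.push f (z * η ^ k)) * η ^ (n - k))

lemma push_comb (h : Fib d f η n) (hd : d ≠ 0) (z : C.A W) (l : ℕ) :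
    C.push f (comb d f η n z * η ^ l) = C.push f (z * η ^ l) := by
  have hd0 : (d : ℚ) ≠ 0 := by exact_mod_cast hd
  by_cases hl : n < l
  · rw [h.pow_zero l hl, mul_zero, mul_zero]
  rw [comb, Finset.sum_mul, map_sum]
  have key : ∀ k ∈ Finset.range (n + 1), C.push f (((d : ℚ)⁻¹ •
      (C.pull f (C.push f (z * η ^ k)) * η ^ (n - k))) * η ^ l) =
        if k = l then C.push f (z * η ^ l) else 0 := by
    intro k hk
    rw [Finset.mem_range] at hk
    rw [smul_mul_assoc, map_smul, mul_assoc, ← pow_add, mul_comm, C.proj]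
    by_cases hkl : k = l
    · rw [if_pos hkl, hkl, Nat.sub_add_cancel (by omega), h.push_top, smul_mul_assoc, one_mul,
        smul_smul, inv_mul_cancel₀ hd0, one_smul]
    · rw [if_neg hkl]
      rcases lt_or_gt_of_ne hkl with h1 | h1
      · rw [h.pow_zero _ (by omega), map_zero, zero_mul, smul_zero]
      · rw [h.push_low _ (by omega), zero_mul, smul_zero]
  rw [Finset.sum_congr rfl key, Finset.sum_ite_eq' , if_pos (Finset.mem_range.2 (by omega))]

lemma push_sub_comb (h : Fib d f η n) (hd : d ≠ 0) (z : C.A W) (l : ℕ) :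
    C.push f ((z - comb d f η n z) * η ^ l) = 0 := by
  rw [sub_mul, map_sub, push_comb h hd, sub_self]

/-- a subspace which contains the terms contains the combination -/
lemma comb_mem {z : C.A W} {N : Submodule ℚ (C.A W)}
    (h : ∀ k ≤ n, C.pull f (C.push f (z * η ^ k)) * η ^ (n - k) ∈ N) :
    comb d f η n z ∈ N := by
  rw [comb]
  exact Submodule.sum_mem _ fun k hk =>
    Submodule.smul_mem _ _ (h k (Nat.lt_succ_iff.1 (Finset.mem_range.1 hk)))

end

section products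

variable [CartesianMonoidalCategory V] {C : Chow V} {dim : V → ℕ} {d : ℕ} {X Y Z : V}
  {hX : C.A X} {hY : C.A Y}

/-- the facts on the hypersurface `X` of degree `d` which are used -/
structure IsHyp (dim : V → ℕ) (d : ℕ) (X : V) (hX : C.A X) : Prop where
  mem : hX ∈ C.gr X 1
  degree : C.push (toUnit X) (hX ^ dim X) = (d : ℚ) • 1

lemma IsHyp.fib (h : IsHyp dim d X hX) (hD : C.HasDim dim) (hP : C.Products) (Z : V) :
    Fib d (snd X Z) (C.pull (fst X Z) hX) (dim X) where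
  pow_zero k hk := by
    rw [← map_pow, hD.top k _ (pow_mem_gr h.mem k) hk, map_zero]
  push_low k hk := by
    rw [← map_pow]
    exact hD.push_zero (snd X Z) k _ (C.pull_mem _ _ _ (pow_mem_gr h.mem k))
      (by rw [hD.prod]; omega)
  push_top := by
    rw [← map_pow, hP.square, h.degree, map_smul, map_one]

/-- the projection `X × Y × Z → X × Z` with the class of `Y` -/
lemma IsHyp.fib' (h : IsHyp dim d Y hY) (hD : C.HasDim dim) (hP : C.Products) (X Z : V) :
    Fib d (X ◁ snd Y Z) (C.pull (snd X (Y ⊗ Z)) (C.pull (fst Y Z) hY)) (dim Y) where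
  pow_zero k hk := by
    rw [← map_pow, (h.fib hD hP Z).pow_zero k hk, map_zero]
  push_low k hk := by
    rw [← map_pow, ← hP.flatSnd, (h.fib hD hP Z).push_low k hk, map_zero]
  push_top := by
    rw [← map_pow, ← hP.flatSnd, (h.fib hD hP Z).push_top, map_smul, map_one]

/-- `comb` for `X` preserves the classes which are primitive for `Y` -/
lemma push_comb_comb (hP : C.Products) (n : ℕ) (z : C.A (X ⊗ (Y ⊗ Z)))
    (hz : ∀ l : ℕ, C.push (X ◁ snd Y Z)
      (z * C.pull (snd X (Y ⊗ Z)) (C.pull (fst Y Z) hY) ^ l) = 0) (l : ℕ) :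
    C.push (X ◁ snd Y Z) (comb d (snd X (Y ⊗ Z)) (C.pull (fst X (Y ⊗ Z)) hX) n z *
      C.pull (snd X (Y ⊗ Z)) (C.pull (fst Y Z) hY) ^ l) = 0 := by
  rw [comb, Finset.sum_mul, map_sum]
  refine Finset.sum_eq_zero fun k _ => ?_
  have e1 : C.pull (fst X (Y ⊗ Z)) hX ^ (n - k) =
      C.pull (X ◁ snd Y Z) (C.pull (fst X Z) hX ^ (n - k)) := by
    rw [map_pow, ← C.pull_comp, whiskerLeft_fst]
  have e2 : C.pull (fst X (Y ⊗ Z)) hX ^ k =
      C.pull (X ◁ snd Y Z) (C.pull (fst X Z) hX ^ k) := by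
    rw [map_pow, ← C.pull_comp, whiskerLeft_fst]
  have e3 : C.push (snd Y Z) (C.push (snd X (Y ⊗ Z)) (z * C.pull (fst X (Y ⊗ Z)) hX ^ k) *
      C.pull (fst Y Z) hY ^ l) = 0 := by
    rw [← C.proj, map_pow, ← C.push_comp, mul_right_comm, e2,
      show snd X (Y ⊗ Z) ≫ snd Y Z = (X ◁ snd Y Z) ≫ snd X Z from (whiskerLeft_snd _ _).symm,
      C.push_comp, C.proj, hz, zero_mul, map_zero]
  rw [smul_mul_assoc, map_smul, mul_right_comm, e1, C.proj,
    ← map_pow (C.pull (snd X (Y ⊗ Z))), ← map_mul, ← hP.flatSnd, e3, map_zero, zero_mul,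
    smul_zero]

/-- the part of a class which is primitive for `X` and `Y` -/
def prim (d n m : ℕ) (hX : C.A X) (hY : C.A Y) (z : C.A (X ⊗ (Y ⊗ Z))) : C.A (X ⊗ (Y ⊗ Z)) :=
  (z - comb d (X ◁ snd Y Z) (C.pull (snd X (Y ⊗ Z)) (C.pull (fst Y Z) hY)) m z) -
    comb d (snd X (Y ⊗ Z)) (C.pull (fst X (Y ⊗ Z)) hX) n
      (z - comb d (X ◁ snd Y Z) (C.pull (snd X (Y ⊗ Z)) (C.pull (fst Y Z) hY)) m z)

lemma prim_fst (h : IsHyp dim d X hX) (hD : C.HasDim dim) (hP : C.Products) (hd : d ≠ 0)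
    (m : ℕ) (z : C.A (X ⊗ (Y ⊗ Z))) (l : ℕ) :
    C.push (snd X (Y ⊗ Z)) (prim d (dim X) m hX hY z * C.pull (fst X (Y ⊗ Z)) hX ^ l) = 0 :=
  push_sub_comb (h.fib hD hP (Y ⊗ Z)) hd _ l

lemma prim_snd (h : IsHyp dim d Y hY) (hD : C.HasDim dim) (hP : C.Products) (hd : d ≠ 0)
    (n : ℕ) (z : C.A (X ⊗ (Y ⊗ Z))) (l : ℕ) :
    C.push (X ◁ snd Y Z) (prim d n (dim Y) hX hY z *
      C.pull (snd X (Y ⊗ Z)) (C.pull (fst Y Z) hY) ^ l) = 0 := by
  have h1 := push_sub_comb (h.fib' hD hP X Z) hd z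
  rw [prim, sub_mul, map_sub, h1 l, push_comb_comb hP n _ h1 l, sub_zero]

variable {J : V} {hJ : C.A J}

/-- the join of a class on `X × Y × Z` -/
def Join.up (j : Join C dim d hX hY hJ) (Z : V) (z : C.A (X ⊗ (Y ⊗ Z))) : C.A (J ⊗ Z) :=
  C.push ((j.i ≫ j.β) ▷ Z) (C.pull (j.π ▷ Z) (C.pull (α_ X Y Z).hom z))

/-- the transposed map -/
def Join.down (j : Join C dim d hX hY hJ) (Z : V) (z : C.A (J ⊗ Z)) : C.A (X ⊗ (Y ⊗ Z)) :=
  C.push (α_ X Y Z).hom (C.push (j.π ▷ Z) (C.pull ((j.i ≫ j.β) ▷ Z) z))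

/-- **The join of a primitive class determines it.** -/
theorem Join.down_up (j : Join C dim d hX hY hJ) (hj : j.Times) (hP : C.Products)
    (hD : C.HasDim dim) (Z : V) (z : C.A (X ⊗ (Y ⊗ Z)))
    (h1 : ∀ l : ℕ, C.push (snd X (Y ⊗ Z)) (z * C.pull (fst X (Y ⊗ Z)) hX ^ l) = 0)
    (h2 : ∀ l : ℕ, C.push (X ◁ snd Y Z)
      (z * C.pull (snd X (Y ⊗ Z)) (C.pull (fst Y Z) hY) ^ l) = 0) :
    j.down Z (j.up Z z) = -((d : ℚ) • z) := by
  have e1 : fst X Y ▷ Z = (α_ X Y Z).hom ≫ (X ◁ snd Y Z) := by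
    apply hom_ext
    · rw [whiskerRight_fst, Category.assoc, whiskerLeft_fst, associator_hom_fst]
    · rw [whiskerRight_snd, Category.assoc, whiskerLeft_snd, associator_hom_snd_snd]
  have e2 : snd X Y ▷ Z = (α_ X Y Z).hom ≫ snd X (Y ⊗ Z) := by
    apply hom_ext
    · rw [whiskerRight_fst, Category.assoc, associator_hom_snd_fst]
    · rw [whiskerRight_snd, Category.assoc, associator_hom_snd_snd]
  have e3 : C.pull (fst _ Z) (C.pull (snd X Y) hY) =
      C.pull (α_ X Y Z).hom (C.pull (snd X (Y ⊗ Z)) (C.pull (fst Y Z) hY)) := by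
    rw [← C.pull_comp, ← C.pull_comp, ← C.pull_comp, Category.assoc, associator_hom_snd_fst]
  have e4 : C.pull (fst _ Z) (C.pull (fst X Y) hX) =
      C.pull (α_ X Y Z).hom (C.pull (fst X (Y ⊗ Z)) hX) := by
    rw [← C.pull_comp, ← C.pull_comp, associator_hom_fst]
  have key := j.transpose_times hj hP hD Z (C.pull (α_ X Y Z).hom z)
    (fun k => by rw [e1, e3, ← map_pow, ← map_mul, C.push_comp, hP.push_pull, h2 k])
    (fun k => by rw [e2, e4, ← map_pow, ← map_mul, C.push_comp, hP.push_pull, h1 k])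
  rw [Join.down, Join.up, key, map_neg, map_smul, hP.push_pull]

end products

end Pool.Agent.V5helper92.HC
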