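import Pool.Agent.V5helper92.HC.Core

/-!
# Joins in families: products with a further variety
-/

set_option autoImplicit false

open CategoryTheory MonoidalCategory CartesianMonoidalCategory

namespace Pool.Agent.V5helper92.HC

universe u w

variable {V : Type u} [Category.{w} V] [CartesianMonoidalCategory V]

namespace Chow

/-- Chow groups of products: `f_* 1 = 1` for isomorphisms `f`, and base change for products:
`(g × 1)^* (1 × u)_* = (1 × u)_* (g × 1)^*` and `(1 × g)^* (u × 1)_* = (u × 1)_* (1 × g)^*`. -/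
structure Products (C : Chow V) : Prop where
  iso : ∀ {X Y : V} (e : X ≅ Y), C.cls e.hom = 1
  left : ∀ {A B Z Z' : V} (g : A ⟶ B) (u : Z ⟶ Z') (x : C.A (B ⊗ Z)),
    C.pb (g ▷ Z') (C.pf (B ◁ u) x) = C.pf (A ◁ u) (C.pb (g ▷ Z) x)
  right : ∀ {A B Z Z' : V} (g : A ⟶ B) (u : Z ⟶ Z') (x : C.A (Z ⊗ B)),
    C.pb (Z' ◁ g) (C.pf (u ▷ B) x) = C.pf (u ▷ A) (C.pb (Z ◁ g) x)

namespace Products

variable {C : Chow V} (hP : C.Products)

include hP

lemma push_pull {X Y : V} (e : X ≅ Y) (y : C.A Y) : C.push e.hom (C.pull e.hom y) = y := by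
  have h1 : C.push e.hom 1 = 1 := hP.iso e
  have h2 := C.proj e.hom 1 y
  rwa [one_mul, h1, one_mul] at h2

lemma pull_eq {X Y : V} (e : X ≅ Y) (y : C.A Y) : C.pull e.hom y = C.push e.inv y := by
  have h := congrArg (C.push e.inv) (hP.push_pull e y)
  rwa [← C.push_comp, e.hom_inv_id, C.push_id] at h

/-- flat base change, first factor -/
lemma flatFst {A B : V} (Z : V) (f : A ⟶ B) (x : C.A A) :
    C.pull (fst B Z) (C.push f x) = C.push (f ▷ Z) (C.pull (fst A Z) x) := by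
  have h1 : ∀ A : V, fst A Z = (A ◁ toUnit Z) ≫ (ρ_ A).hom := by
    intro A
    rw [rightUnitor_hom, whiskerLeft_fst]
  have h2 : C.pull (ρ_ B).hom (C.push f x) = C.push (f ▷ 𝟙_ V) (C.pull (ρ_ A).hom x) := by
    rw [hP.pull_eq, hP.pull_eq, ← C.push_comp, ← C.push_comp, rightUnitor_inv_naturality]
  have h3 : C.pull (B ◁ toUnit Z) (C.push (f ▷ 𝟙_ V) (C.pull (ρ_ A).hom x)) =
      C.push (f ▷ Z) (C.pull (A ◁ toUnit Z) (C.pull (ρ_ A).hom x)) := hP.right _ _ _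
  rw [h1, h1, C.pull_comp, C.pull_comp, h2, h3]

/-- flat base change, second factor -/
lemma flatSnd {A B : V} (Z : V) (f : A ⟶ B) (x : C.A A) :
    C.pull (snd Z B) (C.push f x) = C.push (Z ◁ f) (C.pull (snd Z A) x) := by
  have h1 : ∀ A : V, snd Z A = (toUnit Z ▷ A) ≫ (λ_ A).hom := by
    intro A
    rw [leftUnitor_hom, whiskerRight_snd]
  have h2 : C.pull (λ_ B).hom (C.push f x) = C.push (𝟙_ V ◁ f) (C.pull (λ_ A).hom x) := by
    rw [hP.pull_eq, hP.pull_eq, ← C.push_comp, ← C.push_comp, leftUnitor_inv_naturality]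
  have h3 : C.pull (toUnit Z ▷ B) (C.push (𝟙_ V ◁ f) (C.pull (λ_ A).hom x)) =
      C.push (Z ◁ f) (C.pull (toUnit Z ▷ A) (C.pull (λ_ A).hom x)) := hP.left _ _ _
  rw [h1, h1, C.pull_comp, C.pull_comp, h2, h3]

lemma square (X Z : V) (x : C.A X) :
    C.push (snd X Z) (C.pull (fst X Z) x) = C.pull (toUnit Z) (C.push (toUnit X) x) := by
  have h1 : snd X Z = (toUnit X ▷ Z) ≫ (λ_ Z).hom := by
    rw [leftUnitor_hom, whiskerRight_snd]
  have h3 : ∀ y : C.A (𝟙_ V ⊗ Z), C.push (λ_ Z).hom y = C.pull (λ_ Z).inv y := fun y =>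
    (hP.pull_eq (λ_ Z).symm y).symm
  rw [h1, C.push_comp, ← hP.flatFst, h3, ← C.pull_comp]
  congr 2
  exact toUnit_unique _ _

end Products

end Chow

variable {C : Chow V} {dim : V → ℕ} {d : ℕ} {X Y J : V} {hX : C.A X} {hY : C.A Y} {hJ : C.A J}

namespace Chow

/-- The exceptional divisor `EX × Z` of the product of the blow-up `J'` with `Z`: it meets the divisor
`D × Z` transversally, in `X × Y × Z`, and it is a projective bundle over `X × Z`. -/
structure ExcTimes (C : Chow V) {X P D J' EX : V} (i : D ⟶ J') (σX : P ⟶ D) (eX : EX ⟶ J')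
    (gX : EX ⟶ X) (kX : P ⟶ EX) (ξ : C.A EX) : Prop where
  base : ∀ (Z : V) (x : C.A (D ⊗ Z)),
    C.pb (eX ▷ Z) (C.pf (i ▷ Z) x) = C.pf (kX ▷ Z) (C.pb (σX ▷ Z) x)
  nondeg : ∀ (Z : V) (z : C.A (EX ⊗ Z)),
    (∀ k : ℕ, C.pf (gX ▷ Z) (z * C.pb (fst EX Z) ξ ^ k) = 0) → z = 0

/-- The product of the blow-up `β : J' → J` with `Z`: a class on `J' × Z` which restricts to zero on the
exceptional divisors is the pull-back of a class on `J × Z`; and the self-intersection formula for the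
divisor `D × Z`. -/
structure BlowUpTimes (C : Chow V) {D J J' EX EY : V} (β : J' ⟶ J) (i : D ⟶ J') (eX : EX ⟶ J')
    (eY : EY ⟶ J') : Prop where
  blow : ∀ (Z : V) (y : C.A (J' ⊗ Z)), C.pb (eX ▷ Z) y = 0 → C.pb (eY ▷ Z) y = 0 →
    C.pb (β ▷ Z) (C.pf (β ▷ Z) y) = y
  self : ∀ (Z : V) (x : C.A (D ⊗ Z)),
    C.pb (i ▷ Z) (C.pf (i ▷ Z) x) = x * C.pb (fst D Z) (C.pb i (C.cls i))

end Chow

/-- The properties of the blow-up `J'` of `J` and of the strict transform `D` of the join hold for their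
products with any variety `Z`: transversality of the exceptional divisors and `D`, the Chow groups of
the projective bundles `EX × Z` and `EY × Z`, the Chow groups of the blow-up `J' × Z`, and the
self-intersection formula for `D × Z`. -/
structure Join.Times (j : Join C dim d hX hY hJ) : Prop where
  excX : C.ExcTimes j.i j.σX j.eX j.gX j.kX j.ξX
  excY : C.ExcTimes j.i j.σY j.eY j.gY j.kY j.ξY
  blowUp : C.BlowUpTimes j.β j.i j.eX j.eY

/-- if the transversal restrictions vanish, the class vanishes on the exceptional divisor -/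
lemma exc_zero_times {X Y P D J' EX Z : V} {hY : C.A Y} {p : P ⟶ X} {q : P ⟶ Y} {i : D ⟶ J'}
    {σX : P ⟶ D} {eX : EX ⟶ J'} {gX : EX ⟶ X} {kX : P ⟶ EX} {ξ : C.A EX}
    (h : C.JoinExc hY p q i σX eX gX kX ξ) {π : D ⟶ P} (hπ : σX ≫ π = 𝟙 P)
    (base : ∀ x : C.A (D ⊗ Z),
      C.pull (eX ▷ Z) (C.push (i ▷ Z) x) = C.push (kX ▷ Z) (C.pull (σX ▷ Z) x))
    (nondeg : ∀ z : C.A (EX ⊗ Z),
      (∀ k : ℕ, C.push (gX ▷ Z) (z * C.pull (fst EX Z) ξ ^ k) = 0) → z = 0) (α : C.A (P ⊗ Z))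
    (hα : ∀ k : ℕ, C.push (p ▷ Z) (α * C.pull (fst P Z) (C.pull q hY) ^ k) = 0) :
    C.pull (eX ▷ Z) (C.push (i ▷ Z) (C.pull (π ▷ Z) α)) = 0 := by
  have h0 : (σX ▷ Z) ≫ (π ▷ Z) = 𝟙 _ := by rw [← comp_whiskerRight, hπ, id_whiskerRight]
  rw [base, ← C.pull_comp, h0, C.pull_id]
  apply nondeg
  intro k
  have h2 : C.pull kX ξ = C.pull q hY := h.hyp
  have h3 : C.pull (kX ▷ Z) (C.pull (fst EX Z) ξ) = C.pull (fst P Z) (C.pull q hY) := by
    rw [← C.pull_comp, whiskerRight_fst, C.pull_comp, h2]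
  rw [← C.proj, ← C.push_comp, ← comp_whiskerRight, h.proj, map_pow, h3]
  exact hα k

/-- **The self-intersection of the join**, for a product with `Z`. -/
theorem Join.transpose_times (j : Join C dim d hX hY hJ) (hj : j.Times) (hP : C.Products)
    (hD : C.HasDim dim) (Z : V) (α : C.A ((X ⊗ Y) ⊗ Z))
    (h1 : ∀ k : ℕ, C.push (fst X Y ▷ Z) (α * C.pull (fst _ Z) (C.pull (snd X Y) hY) ^ k) = 0)
    (h2 : ∀ k : ℕ, C.push (snd X Y ▷ Z) (α * C.pull (fst _ Z) (C.pull (fst X Y) hX) ^ k) = 0) :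
    C.push (j.π ▷ Z) (C.pull ((j.i ≫ j.β) ▷ Z)
      (C.push ((j.i ≫ j.β) ▷ Z) (C.pull (j.π ▷ Z) α))) = -((d : ℚ) • α) := by
  have e1 := exc_zero_times j.excX j.bundle.secX (hj.excX.base Z) (hj.excX.nondeg Z) α h1
  have e2 := exc_zero_times j.excY j.bundle.secY (hj.excY.base Z) (hj.excY.nondeg Z) α h2
  have e3 : C.pull (j.β ▷ Z) (C.push (j.β ▷ Z) (C.push (j.i ▷ Z) (C.pull (j.π ▷ Z) α))) =
      C.push (j.i ▷ Z) (C.pull (j.π ▷ Z) α) := hj.blowUp.blow Z _ e1 e2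
  have e4 : C.pull (j.i ▷ Z) (C.push (j.i ▷ Z) (C.pull (j.π ▷ Z) α)) =
      C.pull (j.π ▷ Z) α * C.pull (fst j.D Z) (C.pull j.i (C.push j.i 1)) := hj.blowUp.self Z _
  have e5 : C.push j.i 1 =
      (d : ℚ) • (C.pull j.β hJ - C.push j.eX 1 - C.push j.eY 1) := j.blowUp.strict
  have e6 : C.pull j.i (C.push j.eX 1) = C.push j.σX 1 := j.excX.cls
  have e7 : C.pull j.i (C.push j.eY 1) = C.push j.σY 1 := j.excY.cls
  have e8 : C.pull (j.i ≫ j.β) hJ = C.push j.σX 1 + C.pull (j.π ≫ snd X Y) hY := j.bundle.tautX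
  have e9 : C.pull j.i (C.push j.i 1) =
      (d : ℚ) • (C.pull j.π (C.pull (snd X Y) hY) - C.push j.σY 1) := by
    rw [e5, map_smul, map_sub, map_sub, e6, e7, ← C.pull_comp, e8, add_sub_cancel_left,
      C.pull_comp]
  have z0 : ∀ x : C.A ((X ⊗ Y) ⊗ Z), C.push (j.π ▷ Z) (C.pull (j.π ▷ Z) x) = 0 := by
    intro x
    have h1 : C.push (j.π ▷ Z) 1 = 0 :=
      hD.push_zero (j.π ▷ Z) 0 1 (C.one_mem _) (by rw [hD.prod, hD.prod, hD.prod, j.dimD]; omega)
    have h2 := C.proj (j.π ▷ Z) 1 x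
    rw [one_mul, h1, zero_mul] at h2
    exact h2
  have z1 : C.pull (fst j.D Z) (C.pull j.π (C.pull (snd X Y) hY)) =
      C.pull (j.π ▷ Z) (C.pull (fst _ Z) (C.pull (snd X Y) hY)) := by
    rw [← C.pull_comp, ← C.pull_comp (j.π ▷ Z), whiskerRight_fst]
  have z2 : C.pull (fst j.D Z) (C.push j.σY 1) = C.push (j.σY ▷ Z) 1 := by
    rw [hP.flatFst, map_one]
  have z3 : (j.σY ▷ Z) ≫ (j.π ▷ Z) = 𝟙 _ := by
    rw [← comp_whiskerRight, j.bundle.secY, id_whiskerRight]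
  have z4 : C.push (j.π ▷ Z) (C.pull (j.π ▷ Z) α * C.push (j.σY ▷ Z) 1) = α := by
    rw [mul_comm, ← C.proj, one_mul, ← C.push_comp, z3, C.push_id, ← C.pull_comp, z3, C.pull_id]
  rw [comp_whiskerRight, C.push_comp, C.pull_comp, e3, e4, e9, map_smul, map_sub, z1, z2,
    mul_smul_comm, map_smul, mul_sub, map_sub, z4, ← map_mul, z0, zero_sub, smul_neg]

end Pool.Agent.V5helper92.HC
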